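import Pool.Agent.Y427.SC.Sima
import Pool.Agent.Y219.SC.LapB
import Pool.Agent.Y971.SG.Bes
import Pool.Agent.Y987.SG.Zer

/-!
# AB: the loop integrals over a double covering do not all vanish
-/

set_option autoImplicit false

open Complex MeasureTheory Metric Set Filter Topology
open Pool.Agent.Y245.SG (Bn)

namespace Pool.Agent.E8helper4.AB

/-- scaling -/
theorem circ_scale (f : ℂ → ℂ) (ε : ℝ) :
    ∮ z in C(0, ε), f z = (ε : ℂ) * ∮ z in C(0, 1), f (ε * z) := by
  unfold circleIntegral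
  rw [← intervalIntegral.integral_const_mul]
  refine intervalIntegral.integral_congr fun θ _ => ?_
  simp only [deriv_circleMap, circleMap, zero_add, smul_eq_mul, ofReal_one, one_mul]
  ring

/-- even functions -/
theorem circ_even (f : ℂ → ℂ) : ∮ z in C(0, 1), f (z ^ 2) = 0 := by
  obtain ⟨h, hh⟩ : ∃ h : ℝ → ℂ, h = fun θ : ℝ => deriv (circleMap 0 1) θ • f (circleMap 0 1 θ ^ 2) :=
    ⟨_, rfl⟩
  have hper : Function.Periodic h (2 * Real.pi) := by
    intro θ
    rw [hh]
    simp only [deriv_circleMap]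
    rw [periodic_circleMap 0 1 θ]
  have hanti : ∀ θ, h (θ + Real.pi) = -h θ := by
    intro θ
    rw [hh]
    simp only [deriv_circleMap]
    have h1 : circleMap 0 1 (θ + Real.pi) = -circleMap 0 1 θ := by
      unfold circleMap
      push_cast
      rw [add_mul, exp_add, exp_pi_mul_I]
      ring
    rw [h1, neg_sq]
    simp
  have h1 : ∫ θ in (0 : ℝ)..2 * Real.pi, h (θ + Real.pi) = ∫ θ in (0 : ℝ)..2 * Real.pi, h θ := by
    rw [intervalIntegral.integral_comp_add_right]
    have := hper.intervalIntegral_add_eq Real.pi 0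
    rw [zero_add] at this
    rw [zero_add, add_comm]
    exact this
  simp only [hanti, intervalIntegral.integral_neg] at h1
  have h2 : ∮ z in C(0, 1), f (z ^ 2) = ∫ θ in (0 : ℝ)..2 * Real.pi, h θ := by
    rw [hh]
    rfl
  rw [h2]
  linear_combination (-1 / 2 : ℂ) * h1

/-- squares -/
theorem circ_sq (f : ℂ → ℂ) (hf : ContinuousOn f (sphere 0 1)) :
    ∮ z in C(0, 1), f (z ^ 2) * z = ∮ z in C(0, 1), f z := by
  obtain ⟨h, hh⟩ : ∃ h : ℝ → ℂ, h = fun θ : ℝ => deriv (circleMap 0 1) θ • f (circleMap 0 1 θ) :=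
    ⟨_, rfl⟩
  have hper : Function.Periodic h (2 * Real.pi) := by
    intro θ
    rw [hh]
    simp only [deriv_circleMap]
    rw [periodic_circleMap 0 1 θ]
  have h1 : ∮ z in C(0, 1), f (z ^ 2) * z = ∫ θ in (0 : ℝ)..2 * Real.pi, h (2 * θ) := by
    unfold circleIntegral
    refine intervalIntegral.integral_congr fun θ _ => ?_
    rw [hh]
    simp only [deriv_circleMap, circleMap, zero_add, smul_eq_mul, ofReal_one, one_mul]
    have h2 : exp (((2 * θ : ℝ) : ℂ) * I) = exp (θ * I) ^ 2 := by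
      rw [← exp_nat_mul]
      congr 1
      push_cast
      ring
    rw [h2]
    ring
  have h2 : ∮ z in C(0, 1), f z = ∫ θ in (0 : ℝ)..2 * Real.pi, h θ := by
    rw [hh]
    rfl
  rw [h1, h2, intervalIntegral.integral_comp_mul_left _ (by norm_num : (2 : ℝ) ≠ 0), mul_zero]
  have hc : Continuous h := by
    rw [hh]
    have h5 : Continuous fun θ => f (circleMap 0 1 θ) :=
      hf.comp_continuous (continuous_circleMap 0 1)
        (fun θ => circleMap_mem_sphere 0 zero_le_one θ)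
    have h6 : Continuous fun θ => deriv (circleMap 0 1) θ := by
      simp only [deriv_circleMap]
      exact (continuous_circleMap 0 1).mul continuous_const
    exact h6.smul h5
  have hi : ∀ x y, IntervalIntegrable h volume x y := fun x y => hc.intervalIntegrable x y
  · have h3 : ∫ θ in (0 : ℝ)..2 * (2 * Real.pi), h θ =
        (∫ θ in (0 : ℝ)..2 * Real.pi, h θ) + ∫ θ in (2 * Real.pi)..2 * (2 * Real.pi), h θ :=
      (intervalIntegral.integral_add_adjacent_intervals (hi _ _) (hi _ _)).symm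
    have h4 : ∫ θ in (2 * Real.pi)..2 * (2 * Real.pi), h θ = ∫ θ in (0 : ℝ)..2 * Real.pi, h θ := by
      have := hper.intervalIntegral_add_eq (2 * Real.pi) 0
      rw [zero_add] at this
      rw [show 2 * (2 * Real.pi) = 2 * Real.pi + 2 * Real.pi by ring]
      exact this
    rw [h3, h4, ← two_smul ℝ, smul_smul]
    norm_num

/-- the values of the model integrals -/
theorem model_int {γ : ℂ} (hγ : γ ≠ 0) (h0 : ∮ z in C(0, 1), exp (z + γ / z) = 0)
    (h1 : ∮ z in C(0, 1), exp (z + γ / z) / z = 0) : False := by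
  have hne : ∀ z ∈ sphere (0 : ℂ) 1, z ≠ 0 := by
    rintro z hz rfl
    simp at hz
  have hc : ContinuousOn (fun z : ℂ => exp (z + γ / z)) (sphere 0 1) := by
    intro z hz
    have := hne z hz
    apply ContinuousAt.continuousWithinAt
    fun_prop (disch := assumption)
  have hsim : ∀ n : ℕ, ∮ z in C(0, 1), exp (z + γ / z) * z ^ n =
      2 * Real.pi * I * γ ^ (n + 1) * Bn (n + 1) (-γ) := by
    intro n
    have h2 := Pool.Agent.Y427.SC.sima 1 2 0 (fun z => z) 1 γ n one_pos (by norm_num)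
      differentiableOn_id rfl (by simp) (fun ω _ h => h)
    simp only [one_mul, deriv_id'', mul_one] at h2
    exact h2
  -- integration by parts
  have hparts : ∮ z in C(0, 1), (exp (z + γ / z) + exp (z + γ / z) * z ^ 1 -
      γ * (exp (z + γ / z) / z)) = 0 := by
    refine circleIntegral.integral_eq_zero_of_hasDerivWithinAt
      (f := fun z => z * exp (z + γ / z)) zero_le_one fun z hz => ?_
    have hz0 := hne z hz
    have h3 : HasDerivAt (fun z : ℂ => z + γ / z) (1 + γ * (-(z ^ 2)⁻¹)) z :=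
      (hasDerivAt_id z).add ((hasDerivAt_inv hz0).const_mul γ)
    have h4 : HasDerivAt (fun z : ℂ => z * exp (z + γ / z))
        (1 * exp (z + γ / z) + z * (exp (z + γ / z) * (1 + γ * (-(z ^ 2)⁻¹)))) z :=
      (hasDerivAt_id z).mul h3.cexp
    refine (h4.congr_deriv ?_).hasDerivWithinAt
    field_simp
    ring
  have hi0 : CircleIntegrable (fun z : ℂ => exp (z + γ / z)) 0 1 :=
    hc.circleIntegrable zero_le_one
  have hi1 : CircleIntegrable (fun z : ℂ => exp (z + γ / z) * z ^ 1) 0 1 :=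
    (hc.mul (by fun_prop)).circleIntegrable zero_le_one
  have hi2 : CircleIntegrable (fun z : ℂ => γ * (exp (z + γ / z) / z)) 0 1 := by
    refine ContinuousOn.circleIntegrable zero_le_one ?_
    exact continuousOn_const.mul (hc.div continuousOn_id hne)
  rw [circleIntegral.integral_sub (f := fun z => exp (z + γ / z) + exp (z + γ / z) * z ^ 1)
    (hi0.add hi1) hi2, circleIntegral.integral_add hi0 hi1,
    circleIntegral.integral_const_mul, h0, h1, hsim 1] at hparts
  have h5 := hsim 0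
  simp only [pow_zero, mul_one] at h5
  rw [h0] at h5
  have hpi : (2 * Real.pi * I : ℂ) ≠ 0 := by
    have : (Real.pi : ℂ) ≠ 0 := by exact_mod_cast Real.pi_ne_zero
    simp [this]
  refine Pool.Agent.Y987.SG.bnc Pool.Agent.Y971.SG.bes 1 (-γ) ⟨?_, ?_⟩
  · have h6 : (2 * Real.pi * I * γ ^ (0 + 1)) * Bn (0 + 1) (-γ) = 0 := h5.symm
    exact (mul_eq_zero.1 h6).resolve_left (mul_ne_zero hpi (pow_ne_zero _ hγ))
  · have h6 : (2 * Real.pi * I * γ ^ (1 + 1)) * Bn (1 + 1) (-γ) = 0 := by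
      linear_combination hparts
    exact (mul_eq_zero.1 h6).resolve_left (mul_ne_zero hpi (pow_ne_zero _ hγ))

/-- comparison of powers -/
theorem two_terms {A B e : ℂ} {C ε1 : ℝ} (hε1 : 0 < ε1)
    (h : ∀ ε : ℝ, 0 < ε → ε < ε1 → ‖(1 + ε ^ 2 * e) * A + ε ^ 2 * B‖ ≤ C * ε ^ 3) :
    A = 0 ∧ B = 0 := by
  have hA : A = 0 := by
    have h1 : Tendsto (fun ε : ℝ => (1 + (ε : ℂ) ^ 2 * e) * A + (ε : ℂ) ^ 2 * B) (𝓝[>] 0)
        (𝓝 ((1 + ((0 : ℝ) : ℂ) ^ 2 * e) * A + ((0 : ℝ) : ℂ) ^ 2 * B)) := by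
      have : Continuous (fun ε : ℝ => (1 + (ε : ℂ) ^ 2 * e) * A + (ε : ℂ) ^ 2 * B) := by fun_prop
      exact (this.tendsto 0).mono_left nhdsWithin_le_nhds
    have h2 : Tendsto (fun ε : ℝ => (1 + (ε : ℂ) ^ 2 * e) * A + (ε : ℂ) ^ 2 * B) (𝓝[>] 0)
        (𝓝 0) := by
      have h3 : Tendsto (fun ε : ℝ => C * ε ^ 3) (𝓝[>] 0) (𝓝 0) := by
        have : Continuous (fun ε : ℝ => C * ε ^ 3) := by fun_prop
        have h4 := (this.tendsto 0).mono_left (nhdsWithin_le_nhds (s := Ioi (0 : ℝ)))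
        simpa using h4
      refine squeeze_zero_norm' ?_ h3
      filter_upwards [Ioo_mem_nhdsGT hε1] with ε hε
      exact h ε hε.1 hε.2
    have h3 := tendsto_nhds_unique h1 h2
    simpa using h3
  refine ⟨hA, ?_⟩
  have h1 : Tendsto (fun ε : ℝ => C * ε) (𝓝[>] 0) (𝓝 0) := by
    have : Continuous (fun ε : ℝ => C * ε) := by fun_prop
    have h4 := (this.tendsto 0).mono_left (nhdsWithin_le_nhds (s := Ioi (0 : ℝ)))
    simpa using h4
  have h2 : ‖B‖ ≤ 0 := by
    refine ge_of_tendsto h1 ?_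
    filter_upwards [Ioo_mem_nhdsGT hε1] with ε hε
    have h3 := h ε hε.1 hε.2
    rw [hA, mul_zero, zero_add, norm_mul, norm_pow, norm_real, Real.norm_of_nonneg hε.1.le] at h3
    have h4 : 0 < ε ^ 2 := pow_pos hε.1 2
    have h5 : ε ^ 2 * ‖B‖ ≤ ε ^ 2 * (C * ε) := by
      refine h3.trans (le_of_eq ?_)
      ring
    exact le_of_mul_le_mul_left h5 h4
  exact norm_le_zero_iff.1 h2

/-- **the loop integrals over a double covering do not all vanish** -/
theorem dbl {a : ℝ} (ha : 0 < a) {S : ℂ} (hS : S ≠ 0) {E : ℂ → ℂ} {δ ρ : ℝ}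
    (hE : DifferentiableOn ℂ E (ball 0 δ)) (hE0 : E 0 ≠ 0) (hρ : 0 < ρ) (hρδ : ρ < δ)
    (h : ∀ α β : ℂ, α * β = -(a : ℂ) →
      ∮ z in C(0, ρ), exp (α * z ^ 2 + β * (S / z ^ 2 + E z / z)) * z = 0) : False := by
  have hδ : 0 < δ := hρ.trans hρδ
  have ha' : (a : ℂ) ≠ 0 := by exact_mod_cast ha.ne'
  obtain ⟨γ, hγ⟩ : ∃ γ : ℂ, γ = -a * S := ⟨_, rfl⟩
  have hγ0 : γ ≠ 0 := by
    rw [hγ]
    exact mul_ne_zero (neg_ne_zero.2 ha') hS
  obtain ⟨g, hg⟩ : ∃ g : ℂ → ℂ, g = fun z => exp (z ^ 2 + γ / z ^ 2) := ⟨_, rfl⟩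
  -- the rescaled integrals
  have hne : ∀ z ∈ sphere (0 : ℂ) 1, z ≠ 0 := by
    rintro z hz rfl
    simp at hz
  have hres : ∀ ε : ℝ, 0 < ε → ε < ρ →
      ∮ z in C(0, 1), g z * exp (-a * ε * E (ε * z) / z) * z = 0 := by
    intro ε hε hερ
    have hεc : (ε : ℂ) ≠ 0 := by exact_mod_cast hε.ne'
    have h1 := h (1 / (ε : ℂ) ^ 2) (-a * ε ^ 2) (by field_simp)
    have h2 : ∮ z in C(0, ρ), exp (1 / (ε : ℂ) ^ 2 * z ^ 2 + -a * ε ^ 2 *
        (S / z ^ 2 + E z / z)) * z = ∮ z in C(0, ε), exp (1 / (ε : ℂ) ^ 2 * z ^ 2 + -a * ε ^ 2 *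
        (S / z ^ 2 + E z / z)) * z := by
      have hd : ∀ z : ℂ, z ∈ ball (0 : ℂ) δ → z ≠ 0 → DifferentiableAt ℂ (fun z =>
          exp (1 / (ε : ℂ) ^ 2 * z ^ 2 + -a * ε ^ 2 * (S / z ^ 2 + E z / z)) * z) z := by
        intro z hz hz0
        have h3 : DifferentiableAt ℂ E z := hE.differentiableAt (isOpen_ball.mem_nhds hz)
        have h4 : z ^ 2 ≠ 0 := pow_ne_zero 2 hz0
        fun_prop (disch := assumption)
      refine Complex.circleIntegral_eq_of_differentiable_on_annulus_off_countable hε hερ.le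
        countable_empty ?_ ?_
      · intro z hz
        refine (hd z (closedBall_subset_ball hρδ hz.1) ?_).continuousAt.continuousWithinAt
        rintro rfl
        exact hz.2 (mem_ball_self hε)
      · intro z hz
        refine hd z (ball_subset_ball hρδ.le hz.1.1) ?_
        rintro rfl
        exact hz.1.2 (mem_closedBall_self hε.le)
    rw [h2, circ_scale] at h1
    have h3 := (mul_eq_zero.1 h1).resolve_left hεc
    have h4 : ∮ z in C(0, 1), exp (1 / (ε : ℂ) ^ 2 * (ε * z) ^ 2 + -a * ε ^ 2 *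
        (S / (ε * z) ^ 2 + E (ε * z) / (ε * z))) * (ε * z) =
        ∮ z in C(0, 1), ε * (g z * exp (-a * ε * E (ε * z) / z) * z) := by
      refine circleIntegral.integral_congr zero_le_one fun z hz => ?_
      have hz0 := hne z hz
      rw [hg]
      simp only
      rw [← exp_add]
      have h5 : 1 / (ε : ℂ) ^ 2 * (ε * z) ^ 2 + -a * ε ^ 2 *
        (S / (ε * z) ^ 2 + E (ε * z) / (ε * z)) = z ^ 2 + γ / z ^ 2 + -a * ε * E (ε * z) / z := by
        rw [hγ]
        field_simp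
        ring
      rw [h5]
      ring
    rw [h4, circleIntegral.integral_const_mul] at h3
    exact (mul_eq_zero.1 h3).resolve_left hεc
  -- bounds
  obtain ⟨C1, hC1, T1⟩ := Pool.Agent.Y219.SC.taylor2 E 0 δ hδ hE
  simp only [zero_add] at T1
  have hgc : ContinuousOn g (sphere 0 1) := by
    rw [hg]
    intro z hz
    have h1 : z ^ 2 ≠ 0 := pow_ne_zero 2 (hne z hz)
    apply ContinuousAt.continuousWithinAt
    fun_prop (disch := assumption)
  obtain ⟨G0, hG0⟩ := (isCompact_sphere (0 : ℂ) 1).exists_bound_of_continuousOn hgc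
  obtain ⟨e0, he0⟩ : ∃ e0, e0 = E 0 := ⟨_, rfl⟩
  obtain ⟨e1, he1⟩ : ∃ e1, e1 = deriv E 0 := ⟨_, rfl⟩
  rw [← he0] at hE0
  have hG0' : 0 ≤ G0 := (norm_nonneg _).trans (hG0 1 (by simp))
  -- the three integrals
  obtain ⟨I0, hI0⟩ : ∃ I0, I0 = ∮ z in C(0, 1), g z * z := ⟨_, rfl⟩
  obtain ⟨J2, hJ2⟩ : ∃ J2, J2 = ∮ z in C(0, 1), g z / z := ⟨_, rfl⟩
  have hJ1 : ∮ z in C(0, 1), g z = 0 := by
    rw [hg]
    exact circ_even (fun t => exp (t + γ / t))
  have key : ∃ C ε1 : ℝ, 0 < ε1 ∧ ∀ ε : ℝ, 0 < ε → ε < ε1 →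
      ‖(1 + (ε : ℂ) ^ 2 * (-a * e1)) * I0 + (ε : ℂ) ^ 2 * (a ^ 2 * e0 ^ 2 / 2 * J2)‖ ≤
        C * ε ^ 3 := by
    obtain ⟨K, hK⟩ : ∃ K : ℝ, K = a * (‖e0‖ + ‖e1‖ + C1 + 1) := ⟨_, rfl⟩
    have hK0 : 0 < K := by rw [hK]; positivity
    obtain ⟨Cq, hCq⟩ : ∃ Cq : ℝ, Cq = a * C1 + K ^ 3 + K * K := ⟨_, rfl⟩
    refine ⟨2 * Real.pi * 1 * (G0 * Cq), min (min ρ (δ / 2)) (min 1 (1 / K)), by positivity,
      fun ε hε hεm => ?_⟩
    have h1 : ε < ρ := hεm.trans_le ((min_le_left _ _).trans (min_le_left _ _))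
    have h2 : ε < δ / 2 := hεm.trans_le ((min_le_left _ _).trans (min_le_right _ _))
    have h3 : ε < 1 := hεm.trans_le ((min_le_right _ _).trans (min_le_left _ _))
    have h4 : ε < 1 / K := hεm.trans_le ((min_le_right _ _).trans (min_le_right _ _))
    have h4' : K * ε ≤ 1 := by
      rw [lt_div_iff₀ hK0] at h4
      linarith
    have h0 := hres ε hε h1
    -- the expansion
    have hexp : ∀ z ∈ sphere (0 : ℂ) 1, ‖exp (-a * ε * E (ε * z) / z) -
        (1 + (-a * ε * e0 / z - a * ε ^ 2 * e1) + (a * ε * e0 / z) ^ 2 / 2)‖ ≤ Cq * ε ^ 3 := by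
      intro z hz
      have hz1 : ‖z‖ = 1 := mem_sphere_zero_iff_norm.1 hz
      have hz0 := hne z hz
      obtain ⟨d, hd⟩ : ∃ d, d = E (ε * z) - e0 - ε * z * e1 := ⟨_, rfl⟩
      have hεz : ‖(ε : ℂ) * z‖ = ε := by
        rw [norm_mul, hz1, mul_one, norm_real, Real.norm_of_nonneg hε.le]
      have hdn : ‖d‖ ≤ C1 * ε ^ 2 := by
        have := T1 (ε * z) 0 (by rw [hεz]; exact h2.le) (by simp; positivity)
        rw [hd, he0, he1]
        rw [sub_zero, hεz] at this
        exact this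
      obtain ⟨u, hu⟩ : ∃ u, u = -a * ε * E (ε * z) / z := ⟨_, rfl⟩
      obtain ⟨q, hq⟩ : ∃ q, q = -a * ε * e0 / z := ⟨_, rfl⟩
      have hEd : E (ε * z) = e0 + ε * z * e1 + d := by rw [hd]; ring
      have hup : u - (-a * ε * e0 / z - a * ε ^ 2 * e1) = -a * ε * d / z := by
        rw [hu, hEd]
        field_simp
        ring
      have hna : ‖(a : ℂ)‖ = a := by rw [norm_real, Real.norm_of_nonneg ha.le]
      have hnε : ‖(ε : ℂ)‖ = ε := by rw [norm_real, Real.norm_of_nonneg hε.le]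
      have hupn : ‖u - (-a * ε * e0 / z - a * ε ^ 2 * e1)‖ ≤ a * C1 * ε ^ 3 := by
        rw [hup, norm_div, hz1, div_one, norm_mul, norm_mul, norm_neg, hna, hnε]
        calc a * ε * ‖d‖ ≤ a * ε * (C1 * ε ^ 2) :=
              mul_le_mul_of_nonneg_left hdn (by positivity)
          _ = a * C1 * ε ^ 3 := by ring
      have hεε : ε ^ 2 ≤ ε := by nlinarith
      have hun : ‖u‖ ≤ K * ε := by
        rw [hu, hEd, norm_div, hz1, div_one, norm_mul, norm_mul, norm_neg, hna, hnε, hK]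
        have h5 : ‖e0 + ε * z * e1 + d‖ ≤ ‖e0‖ + ‖e1‖ + C1 := by
          have h6 : ‖(ε : ℂ) * z * e1‖ ≤ ‖e1‖ := by
            rw [norm_mul, hεz]
            nlinarith [norm_nonneg e1]
          have h7 : ‖d‖ ≤ C1 := hdn.trans (by nlinarith)
          linarith [norm_add_le (e0 + ε * z * e1) d, norm_add_le e0 ((ε : ℂ) * z * e1)]
        calc a * ε * ‖e0 + ε * z * e1 + d‖ ≤ a * ε * (‖e0‖ + ‖e1‖ + C1 + 1) :=
              mul_le_mul_of_nonneg_left (by linarith) (by positivity)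
          _ = _ := by ring
      have hqn : ‖q‖ ≤ K * ε := by
        rw [hq, norm_div, hz1, div_one, norm_mul, norm_mul, norm_neg, hna, hnε, hK]
        calc a * ε * ‖e0‖ ≤ a * ε * (‖e0‖ + ‖e1‖ + C1 + 1) := by
              refine mul_le_mul_of_nonneg_left ?_ (by positivity)
              linarith [norm_nonneg e1]
          _ = _ := by ring
      have huq : ‖u - q‖ ≤ K * ε ^ 2 := by
        have h5 : u - q = (u - (-a * ε * e0 / z - a * ε ^ 2 * e1)) - a * ε ^ 2 * e1 := by
          rw [hq]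
          ring
        rw [h5]
        have h6 : ‖(a : ℂ) * ε ^ 2 * e1‖ = a * ε ^ 2 * ‖e1‖ := by
          rw [norm_mul, norm_mul, norm_pow, hna, hnε]
        have h7 : a * C1 * ε ^ 3 ≤ a * C1 * ε ^ 2 := by
          have : ε ^ 3 ≤ ε ^ 2 := by nlinarith [sq_nonneg ε]
          exact mul_le_mul_of_nonneg_left this (by positivity)
        have h8 := norm_sub_le (u - (-a * ε * e0 / z - a * ε ^ 2 * e1)) (a * ε ^ 2 * e1)
        rw [h6] at h8
        rw [hK]
        have h9 : 0 ≤ a * ε ^ 2 * (‖e0‖ + 1) := by positivity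
        nlinarith
      have h5 := Complex.exp_bound (x := u) (hun.trans h4') (n := 3) (by norm_num)
      have h6 : ‖exp u - (1 + u + u ^ 2 / 2)‖ ≤ ‖u‖ ^ 3 := by
        simp only [Finset.sum_range_succ, Finset.sum_range_zero, pow_zero, Nat.factorial, pow_one,
          Nat.cast_one, div_one, zero_add, Nat.succ_eq_add_one] at h5
        norm_num at h5
        have h8 : (0 : ℝ) ≤ ‖u‖ ^ 3 := by positivity
        calc _ ≤ _ := h5
          _ ≤ ‖u‖ ^ 3 := by nlinarith
      have h7 : ‖u‖ ^ 3 ≤ K ^ 3 * ε ^ 3 := by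
        rw [← mul_pow]
        exact pow_le_pow_left₀ (norm_nonneg _) hun 3
      have h8 : ‖u ^ 2 / 2 - (a * ε * e0 / z) ^ 2 / 2‖ ≤ K * K * ε ^ 3 := by
        have h9 : u ^ 2 / 2 - (a * ε * e0 / z) ^ 2 / 2 = (u - q) * (u + q) / 2 := by
          rw [hq]
          ring
        rw [h9, norm_div, norm_mul]
        have h10 : ‖u + q‖ ≤ 2 * (K * ε) := by linarith [norm_add_le u q]
        have h11 : ‖(2 : ℂ)‖ = 2 := by norm_num
        rw [h11]
        calc ‖u - q‖ * ‖u + q‖ / 2 ≤ K * ε ^ 2 * (2 * (K * ε)) / 2 := by gcongr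
          _ = _ := by ring
      rw [← hu]
      have h9 : exp u - (1 + (-a * ε * e0 / z - a * ε ^ 2 * e1) + (a * ε * e0 / z) ^ 2 / 2) =
          (exp u - (1 + u + u ^ 2 / 2)) + (u - (-a * ε * e0 / z - a * ε ^ 2 * e1)) +
            (u ^ 2 / 2 - (a * ε * e0 / z) ^ 2 / 2) := by ring
      rw [h9, hCq]
      refine (norm_add_le _ _).trans ?_
      have h10 := norm_add_le (exp u - (1 + u + u ^ 2 / 2))
        (u - (-a * ε * e0 / z - a * ε ^ 2 * e1))
      have : (a * C1 + K ^ 3 + K * K) * ε ^ 3 = a * C1 * ε ^ 3 + K ^ 3 * ε ^ 3 + K * K * ε ^ 3 := by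
        ring
      rw [this]
      linarith
    -- the difference of the integrals
    have hfc : ∀ c1 c2 c3 : ℂ, CircleIntegrable (fun z => c1 * (g z * z) + c2 * g z +
        c3 * (g z / z)) 0 1 := by
      intro c1 c2 c3
      refine ContinuousOn.circleIntegrable zero_le_one ?_
      exact ((continuousOn_const.mul (hgc.mul continuousOn_id)).add
        (continuousOn_const.mul hgc)).add (continuousOn_const.mul (hgc.div continuousOn_id hne))
    have hEc : ContinuousOn (fun z : ℂ => E (ε * z)) (sphere 0 1) := by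
      refine hE.continuousOn.comp (by fun_prop) fun z hz => ?_
      rw [mem_ball_zero_iff, norm_mul, mem_sphere_zero_iff_norm.1 hz, mul_one, norm_real,
        Real.norm_of_nonneg hε.le]
      linarith
    have hi1 : CircleIntegrable (fun z => g z * exp (-a * ε * E (ε * z) / z) * z) 0 1 := by
      refine ContinuousOn.circleIntegrable zero_le_one ?_
      refine (hgc.mul (ContinuousOn.cexp ?_)).mul continuousOn_id
      exact (continuousOn_const.mul hEc).div continuousOn_id hne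
    have hval : (1 + (ε : ℂ) ^ 2 * (-a * e1)) * I0 + (ε : ℂ) ^ 2 * (a ^ 2 * e0 ^ 2 / 2 * J2) =
        ∮ z in C(0, 1), ((1 - a * ε ^ 2 * e1) * (g z * z) + (-a * ε * e0) * g z +
          (a ^ 2 * ε ^ 2 * e0 ^ 2 / 2) * (g z / z)) := by
      have hs1 : CircleIntegrable (fun z => (1 - a * ε ^ 2 * e1) * (g z * z)) 0 1 :=
        (continuousOn_const.mul (hgc.mul continuousOn_id)).circleIntegrable zero_le_one
      have hs2 : CircleIntegrable (fun z => (-a * ε * e0) * g z) 0 1 :=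
        (continuousOn_const.mul hgc).circleIntegrable zero_le_one
      have hs3 : CircleIntegrable (fun z => (a ^ 2 * ε ^ 2 * e0 ^ 2 / 2) * (g z / z)) 0 1 :=
        (continuousOn_const.mul (hgc.div continuousOn_id hne)).circleIntegrable zero_le_one
      rw [circleIntegral.integral_add (f := fun z => (1 - a * ε ^ 2 * e1) * (g z * z) +
        (-a * ε * e0) * g z) (hs1.add hs2) hs3, circleIntegral.integral_add hs1 hs2,
        circleIntegral.integral_const_mul, circleIntegral.integral_const_mul,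
        circleIntegral.integral_const_mul, hJ1, ← hI0, ← hJ2]
      ring
    have hval2 := circleIntegral.integral_sub (hfc (1 - a * ε ^ 2 * e1) (-a * ε * e0)
      (a ^ 2 * ε ^ 2 * e0 ^ 2 / 2)) hi1
    rw [h0, sub_zero] at hval2
    rw [hval, ← hval2]
    have h5 := circleIntegral.norm_integral_le_of_norm_le_const (c := (0 : ℂ)) (R := 1)
      (C := G0 * (Cq * ε ^ 3)) (f := fun z => ((1 - a * ε ^ 2 * e1) * (g z * z) +
      (-a * ε * e0) * g z + (a ^ 2 * ε ^ 2 * e0 ^ 2 / 2) * (g z / z)) -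
      g z * exp (-a * ε * E (ε * z) / z) * z) zero_le_one (by
        intro z hz
        have hz1 : ‖z‖ = 1 := mem_sphere_zero_iff_norm.1 hz
        have hz0 := hne z hz
        have h6 : ((1 - a * ε ^ 2 * e1) * (g z * z) +
            (-a * ε * e0) * g z + (a ^ 2 * ε ^ 2 * e0 ^ 2 / 2) * (g z / z)) -
            g z * exp (-a * ε * E (ε * z) / z) * z = -(g z * (exp (-a * ε * E (ε * z) / z) -
            (1 + (-a * ε * e0 / z - a * ε ^ 2 * e1) + (a * ε * e0 / z) ^ 2 / 2)) * z) := by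
          field_simp
          ring
        rw [h6, norm_neg, norm_mul, hz1, mul_one, norm_mul]
        exact mul_le_mul (hG0 z hz) (hexp z hz) (norm_nonneg _) hG0')
    refine h5.trans (le_of_eq ?_)
    ring
  obtain ⟨C, ε1, hε1, hkey⟩ := key
  obtain ⟨hA, hB⟩ := two_terms hε1 hkey
  have hJ : J2 = 0 := by
    refine (mul_eq_zero.1 hB).resolve_left ?_
    exact div_ne_zero (mul_ne_zero (pow_ne_zero 2 ha') (pow_ne_zero 2 hE0)) two_ne_zero
  -- the model integrals
  have hc : ContinuousOn (fun z : ℂ => exp (z + γ / z)) (sphere 0 1) := by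
    intro z hz
    have := hne z hz
    apply ContinuousAt.continuousWithinAt
    fun_prop (disch := assumption)
  refine model_int hγ0 ?_ ?_
  · rw [← circ_sq _ hc]
    rw [hA, hg] at hI0
    exact hI0.symm
  · rw [← circ_sq (fun z => exp (z + γ / z) / z) (hc.div continuousOn_id hne)]
    rw [hJ, hg] at hJ2
    have hJ3 : (∮ z in C(0, 1), exp (z ^ 2 + γ / z ^ 2) / z ^ 2 * z) =
        ∮ z in C(0, 1), exp (z ^ 2 + γ / z ^ 2) / z := by
      refine circleIntegral.integral_congr zero_le_one fun z hz => ?_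
      have hz0 := hne z hz
      field_simp
    exact hJ3.trans hJ2.symm

end Pool.Agent.E8helper4.AB
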