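import Pool.Agent.Y508.UC.Res

/-!
# AB: loop integrals (adaptation of `Pool.Agent.Y508.UC.Res`; the map need not be injective)
-/

set_option autoImplicit false

open Complex MeasureTheory Metric Set Filter Topology ComplexConjugate
open Pool.Agent.Y245.SC Pool.Agent.Y245.UC
open Pool.Agent.Y448.SC (cc cd cc_deriv cd_diff cc_per cd_per UU uu_open uu_convex uu_real cc_norm
  cc_mem)
open Pool.Agent.Y508.UC

namespace Pool.Agent.E8helper4.AB

/-- the loop integrals vanish -/
theorem ures2 (hK : S_KAP) (hSeg : S_SEG) (hPar : S_PAR) (φ X : ℂ → ℂ) (a ρ : ℝ) (b P u : ℂ)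
    (ha : 0 < a) (hρ : 0 < ρ) (hφ : DifferentiableOn ℂ φ (ball 0 1))
    (hne0 : ∀ᶠ x : ℝ in 𝓝[≠] 0, φ (cc P (ρ / 2) (x : ℂ)) ≠ φ (cc P (ρ / 2) ((0 : ℝ) : ℂ)))
    (hB : ball P ρ ⊆ ball 0 1) (hX : DifferentiableOn ℂ X (ball P ρ \ {P}))
    (hu' : u ∈ ball P ρ \ {P}) (hVG : VG a φ b u X) (z0 : ℂ) :
    ∮ v in C(P, ρ / 2), (X v - b) ^ 2 * kap a ((X v - b) * (φ v - z0)) * deriv φ v = 0 := by
  have hkap := (hK a ha.le).1
  obtain ⟨H, hHd, hHe⟩ := hVG
  obtain ⟨R, hR⟩ : ∃ R : ℝ, R = ρ / 2 := ⟨_, rfl⟩
  have hR0 : 0 < R := by rw [hR]; positivity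
  obtain ⟨su, hsu, hsue⟩ := exists_cc hρ hu'
  rw [← hR] at hsue hne0 ⊢
  have hcm : ∀ s ∈ UU, cc P R s ∈ ball P ρ \ {P} := fun s hs => by
    rw [hR]
    exact cc_mem P hρ hs
  have hcb : ∀ s ∈ UU, cc P R s ∈ ball (0 : ℂ) 1 := fun s hs => hB (hcm s hs).1
  have hcc : ∀ s, DifferentiableAt ℂ (cc P R) s := fun s => (cc_deriv P R s).differentiableAt
  have hXo : IsOpen (ball P ρ \ {P}) := isOpen_ball.sdiff isClosed_singleton
  have hXd : ∀ s ∈ UU, DifferentiableAt ℂ X (cc P R s) := fun s hs =>
    hX.differentiableAt (hXo.mem_nhds (hcm s hs))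
  have hXc : ∀ s ∈ UU, DifferentiableAt ℂ (fun s => X (cc P R s)) s := fun s hs =>
    DifferentiableAt.comp s (hXd s hs) (hcc s)
  have hψ : ∀ s ∈ UU, DifferentiableAt ℂ (fun s => φ (cc P R s)) s := by
    intro s hs
    have h1 : DifferentiableAt ℂ φ (cc P R s) :=
      hφ.differentiableAt (isOpen_ball.mem_nhds (hcb s hs))
    exact DifferentiableAt.comp (f := fun s => cc P R s) s h1 (hcc s)
  have hHc : ∀ s ∈ UU, DifferentiableAt ℂ (fun s => H (cc P R s)) s := by
    intro s hs
    have h1 : DifferentiableAt ℂ H (cc P R s) :=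
      hHd.differentiableAt (isOpen_ball.mem_nhds (hcb s hs))
    exact DifferentiableAt.comp (f := fun s => cc P R s) s h1 (hcc s)
  have hseg : ∀ s ∈ UU, ∀ t ∈ Icc (0 : ℝ) 1, su + t * (s - su) ∈ UU := by
    intro s hs t ht
    have h1 := uu_convex hsu hs (sub_nonneg.2 ht.2) ht.1 (by ring)
    convert h1 using 1
    simp only [real_smul]
    push_cast
    ring
  -- the kernel along the circle is holomorphic
  have hhd : ∀ z : ℂ, DifferentiableOn ℂ (hu a φ X b P R z) UU := by
    intro z t ht
    have h1 : DifferentiableAt ℂ (fun q : ℂ × ℂ × ℂ => ku a φ q.1 q.2.1 q.2.2)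
        (cc P R t, z, X (cc P R t) - b) :=
      ku_diff hkap hφ (p := (cc P R t, z, X (cc P R t) - b)) (hcb t ht)
    have h2 : DifferentiableAt ℂ (fun t => (cc P R t, z, X (cc P R t) - b)) t :=
      (hcc t).prodMk ((differentiableAt_const z).prodMk ((hXc t ht).sub_const b))
    exact ((DifferentiableAt.comp (f := fun t => (cc P R t, z, X (cc P R t) - b)) t h1 h2).mul
      (cd_diff R t)).differentiableWithinAt
  -- the function which vanishes
  obtain ⟨A, hA⟩ : ∃ A : ℂ → ℂ, A = fun s => X (cc P R s) - b - H (cc P R s) -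
      seg (hu a φ X b P R (φ (cc P R s))) su s := ⟨_, rfl⟩
  have hAd : DifferentiableOn ℂ A UU := by
    rw [hA]
    refine DifferentiableOn.sub (DifferentiableOn.sub
      (DifferentiableOn.sub (fun s hs => (hXc s hs).differentiableWithinAt)
        (differentiableOn_const b)) (fun s hs => (hHc s hs).differentiableWithinAt)) ?_
    unfold seg hu
    have := par_ku hPar hkap hφ uu_open (fun s t => cc P R (su + t * (s - su)))
      (fun s t => X (cc P R (su + t * (s - su))) - b)
      (fun s t => cd R (su + t * (s - su)) * (s - su))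
      (fun s => φ (cc P R s))
      (fun s hs t ht => hcb _ (hseg s hs t ht)) hψ ?_ ?_ ?_ ?_ ?_ ?_
    · simp only [← mul_assoc] at this
      exact this
    · intro s hs t ht
      have h2 : ContinuousAt (fun x : ℂ × ℝ => su + x.2 * (x.1 - su)) (s, t) := by
        fun_prop
      exact ContinuousAt.comp (f := fun x : ℂ × ℝ => su + x.2 * (x.1 - su))
        (x := (s, t)) (hcc _).continuousAt h2
    · intro s hs t ht
      have h2 : ContinuousAt (fun x : ℂ × ℝ => su + x.2 * (x.1 - su)) (s, t) := by
        fun_prop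
      exact (ContinuousAt.comp (f := fun x : ℂ × ℝ => su + x.2 * (x.1 - su))
        (x := (s, t)) (g := fun s => X (cc P R s)) (hXc _ (hseg s hs t ht)).continuousAt h2).sub
        continuousAt_const
    · intro s hs t ht
      have h2 : ContinuousAt (fun x : ℂ × ℝ => su + x.2 * (x.1 - su)) (s, t) := by
        fun_prop
      exact (ContinuousAt.comp (f := fun x : ℂ × ℝ => su + x.2 * (x.1 - su))
        (x := (s, t)) (g := cd R) (cd_diff R _).continuousAt h2).mul
        (continuousAt_fst.sub continuousAt_const)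
    · intro s hs t ht
      exact DifferentiableAt.comp (f := fun s : ℂ => su + t * (s - su)) s (hcc _)
        (by fun_prop)
    · intro s hs t ht
      exact (DifferentiableAt.comp (f := fun s : ℂ => su + t * (s - su))
        (g := fun s => X (cc P R s)) s (hXc _ (hseg s hs t ht)) (by fun_prop)).sub_const b
    · intro s hs t ht
      exact (DifferentiableAt.comp (f := fun s : ℂ => su + t * (s - su))
        (g := cd R) s (cd_diff R _) (by fun_prop)).mul (by fun_prop)
  -- it vanishes near `su`
  obtain ⟨δ, hδ0, hδ⟩ := Metric.isOpen_iff.1 hXo u hu'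
  have hcont : Tendsto (cc P R) (𝓝 su) (𝓝 u) := by
    have := (hcc su).continuousAt.tendsto
    rwa [hsue] at this
  have hAnear : ∀ᶠ s in 𝓝 su, A s = 0 := by
    have h1 : ∀ᶠ s in 𝓝 su, s ∈ UU ∧ cc P R s ∈ ball u δ :=
      Filter.Eventually.and (uu_open.mem_nhds hsu) (hcont (ball_mem_nhds u hδ0))
    obtain ⟨η, hη0, hη⟩ := Metric.eventually_nhds_iff_ball.1 h1
    filter_upwards [ball_mem_nhds su hη0, hcont.eventually hHe] with s hs hsV
    have hpt : ∀ t ∈ Icc (0 : ℝ) 1, su + t * (s - su) ∈ ball su η := by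
      intro t ht
      have h2 := (convex_ball su η) (mem_ball_self hη0) hs (sub_nonneg.2 ht.2) ht.1 (by ring)
      convert h2 using 1
      simp only [real_smul]
      push_cast
      ring
    obtain ⟨g, hg⟩ : ∃ g : ℂ → ℂ, g = fun v => ku a φ v (φ (cc P R s)) (X v - b) := ⟨_, rfl⟩
    have hgd : DifferentiableOn ℂ g (ball u δ) := by
      rw [hg]
      intro v hv
      have hv' := hδ hv
      have h1 : DifferentiableAt ℂ (fun q : ℂ × ℂ × ℂ => ku a φ q.1 q.2.1 q.2.2)
          (v, φ (cc P R s), X v - b) :=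
        ku_diff hkap hφ (p := (v, φ (cc P R s), X v - b)) (hB hv'.1)
      have h2 : DifferentiableAt ℂ (fun v => (v, φ (cc P R s), X v - b)) v :=
        differentiableAt_id.prodMk ((differentiableAt_const _).prodMk
          ((hX.differentiableAt (hXo.mem_nhds hv')).sub_const b))
      exact (DifferentiableAt.comp (f := fun v => (v, φ (cc P R s), X v - b)) v
        h1 h2).differentiableWithinAt
    have hder := (hSeg (ball u δ) g isOpen_ball (convex_ball u δ) hgd).2 u (mem_ball_self hδ0)
    have hS : ∀ t ∈ Icc (0 : ℝ) 1, cc P R (su + t * (s - su)) ∈ ball u δ :=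
      fun t ht => (hη _ (hpt t ht)).2
    have hftc : ∫ t in (0 : ℝ)..1, g (cc P R (su + t * (s - su))) *
        (cd R (su + t * (s - su)) * (s - su)) =
        seg g u (cc P R (su + ((1 : ℝ) : ℂ) * (s - su))) -
          seg g u (cc P R (su + ((0 : ℝ) : ℂ) * (s - su))) := by
      refine intervalIntegral.integral_eq_sub_of_hasDerivAt
        (f := fun t : ℝ => seg g u (cc P R (su + t * (s - su))))
        (f' := fun t : ℝ => g (cc P R (su + t * (s - su))) *
          (cd R (su + t * (s - su)) * (s - su))) ?_ ?_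
      · intro t ht
        rw [uIcc_of_le zero_le_one] at ht
        have h1 := hder _ (hS t ht)
        have h2 : HasDerivAt (fun τ : ℂ => cc P R (su + τ * (s - su)))
            (cd R (su + t * (s - su)) * (s - su)) (t : ℂ) := by
          have h3 : HasDerivAt (fun τ : ℂ => su + τ * (s - su)) (s - su) (t : ℂ) := by
            simpa using ((hasDerivAt_id (t : ℂ)).mul_const (s - su)).const_add su
          exact HasDerivAt.comp (h₂ := cc P R) (h := fun τ : ℂ => su + τ * (s - su)) (t : ℂ)
            (cc_deriv P R (su + t * (s - su))) h3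
        have h4 := HasDerivAt.comp (t : ℂ) h1 h2
        exact h4.comp_ofReal
      · apply ContinuousOn.intervalIntegrable
        rw [uIcc_of_le zero_le_one]
        intro t ht
        have h1 : ContinuousAt g (cc P R (su + t * (s - su))) :=
          (hgd.differentiableAt (isOpen_ball.mem_nhds (hS t ht))).continuousAt
        have h2 : ContinuousAt (fun t : ℝ => cc P R (su + t * (s - su))) t :=
          ContinuousAt.comp (f := fun t : ℝ => su + (t : ℂ) * (s - su)) (hcc _).continuousAt
            (by fun_prop)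
        have h3 : ContinuousAt (fun t : ℝ => cd R (su + t * (s - su))) t :=
          ContinuousAt.comp (f := fun t : ℝ => su + (t : ℂ) * (s - su))
            (cd_diff R _).continuousAt (by fun_prop)
        exact ((ContinuousAt.comp (f := fun t : ℝ => cc P R (su + t * (s - su))) h1 h2).mul
          (h3.mul continuousAt_const)).continuousWithinAt
    have hseg2 : seg (hu a φ X b P R (φ (cc P R s))) su s =
        ∫ t in (0 : ℝ)..1, g (cc P R (su + t * (s - su))) *
          (cd R (su + t * (s - su)) * (s - su)) := by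
      unfold seg
      refine intervalIntegral.integral_congr fun t _ => ?_
      rw [hg]
      unfold hu
      ring
    have e1 : su + ((1 : ℝ) : ℂ) * (s - su) = s := by
      rw [ofReal_one]
      ring
    have e0 : su + ((0 : ℝ) : ℂ) * (s - su) = su := by
      rw [ofReal_zero]
      ring
    rw [e1, e0, hsue] at hftc
    have hz : seg g u u = 0 := by
      unfold seg
      simp
    have hV2 : (fun v => kerU a φ v (cc P R s) (X v - b)) = g := by
      rw [hg]
      rfl
    rw [hV2] at hsV
    rw [hA]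
    simp only
    rw [hseg2, hftc, hz, hsV]
    ring
  -- identity theorem
  have hA0 : EqOn A 0 UU := by
    have han : AnalyticOnNhd ℂ A UU := hAd.analyticOnNhd uu_open
    exact han.eqOn_zero_of_preconnected_of_eventuallyEq_zero uu_convex.isPreconnected hsu hAnear
  -- the loop integrals vanish
  obtain ⟨N, hN⟩ : ∃ N : ℂ → ℂ, N = fun z => ∫ θ in (0 : ℝ)..2 * Real.pi, hu a φ X b P R z θ :=
    ⟨_, rfl⟩
  have hN0 : ∀ s : ℝ, N (φ (cc P R s)) = 0 := by
    intro s
    have hs := uu_real s
    have hs2 : (s : ℂ) + 2 * Real.pi ∈ UU := by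
      have := uu_real (s + 2 * Real.pi)
      push_cast at this
      exact this
    have h1 := hA0 hs
    have h2 := hA0 hs2
    rw [hA] at h1 h2
    simp only [Pi.zero_apply, cc_per] at h1 h2
    have h3 := (hSeg UU _ uu_open uu_convex (hhd (φ (cc P R s)))).1 su hsu _ hs _ hs2
    have h4 : seg (hu a φ X b P R (φ (cc P R s))) s ((s : ℂ) + 2 * Real.pi) = 0 := by
      linear_combination h3 - h2 + h1
    rw [seg_circle'] at h4
    rw [hN]
    exact h4
  have hNd : Differentiable ℂ N := by
    have e : N = fun z => (2 * Real.pi : ℂ) * ∫ t in (0 : ℝ)..1,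
        ku a φ (cc P R ((2 * Real.pi * t : ℝ) : ℂ)) z (X (cc P R ((2 * Real.pi * t : ℝ) : ℂ)) - b) *
          cd R ((2 * Real.pi * t : ℝ) : ℂ) := by
      rw [hN]
      funext z
      have e2 := intervalIntegral.integral_comp_mul_left (a := 0) (b := 1)
        (fun θ : ℝ => hu a φ X b P R z (θ : ℂ)) (c := 2 * Real.pi) (by positivity)
      rw [mul_zero, mul_one] at e2
      have e3 : ∫ t in (0 : ℝ)..1, ku a φ (cc P R ((2 * Real.pi * t : ℝ) : ℂ)) z
          (X (cc P R ((2 * Real.pi * t : ℝ) : ℂ)) - b) * cd R ((2 * Real.pi * t : ℝ) : ℂ) =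
          ∫ t in (0 : ℝ)..1, hu a φ X b P R z ((2 * Real.pi * t : ℝ) : ℂ) := rfl
      rw [e3, e2, real_smul]
      push_cast
      have hpi : (2 * Real.pi : ℂ) ≠ 0 := by
        have : (Real.pi : ℂ) ≠ 0 := by exact_mod_cast Real.pi_ne_zero
        simp [this]
      rw [← mul_assoc, mul_inv_cancel₀ hpi, one_mul]
    rw [e]
    refine Differentiable.const_mul ?_ _
    rw [← differentiableOn_univ]
    refine par_ku hPar hkap hφ isOpen_univ (fun _ t => cc P R ((2 * Real.pi * t : ℝ) : ℂ))
      (fun _ t => X (cc P R ((2 * Real.pi * t : ℝ) : ℂ)) - b)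
      (fun _ t => cd R ((2 * Real.pi * t : ℝ) : ℂ)) (fun z => z)
      (fun s _ t _ => hcb _ (uu_real _)) (fun s _ => differentiableAt_id)
      ?_ ?_ ?_ ?_ ?_ ?_
    · intro s _ t _
      have h2 : ContinuousAt (fun x : ℂ × ℝ => ((2 * Real.pi * x.2 : ℝ) : ℂ)) (s, t) := by
        fun_prop
      exact ContinuousAt.comp (f := fun x : ℂ × ℝ => ((2 * Real.pi * x.2 : ℝ) : ℂ))
        (x := (s, t)) (hcc _).continuousAt h2
    · intro s _ t _
      have h2 : ContinuousAt (fun x : ℂ × ℝ => ((2 * Real.pi * x.2 : ℝ) : ℂ)) (s, t) := by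
        fun_prop
      exact (ContinuousAt.comp (f := fun x : ℂ × ℝ => ((2 * Real.pi * x.2 : ℝ) : ℂ))
        (x := (s, t)) (g := fun s => X (cc P R s)) (hXc _ (uu_real _)).continuousAt h2).sub
        continuousAt_const
    · intro s _ t _
      have h2 : ContinuousAt (fun x : ℂ × ℝ => ((2 * Real.pi * x.2 : ℝ) : ℂ)) (s, t) := by
        fun_prop
      exact ContinuousAt.comp (f := fun x : ℂ × ℝ => ((2 * Real.pi * x.2 : ℝ) : ℂ))
        (x := (s, t)) (g := cd R) (cd_diff R _).continuousAt h2
    · intro s _ t _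
      exact differentiableAt_const _
    · intro s _ t _
      exact differentiableAt_const _
    · intro s _ t _
      exact differentiableAt_const _
  have hNz : N = 0 := by
    have han : AnalyticOnNhd ℂ N univ := (hNd.differentiableOn).analyticOnNhd isOpen_univ
    have h1 : EqOn N 0 univ := by
      refine han.eqOn_zero_of_preconnected_of_frequently_eq_zero isPreconnected_univ
        (mem_univ (φ (cc P R ((0 : ℝ) : ℂ)))) ?_
      have hcont0 : ContinuousAt (fun x : ℝ => φ (cc P R (x : ℂ))) 0 :=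
        ContinuousAt.comp (f := fun x : ℝ => (x : ℂ)) (g := fun s => φ (cc P R s))
          (hψ _ (uu_real 0)).continuousAt continuous_ofReal.continuousAt
      have hne : ∀ᶠ x : ℝ in 𝓝[≠] 0, φ (cc P R (x : ℂ)) ≠ φ (cc P R ((0 : ℝ) : ℂ)) := hne0
      have h1 : Tendsto (fun x : ℝ => φ (cc P R (x : ℂ))) (𝓝[≠] 0)
          (𝓝[≠] (φ (cc P R ((0 : ℝ) : ℂ)))) := by
        rw [tendsto_nhdsWithin_iff]
        exact ⟨hcont0.tendsto.mono_left nhdsWithin_le_nhds, hne⟩
      refine h1.frequently ?_
      apply Filter.Eventually.frequently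
      exact Filter.Eventually.of_forall fun x => hN0 x
    funext z
    exact h1 (mem_univ z)
  rw [circle_eq']
  have := congrFun hNz z0
  rw [hN] at this
  exact this

end Pool.Agent.E8helper4.AB
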