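import Pool.Agent.E8helper4.AB.Pull
import Pool.Agent.E8helper4.AB.Res2
import Pool.Agent.E8helper4.AB.Dbl
import Pool.Agent.Results.MP_83fd13_an.BranchSingularities

/-!
# AB: the loop integrals on coverings vanish
-/

set_option autoImplicit false

open Complex MeasureTheory Metric Set Filter Topology ComplexConjugate
open Pool.Agent.Results.MP_83fd13_an.BranchSingularities (Solvable)
open Pool.Agent.Y245.SC Pool.Agent.Y245.UC
open Pool.Agent.Y448.SC (cc cc_norm)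

namespace Pool.Agent.E8helper4.AB

/-- the Volterra equation in the annulus -/
theorem vg_ann (Φ : ℂ → ℂ) (r R lam : ℝ) (hr : 1 < r) (hrR : r ≤ R)
    (hΦ : DifferentiableOn ℂ Φ (ball 0 R)) (hinj : InjOn Φ (ball 0 r)) (hlam : 0 < lam)
    (hS : Solvable (Φ '' ball 0 1) lam) (v : ℂ) (hv1 : R⁻¹ < ‖v‖) (hv2 : ‖v‖ < 1) (b : ℂ) :
    VG (lam / 4) Φ b v (Rf Φ) := by
  obtain ⟨c, u, G, hu, hG, h1, h2, hu0⟩ := hS
  have hSol : Pool.Agent.TH298.Sch.Sol (Φ '' ball 0 1) lam c u G := ⟨hu, hG, h1, h2⟩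
  have hΦr := hΦ.mono (ball_subset_ball hrR)
  have hcont : ContinuousOn Φ (closedBall 0 1) :=
    (hΦr.continuousOn).mono (closedBall_subset_ball hr)
  have hb' : Bornology.IsBounded (Φ '' ball 0 1) :=
    ((isCompact_closedBall (0 : ℂ) 1).image_of_continuousOn hcont).isBounded.subset
      (image_mono ball_subset_closedBall)
  have hm' : MeasurableSet (Φ '' ball 0 1) :=
    (isOpen_ball.measurableSet).image_of_continuousOn_injOn
      (hcont.mono ball_subset_closedBall) (hinj.mono (ball_subset_ball hr.le))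
  have hc : c ≠ 0 := hSol.c_ne hb' hm' hlam hu0
  obtain ⟨G', hG', hV⟩ := voltB_of_sol Φ r R lam c u G hr hrR hΦ hinj hlam hc hSol b
  have hR : 1 < R := by linarith
  have hexp : Real.exp (Real.log R) = R := Real.exp_log (by linarith)
  refine Pool.Agent.Y987.UC.ustart t_KAP t_SEG t_PAR Φ G' (lam / 4) (Real.log R) b _
    (by positivity) (Real.log_pos hR) (by rw [hexp]; exact hΦ) hG' hV ?_ hv2
  rw [Real.exp_neg, hexp]
  exact hv1

/-- the loop integrals on a covering vanish -/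
theorem loopq {a : ℝ} (ha : 0 < a) {φ F : ℂ → ℂ} (hφ : DifferentiableOn ℂ φ (ball 0 1))
    {Ψ : ℂ → ℂ} {ζ : ℂ} {δ : ℝ} (hδ : 0 < δ) (hδ1 : δ ≤ 1)
    (hΨ : DifferentiableOn ℂ Ψ (ball 0 δ)) (hΨm : ∀ Z ∈ ball (0 : ℂ) δ, Ψ Z ∈ ball (0 : ℂ) 1)
    (hΨφ : ∀ Z ∈ ball (0 : ℂ) δ, φ (Ψ Z) = ζ + Z) (q : ℕ) (hq : 1 ≤ q) {G : ℂ → ℂ}
    (hG : DifferentiableOn ℂ G (ball 0 δ \ {0})) {σ0 : ℂ} (hσ0 : σ0 ∈ ball (0 : ℂ) δ \ {0})
    (hFd : ∀ᶠ v in 𝓝 (Ψ (σ0 ^ q)), DifferentiableAt ℂ F v)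
    (hF : ∀ᶠ σ in 𝓝 σ0, F (Ψ (σ ^ q)) = G σ) (hVG : ∀ b, VG a φ b (Ψ (σ0 ^ q)) F) :
    ∀ α β : ℂ, α * β = -(a : ℂ) →
      ∮ z in C(0, δ / 2), exp (α * z ^ q + β * G z) * z ^ (q - 1) = 0 := by
  have hδc : (δ : ℂ) ≠ 0 := by exact_mod_cast hδ.ne'
  have hqc : (q : ℂ) ≠ 0 := by exact_mod_cast (by omega : q ≠ 0)
  have hmem : ∀ ξ ∈ ball (0 : ℂ) 1, (δ : ℂ) * ξ ∈ ball (0 : ℂ) δ := by
    intro ξ hξ
    rw [mem_ball_zero_iff] at hξ ⊢
    rw [norm_mul, norm_real, Real.norm_of_nonneg hδ.le]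
    nlinarith
  have hpow : ∀ z ∈ ball (0 : ℂ) δ, z ^ q ∈ ball (0 : ℂ) δ := by
    intro z hz
    rw [mem_ball_zero_iff] at hz ⊢
    rw [norm_pow]
    have h1 : ‖z‖ ^ q ≤ ‖z‖ ^ 1 := pow_le_pow_of_le_one (norm_nonneg _) (hz.le.trans hδ1) hq
    rw [pow_one] at h1
    linarith
  obtain ⟨κ, hκ⟩ : ∃ κ : ℂ → ℂ, κ = fun ξ => Ψ ((δ * ξ) ^ q) := ⟨_, rfl⟩
  have hκd : DifferentiableOn ℂ κ (ball 0 1) := by
    rw [hκ]
    exact hΨ.comp (by fun_prop) fun ξ hξ => hpow _ (hmem ξ hξ)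
  have hκm : ∀ ξ ∈ ball (0 : ℂ) 1, κ ξ ∈ ball (0 : ℂ) 1 := fun ξ hξ => by
    rw [hκ]
    exact hΨm _ (hpow _ (hmem ξ hξ))
  have hφκ : ∀ ξ ∈ ball (0 : ℂ) 1, φ (κ ξ) = ζ + (δ * ξ) ^ q := fun ξ hξ => by
    rw [hκ]
    exact hΨφ _ (hpow _ (hmem ξ hξ))
  obtain ⟨ξ0, hξ0⟩ : ∃ ξ0 : ℂ, ξ0 = σ0 / δ := ⟨_, rfl⟩
  have hδξ : (δ : ℂ) * ξ0 = σ0 := by
    rw [hξ0]
    field_simp
  have hξ0m : ξ0 ∈ ball (0 : ℂ) 1 := by
    rw [hξ0, mem_ball_zero_iff, norm_div, norm_real, Real.norm_of_nonneg hδ.le, div_lt_one hδ]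
    exact mem_ball_zero_iff.1 hσ0.1
  have hξ00 : ξ0 ≠ 0 := by
    rintro rfl
    rw [mul_zero] at hδξ
    exact hσ0.2 hδξ.symm
  have hκ0 : κ ξ0 = Ψ (σ0 ^ q) := by
    rw [hκ]
    simp only
    rw [hδξ]
  obtain ⟨X, hX⟩ : ∃ X : ℂ → ℂ, X = fun ξ => G (δ * ξ) := ⟨_, rfl⟩
  have hXd : DifferentiableOn ℂ X (ball 0 1 \ {0}) := by
    rw [hX]
    refine hG.comp (by fun_prop) ?_
    rintro ξ ⟨h1, h2⟩
    exact ⟨hmem ξ h1, mul_ne_zero hδc h2⟩
  have hVGX : ∀ b, VG a (fun ξ => φ (κ ξ)) b ξ0 X := by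
    intro b
    have h1 := pull t_KAP t_SEG (F := F) ha (b := b) hφ hκd hκm hξ0m
      (by rw [hκ0]; exact hFd) (by rw [hκ0]; exact hVG b)
    have h2 := (Pool.Agent.Y641.UC.uconn Pool.Agent.Y845.UC.ustep t_KAP t_SEG t_PAR
      (fun ξ => φ (κ ξ)) a b ha (hφ.comp hκd hκm)).2
    refine h2 (fun ξ => F (κ ξ)) X ξ0 ?_ h1
    have h3 : Tendsto (fun ξ : ℂ => (δ : ℂ) * ξ) (𝓝 ξ0) (𝓝 σ0) := by
      have : ContinuousAt (fun ξ : ℂ => (δ : ℂ) * ξ) ξ0 := by fun_prop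
      have h4 := this.tendsto
      rwa [hδξ] at h4
    filter_upwards [h3.eventually hF] with ξ hξ
    rw [hκ, hX]
    exact hξ
  have hder : ∀ ξ ∈ ball (0 : ℂ) 1, deriv (fun ξ => φ (κ ξ)) ξ =
      (q * δ) * (δ * ξ) ^ (q - 1) := by
    intro ξ hξ
    have h1 : (fun ξ => φ (κ ξ)) =ᶠ[𝓝 ξ] fun ξ => ζ + (δ * ξ) ^ q := by
      filter_upwards [isOpen_ball.mem_nhds hξ] with x hx
      exact hφκ x hx
    rw [h1.deriv_eq]
    have h2 : HasDerivAt (fun ξ : ℂ => (δ : ℂ) * ξ) δ ξ := by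
      simpa using (hasDerivAt_id ξ).const_mul (δ : ℂ)
    have h3 := (h2.pow q).const_add ζ
    have h4 := h3.deriv
    simp only [Pi.pow_apply] at h4
    rw [h4]
    ring
  have hhalf : (1 : ℝ) / 2 < 1 := by norm_num
  have hsph : ∀ ξ ∈ sphere (0 : ℂ) (1 / 2), ξ ∈ ball (0 : ℂ) 1 \ {0} := by
    intro ξ hξ
    rw [mem_sphere_zero_iff_norm] at hξ
    refine ⟨by rw [mem_ball_zero_iff, hξ]; norm_num, ?_⟩
    rintro rfl
    rw [norm_zero] at hξ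
    norm_num at hξ
  have hne0 : ∀ᶠ x : ℝ in 𝓝[≠] 0, φ (κ (cc 0 (1 / 2) (x : ℂ))) ≠
      φ (κ (cc 0 (1 / 2) ((0 : ℝ) : ℂ))) := by
    have hccm : ∀ x : ℝ, cc 0 (1 / 2) (x : ℂ) ∈ ball (0 : ℂ) 1 := by
      intro x
      unfold cc
      rw [mem_ball_zero_iff, zero_add, norm_mul, norm_exp_ofReal_mul_I]
      simp
      norm_num
    have h2 : ∀ᶠ x : ℝ in 𝓝[≠] 0, |x| < 1 / q := by
      apply Filter.Eventually.filter_mono nhdsWithin_le_nhds
      have h3 : Tendsto (fun x : ℝ => |x|) (𝓝 0) (𝓝 0) := by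
        have := continuous_abs.tendsto (0 : ℝ)
        rwa [abs_zero] at this
      have hq0 : (0 : ℝ) < 1 / q := by
        have : (0 : ℝ) < q := by exact_mod_cast (by omega : 0 < q)
        positivity
      exact h3.eventually (gt_mem_nhds hq0)
    filter_upwards [h2, self_mem_nhdsWithin] with x hx1 hx0 heq
    rw [hφκ _ (hccm x), hφκ _ (hccm 0)] at heq
    have h4 := add_left_cancel heq
    rw [mul_pow, mul_pow] at h4
    have h5 := mul_left_cancel₀ (pow_ne_zero q hδc) h4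
    unfold cc at h5
    rw [zero_add, zero_add, mul_pow, mul_pow] at h5
    have h6 := mul_left_cancel₀ (pow_ne_zero q (by norm_num : ((1 / 2 : ℝ) : ℂ) ≠ 0)) h5
    rw [ofReal_zero, zero_mul, exp_zero, one_pow, ← exp_nat_mul, exp_eq_one_iff] at h6
    obtain ⟨m, hm⟩ := h6
    have h13 : (q : ℝ) * x = m * (2 * Real.pi) := by
      have h14 : (q : ℂ) * x = m * (2 * Real.pi) := by
        have hI : (I : ℂ) ≠ 0 := I_ne_zero
        apply mul_right_cancel₀ hI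
        linear_combination hm
      exact_mod_cast h14
    have hq0 : (0 : ℝ) < q := by exact_mod_cast (by omega : 0 < q)
    have hm0 : m = 0 := by
      by_contra hm0
      have h8 : (1 : ℝ) ≤ |(m : ℝ)| := by
        have : 1 ≤ |m| := Int.one_le_abs hm0
        exact_mod_cast this
      have h9 := Real.pi_gt_three
      have h10 : |(q : ℝ) * x| < 1 := by
        rw [abs_mul, abs_of_pos hq0]
        rw [lt_div_iff₀ hq0] at hx1
        linarith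
      rw [h13, abs_mul, abs_of_pos (by positivity : (0 : ℝ) < 2 * Real.pi)] at h10
      nlinarith
    rw [hm0] at h13
    have : x = 0 := by
      have h15 : (q : ℝ) * x = 0 := by simpa using h13
      exact (mul_eq_zero.1 h15).resolve_left hq0.ne'
    exact hx0 this
  have hsub : sphere (0 : ℂ) (1 / 2) ⊆ ball 0 1 \ {0} := hsph
  have hφκd : DifferentiableOn ℂ (fun ξ => φ (κ ξ)) (ball 0 1) := hφ.comp hκd hκm
  intro α β hαβ
  have hexpo := Pool.Agent.Y953.SC.gen t_KAP a 0 (1 / 2) X (fun ξ => φ (κ ξ))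
    (deriv fun ξ => φ (κ ξ)) ha (by norm_num) (hXd.continuousOn.mono hsub)
    (hφκd.continuousOn.mono (hsub.trans sdiff_subset))
    ((hφκd.deriv isOpen_ball).continuousOn.mono (hsub.trans sdiff_subset)) (by
      intro b z0
      exact ures2 t_KAP t_SEG t_PAR (fun ξ => φ (κ ξ)) X a 1 b 0 ξ0 ha one_pos hφκd hne0
        Subset.rfl hXd ⟨hξ0m, hξ00⟩ (hVGX b) z0) α β hαβ
  have h1 : (∮ ξ in C(0, 1 / 2), exp (α * φ (κ ξ) + β * X ξ) * deriv (fun ξ => φ (κ ξ)) ξ) =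
      ∮ ξ in C(0, 1 / 2), (exp (α * ζ) * (q * δ)) *
        ((fun z => exp (α * z ^ q + β * G z) * z ^ (q - 1)) (δ * ξ)) := by
    refine circleIntegral.integral_congr (by norm_num) fun ξ hξ => ?_
    have h2 := (hsph ξ hξ).1
    simp only
    rw [hder ξ h2, hφκ ξ h2, hX, mul_add, add_assoc, exp_add]
    ring
  rw [h1, circleIntegral.integral_const_mul] at hexpo
  have h2 := (mul_eq_zero.1 hexpo).resolve_left
    (mul_ne_zero (exp_ne_zero _) (mul_ne_zero hqc hδc))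
  rw [circ_scale] at h2 ⊢
  have h3 := (mul_eq_zero.1 h2).resolve_left (by norm_num)
  have h4 : ∀ z : ℂ, (δ : ℂ) * (((1 / 2 : ℝ) : ℂ) * z) = ((δ / 2 : ℝ) : ℂ) * z := by
    intro z
    push_cast
    ring
  simp only [h4] at h3
  rw [h3, mul_zero]

end Pool.Agent.E8helper4.AB
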