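import Mathlib

/-!
# AB: a function which extends locally across every circle is entire
-/

set_option autoImplicit false

open Complex Metric Set Filter Topology

namespace Pool.Agent.E8helper4.AB

/-- `E` near the boundary point `w1` of `|w| < R` extends `Φ` -/
def LocExt (Φ : ℂ → ℂ) (R : ℝ) (w1 : ℂ) : Prop :=
  ∃ (ε : ℝ) (E : ℂ → ℂ), 0 < ε ∧ DifferentiableOn ℂ E (ball w1 ε) ∧
    ∀ w ∈ ball w1 ε, ‖w‖ < R → E w = Φ w

/-- points of the ball near a boundary point -/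
theorem exists_near {R : ℝ} {w1 : ℂ} {ε : ℝ} (hR : 0 < R) (hw : ‖w1‖ ≤ R) (hε : 0 < ε) :
    ∃ q : ℂ, q ∈ ball w1 ε ∧ ‖q‖ < R := by
  have h1 : w1 ∈ closure (ball (0 : ℂ) R) := by
    rw [closure_ball _ hR.ne', mem_closedBall_zero_iff]
    exact hw
  obtain ⟨q, hq⟩ := mem_closure_iff_nhds.1 h1 (ball w1 ε) (ball_mem_nhds w1 hε)
  exact ⟨q, hq.1, mem_ball_zero_iff.1 hq.2⟩

/-- two extensions agree -/
theorem agree {Φ E1 E2 : ℂ → ℂ} {R : ℝ} {w1 w2 : ℂ} {δ : ℝ}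
    (hR : 0 < R) (h1 : DifferentiableOn ℂ E1 (ball w1 δ)) (h2 : DifferentiableOn ℂ E2 (ball w2 δ))
    (e1 : ∀ w ∈ ball w1 δ, ‖w‖ < R → E1 w = Φ w) (e2 : ∀ w ∈ ball w2 δ, ‖w‖ < R → E2 w = Φ w)
    (hw1 : ‖w1‖ ≤ R) (h12 : w1 ∈ ball w2 δ) (hδ : 0 < δ) :
    ∀ w ∈ ball w1 δ ∩ ball w2 δ, E1 w = E2 w := by
  have hopen : IsOpen (ball w1 δ ∩ ball w2 δ) := isOpen_ball.inter isOpen_ball
  have hconv : IsPreconnected (ball w1 δ ∩ ball w2 δ) :=
    ((convex_ball w1 δ).inter (convex_ball w2 δ)).isPreconnected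
  have hw1m : w1 ∈ ball w1 δ ∩ ball w2 δ := ⟨mem_ball_self hδ, h12⟩
  obtain ⟨η, hη, hηs⟩ := Metric.isOpen_iff.1 hopen w1 hw1m
  obtain ⟨q, hq1, hq2⟩ := exists_near hR hw1 hη
  have hq := hηs hq1
  have hEq : EqOn E1 E2 (ball w1 δ ∩ ball w2 δ) := by
    refine AnalyticOnNhd.eqOn_of_preconnected_of_eventuallyEq
      ((h1.mono inter_subset_left).analyticOnNhd hopen)
      ((h2.mono inter_subset_right).analyticOnNhd hopen) hconv hq ?_
    have hb : IsOpen (ball (0 : ℂ) R) := isOpen_ball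
    filter_upwards [hopen.mem_nhds hq, hb.mem_nhds (mem_ball_zero_iff.2 hq2)] with w hw hwR
    rw [mem_ball_zero_iff] at hwR
    rw [e1 w hw.1 hwR, e2 w hw.2 hwR]
  exact hEq

/-- extension to a larger disc -/
theorem extend {Φ : ℂ → ℂ} {R : ℝ} (hR : 0 < R) (hΦ : DifferentiableOn ℂ Φ (ball 0 R))
    (hloc : ∀ w1 ∈ sphere (0 : ℂ) R, LocExt Φ R w1) :
    ∃ (R' : ℝ) (Ψ : ℂ → ℂ), R < R' ∧ DifferentiableOn ℂ Ψ (ball 0 R') ∧ EqOn Ψ Φ (ball 0 R) := by
  classical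
  choose! ε E hε hE hEΦ using hloc
  obtain ⟨δ, hδ, hleb⟩ := lebesgue_number_lemma_of_metric (isCompact_sphere (0 : ℂ) R)
    (c := fun w : sphere (0 : ℂ) R => ball (w : ℂ) (ε w)) (fun w => isOpen_ball)
    (fun w hw => mem_iUnion.2 ⟨⟨w, hw⟩, mem_ball_self (hε w hw)⟩)
  -- uniform extensions
  have hunif : ∀ w ∈ sphere (0 : ℂ) R, ∃ F : ℂ → ℂ, DifferentiableOn ℂ F (ball w δ) ∧
      ∀ z ∈ ball w δ, ‖z‖ < R → F z = Φ z := by
    intro w hw
    obtain ⟨w', hw'⟩ := hleb w hw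
    exact ⟨E w', (hE w' w'.2).mono hw', fun z hz hzR => hEΦ w' w'.2 z (hw' hz) hzR⟩
  choose! F hF hFΦ using hunif
  obtain ⟨p, hp⟩ : ∃ p : ℂ → ℂ, p = fun z => ((R / ‖z‖ : ℝ) : ℂ) * z := ⟨_, rfl⟩
  have hpn : ∀ z : ℂ, z ≠ 0 → p z ∈ sphere (0 : ℂ) R := by
    intro z hz
    have hz' : 0 < ‖z‖ := norm_pos_iff.2 hz
    rw [hp, mem_sphere_zero_iff_norm, norm_mul, Complex.norm_real, Real.norm_of_nonneg (by positivity),
      div_mul_cancel₀ _ hz'.ne']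
  have hpd : ∀ z : ℂ, z ≠ 0 → ‖z - p z‖ = |‖z‖ - R| := by
    intro z hz
    have hz' : 0 < ‖z‖ := norm_pos_iff.2 hz
    have : z - p z = ((1 - R / ‖z‖ : ℝ) : ℂ) * z := by
      rw [hp]
      push_cast
      ring
    rw [this, norm_mul, Complex.norm_real, Real.norm_eq_abs]
    rw [← abs_of_pos hz', ← abs_mul, abs_of_pos hz', sub_mul, one_mul, div_mul_cancel₀ _ hz'.ne']
  obtain ⟨Ψ, hΨ⟩ : ∃ Ψ : ℂ → ℂ, Ψ = fun z => if ‖z‖ < R then Φ z else F (p z) z := ⟨_, rfl⟩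
  refine ⟨R + δ / 2, Ψ, by linarith, ?_, ?_⟩
  · intro z hz
    rw [mem_ball_zero_iff] at hz
    apply DifferentiableAt.differentiableWithinAt
    by_cases hzR : ‖z‖ < R
    · have h1 : DifferentiableAt ℂ Φ z :=
        hΦ.differentiableAt (isOpen_ball.mem_nhds (mem_ball_zero_iff.2 hzR))
      refine h1.congr_of_eventuallyEq ?_
      have hb : IsOpen (ball (0 : ℂ) R) := isOpen_ball
      filter_upwards [hb.mem_nhds (mem_ball_zero_iff.2 hzR)] with y hy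
      rw [mem_ball_zero_iff] at hy
      rw [hΨ]
      exact if_pos hy
    · push Not at hzR
      have hz0 : z ≠ 0 := by
        rintro rfl
        rw [norm_zero] at hzR
        linarith
      have hpz := hpn z hz0
      have hzp : z ∈ ball (p z) δ := by
        rw [mem_ball_iff_norm, hpd z hz0, abs_of_nonneg (by linarith)]
        linarith
      have h1 : DifferentiableAt ℂ (F (p z)) z :=
        (hF _ hpz).differentiableAt (isOpen_ball.mem_nhds hzp)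
      refine h1.congr_of_eventuallyEq ?_
      have hpc : ContinuousAt p z := by
        rw [hp]
        have : ContinuousAt (fun z : ℂ => ((R / ‖z‖ : ℝ) : ℂ)) z :=
          Complex.continuous_ofReal.continuousAt.comp
            (continuousAt_const.div continuous_norm.continuousAt (norm_ne_zero_iff.2 hz0))
        exact this.mul continuousAt_id
      have e1 : ∀ᶠ y in 𝓝 z, p y ∈ ball (p z) δ := hpc (ball_mem_nhds _ hδ)
      have e2 : ∀ᶠ y in 𝓝 z, y ∈ ball (p z) δ := isOpen_ball.mem_nhds hzp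
      have e3 : ∀ᶠ y in 𝓝 z, y ∈ ball (0 : ℂ) (R + δ / 2) :=
        isOpen_ball.mem_nhds (mem_ball_zero_iff.2 hz)
      have e4 : ∀ᶠ y in 𝓝 z, y ≠ 0 := isOpen_ne.mem_nhds hz0
      filter_upwards [e1, e2, e3, e4] with y h1 h2 h3 h4
      rw [hΨ]
      by_cases hy : ‖y‖ < R
      · simp only [if_pos hy]
        exact (hFΦ _ hpz y h2 hy).symm
      · simp only [if_neg hy]
        push Not at hy
        rw [mem_ball_zero_iff] at h3
        have hpy := hpn y h4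
        have hyp : y ∈ ball (p y) δ := by
          rw [mem_ball_iff_norm, hpd y h4, abs_of_nonneg (by linarith)]
          linarith
        exact agree hR (hF _ hpy) (hF _ hpz) (hFΦ _ hpy) (hFΦ _ hpz)
          (mem_sphere_zero_iff_norm.1 hpy).le h1 hδ y ⟨hyp, h2⟩
  · intro z hz
    rw [mem_ball_zero_iff] at hz
    rw [hΨ]
    exact if_pos hz

/-- a function that extends across all circles is entire -/
theorem glob (φ : ℂ → ℂ) (r : ℝ) (hr : 0 < r) (hφ : DifferentiableOn ℂ φ (ball 0 r))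
    (hloc : ∀ (R : ℝ) (Φ : ℂ → ℂ), r ≤ R → DifferentiableOn ℂ Φ (ball 0 R) →
      EqOn Φ φ (ball 0 r) → ∀ w1 ∈ sphere (0 : ℂ) R, LocExt Φ R w1) :
    ∃ Φ : ℂ → ℂ, Differentiable ℂ Φ ∧ EqOn Φ φ (ball 0 r) := by
  by_contra hcon
  -- the set of radii
  obtain ⟨S, hS⟩ : ∃ S : Set ℝ, S = {R | r ≤ R ∧ ∃ Φ : ℂ → ℂ, DifferentiableOn ℂ Φ (ball 0 R) ∧
      EqOn Φ φ (ball 0 r)} := ⟨_, rfl⟩
  have huniq : ∀ (R1 R2 : ℝ) (Φ1 Φ2 : ℂ → ℂ), r ≤ R1 → R1 ≤ R2 →
      DifferentiableOn ℂ Φ1 (ball 0 R1) → DifferentiableOn ℂ Φ2 (ball 0 R2) →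
      EqOn Φ1 φ (ball 0 r) → EqOn Φ2 φ (ball 0 r) → EqOn Φ1 Φ2 (ball 0 R1) := by
    intro R1 R2 Φ1 Φ2 h1 h12 hd1 hd2 he1 he2
    refine AnalyticOnNhd.eqOn_of_preconnected_of_eventuallyEq (hd1.analyticOnNhd isOpen_ball)
      ((hd2.mono (ball_subset_ball h12)).analyticOnNhd isOpen_ball)
      (convex_ball _ _).isPreconnected (z₀ := 0) (mem_ball_self (by linarith)) ?_
    filter_upwards [ball_mem_nhds (0 : ℂ) hr] with w hw
    rw [he1 hw, he2 hw]
  choose! f hf using (fun (R : ℝ) (h : R ∈ S) => by rw [hS] at h; exact h.2 :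
    ∀ R, R ∈ S → ∃ Φ : ℂ → ℂ, DifferentiableOn ℂ Φ (ball 0 R) ∧ EqOn Φ φ (ball 0 r))
  have hrS : ∀ R ∈ S, r ≤ R := fun R h => by rw [hS] at h; exact h.1
  have hmemr : r ∈ S := by
    rw [hS]
    exact ⟨le_rfl, φ, hφ, fun _ _ => rfl⟩
  -- gluing over a family of radii
  have hglue : ∀ T : ℝ → Prop, (∀ z : ℂ, T ‖z‖ → ∃ R ∈ S, ‖z‖ < R) → IsOpen {z : ℂ | T ‖z‖} →
      (∀ z ∈ ball (0 : ℂ) r, T ‖z‖) →
      ∃ Φ : ℂ → ℂ, DifferentiableOn ℂ Φ {z : ℂ | T ‖z‖} ∧ EqOn Φ φ (ball 0 r) := by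
    intro T hT hTo hTr
    choose! ρ hρS hρ using hT
    refine ⟨fun z => f (ρ z) z, ?_, ?_⟩
    · intro z hz
      apply DifferentiableAt.differentiableWithinAt
      have h1 : DifferentiableAt ℂ (f (ρ z)) z := (hf _ (hρS z hz)).1.differentiableAt
        (isOpen_ball.mem_nhds (mem_ball_zero_iff.2 (hρ z hz)))
      refine h1.congr_of_eventuallyEq ?_
      have hb : IsOpen (ball (0 : ℂ) (ρ z)) := isOpen_ball
      filter_upwards [hTo.mem_nhds hz, hb.mem_nhds (mem_ball_zero_iff.2 (hρ z hz))] with y hy hy2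
      rw [mem_ball_zero_iff] at hy2
      rcases le_total (ρ y) (ρ z) with h | h
      · exact huniq _ _ _ _ (hrS _ (hρS y hy)) h (hf _ (hρS y hy)).1 (hf _ (hρS z hz)).1
          (hf _ (hρS y hy)).2 (hf _ (hρS z hz)).2 (mem_ball_zero_iff.2 (hρ y hy))
      · exact (huniq _ _ _ _ (hrS _ (hρS z hz)) h (hf _ (hρS z hz)).1 (hf _ (hρS y hy)).1
          (hf _ (hρS z hz)).2 (hf _ (hρS y hy)).2 (mem_ball_zero_iff.2 hy2)).symm
    · intro z hz
      exact (hf _ (hρS z (hTr z hz))).2 hz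
  by_cases hb : BddAbove S
  · -- bounded: glue up to the supremum and extend
    obtain ⟨R, hR⟩ : ∃ R : ℝ, R = sSup S := ⟨_, rfl⟩
    have hrR : r ≤ R := by
      rw [hR]
      exact le_csSup hb hmemr
    obtain ⟨Φ, hΦ, hΦφ⟩ := hglue (fun x => x < R) (fun z hz => by
      rw [hR] at hz
      obtain ⟨x, hx, hzx⟩ := exists_lt_of_lt_csSup ⟨r, hmemr⟩ hz
      exact ⟨x, hx, hzx⟩) (isOpen_lt continuous_norm continuous_const) (fun z hz => by
      rw [mem_ball_zero_iff] at hz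
      linarith)
    have hset : {z : ℂ | ‖z‖ < R} = ball 0 R := by
      ext z
      rw [mem_ball_zero_iff]
      exact Iff.rfl
    rw [hset] at hΦ
    obtain ⟨R', Ψ, hRR', hΨ, hΨΦ⟩ := extend (by linarith) hΦ (hloc R Φ hrR hΦ hΦφ)
    have hmem : R' ∈ S := by
      rw [hS]
      refine ⟨by linarith, Ψ, hΨ, fun z hz => ?_⟩
      rw [hΨΦ (ball_subset_ball hrR hz), hΦφ hz]
    have := le_csSup hb hmem
    rw [← hR] at this
    linarith
  · apply hcon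
    obtain ⟨Φ, hΦ, hΦφ⟩ := hglue (fun _ => True) (fun z _ => by
      rw [bddAbove_def] at hb
      push Not at hb
      exact hb ‖z‖) (by simp) (fun z _ => trivial)
    refine ⟨Φ, ?_, hΦφ⟩
    intro z
    exact (hΦ z trivial).differentiableAt (by simp)

end Pool.Agent.E8helper4.AB
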