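import Pool.Agent.Results.MP_83fd13_an.BranchSingularities
import Pool.Agent.E8helper4.AB.Glob

/-!
# AB: local extension across a circle, from the theorem on the singularities of the branches
-/

set_option autoImplicit false

open Complex Metric Set Filter Topology ComplexConjugate
open Pool.Agent.Results.MP_83fd13_an.BranchSingularities

namespace Pool.Agent.E8helper4.AB

/-- a disc that touches the circle `|w| = R` from inside -/
theorem tang {r R : ℝ} {w1 : ℂ} (hr : 1 < r) (hrR : r ≤ R) (hw1 : ‖w1‖ = R) :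
    ∃ (c : ℂ) (ρ : ℝ), 0 < ρ ∧ (∀ w ∈ closedBall c ρ, 1 < ‖w‖) ∧ ball c ρ ⊆ ball 0 R ∧
      w1 ∈ sphere c ρ ∧ ∃ z ∈ ball c ρ, 1 < ‖z‖ ∧ ‖z‖ < r := by
  obtain ⟨δ, hδ⟩ : ∃ δ : ℝ, δ = (r - 1) / 2 := ⟨_, rfl⟩
  have hδ0 : 0 < δ := by rw [hδ]; linarith
  have hR : 0 < R := by linarith
  have hr2 : r = 1 + 2 * δ := by rw [hδ]; ring
  have hsc : ∀ x y : ℝ, ‖((x / R : ℝ) : ℂ) * w1 - ((y / R : ℝ) : ℂ) * w1‖ = |x - y| := by
    intro x y
    have : ((x / R : ℝ) : ℂ) * w1 - ((y / R : ℝ) : ℂ) * w1 = (((x - y) / R : ℝ) : ℂ) * w1 := by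
      push_cast
      ring
    rw [this, norm_mul, Complex.norm_real, Real.norm_eq_abs, hw1, abs_div, abs_of_pos hR,
      div_mul_cancel₀ _ hR.ne']
  have hsn : ∀ x : ℝ, 0 ≤ x → ‖((x / R : ℝ) : ℂ) * w1‖ = x := by
    intro x hx
    rw [norm_mul, Complex.norm_real, Real.norm_of_nonneg (by positivity), hw1,
      div_mul_cancel₀ _ hR.ne']
  obtain ⟨c, hc⟩ : ∃ c : ℂ, c = ((((1 + δ + R) / 2) / R : ℝ) : ℂ) * w1 := ⟨_, rfl⟩
  have hcn : ‖c‖ = (1 + δ + R) / 2 := by rw [hc]; exact hsn _ (by positivity)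
  have hw1e : w1 = ((R / R : ℝ) : ℂ) * w1 := by
    rw [div_self hR.ne']
    simp
  refine ⟨c, (R - 1 - δ) / 2, by linarith, ?_, ?_, ?_, ((((1 + 3 * δ / 2)) / R : ℝ) : ℂ) * w1,
    ?_, ?_, ?_⟩
  · intro w hw
    rw [mem_closedBall_iff_norm] at hw
    have h1 : ‖c‖ ≤ ‖w‖ + ‖w - c‖ := by
      have : c = w - (w - c) := by ring
      calc ‖c‖ = ‖w - (w - c)‖ := by rw [← this]
        _ ≤ _ := norm_sub_le _ _
    linarith
  · intro w hw
    rw [mem_ball_iff_norm] at hw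
    rw [mem_ball_zero_iff]
    have h1 : ‖w‖ ≤ ‖w - c‖ + ‖c‖ := by
      have := norm_add_le (w - c) c
      rwa [sub_add_cancel] at this
    linarith
  · rw [mem_sphere_iff_norm]
    have h2 := hsc R ((1 + δ + R) / 2)
    rw [← hw1e, ← hc] at h2
    rw [h2, abs_of_nonneg (by linarith)]
    ring
  · rw [mem_ball_iff_norm]
    rw [hc, hsc, abs_of_nonpos (by linarith)]
    linarith
  · rw [hsn _ (by positivity)]
    linarith
  · rw [hsn _ (by positivity)]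
    linarith

/-- small growth at a boundary point -/
theorem ext_small {φ : ℂ → ℂ} {r lam R : ℝ} {w1 : ℂ} (hr : 1 < r) (hrR : r ≤ R) (hlam : 0 < lam)
    (hφ : DifferentiableOn ℂ φ (ball 0 R)) (hBB : BranchesBlowUp φ r lam) (hw1 : ‖w1‖ = R)
    (hgr : ∀ η : ℝ, 0 < η → ∃ δ : ℝ, 0 < δ ∧ ∀ w : ℂ, ‖w‖ < R → ‖w - w1‖ < δ →
      ‖w - w1‖ * ‖φ w‖ ≤ η) : LocExt φ R w1 := by
  obtain ⟨c, ρ, hρ, hc1, hcR, hw1c, z, hz, hz1, hzr⟩ := tang hr hrR hw1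
  have hR : 0 < R := by linarith
  obtain ⟨η, hη⟩ : ∃ η : ℝ, η = 1 / (1 + lam * ‖deriv φ (1 / conj w1)‖) := ⟨_, rfl⟩
  have hD : 0 ≤ lam * ‖deriv φ (1 / conj w1)‖ := by positivity
  have hη0 : 0 < η := by rw [hη]; positivity
  have hη1 : lam * ‖deriv φ (1 / conj w1)‖ * η < 3 * ‖w1‖ ^ 2 := by
    have h1 : lam * ‖deriv φ (1 / conj w1)‖ * η < 1 := by
      rw [hη, mul_one_div, div_lt_one (by linarith)]
      linarith
    have h2 : 1 < ‖w1‖ := by rw [hw1]; linarith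
    nlinarith
  obtain ⟨δ, hδ, hgr⟩ := hgr η hη0
  obtain ⟨ε, E, hε, hE, hEφ⟩ := hBB c ρ φ w1 η δ hρ hc1 (hφ.mono hcR)
    ⟨z, hz, Branch.base z hz1 hzr⟩ hw1c hδ hη1 (by
      intro w hw hwδ
      have hwR := mem_ball_zero_iff.1 (hcR hw)
      refine le_trans (mul_le_mul_of_nonneg_right ?_ (norm_nonneg _)) (hgr w hwR hwδ)
      rw [mem_sphere_iff_norm] at hw1c
      have h1 : ‖w1 - c‖ ≤ ‖w - w1‖ + ‖w - c‖ := by
        have : w1 - c = (w - c) - (w - w1) := by ring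
        rw [this]
        linarith [norm_sub_le (w - c) (w - w1)]
      linarith)
  refine ⟨ε, E, hε, hE, ?_⟩
  have hopen : IsOpen (ball w1 ε ∩ ball 0 R) := isOpen_ball.inter isOpen_ball
  have hconv : IsPreconnected (ball w1 ε ∩ ball (0 : ℂ) R) :=
    ((convex_ball w1 ε).inter (convex_ball _ _)).isPreconnected
  obtain ⟨q, hq1, hq2⟩ : ∃ q : ℂ, q ∈ ball w1 ε ∧ q ∈ ball c ρ := by
    have h1 : w1 ∈ closure (ball c ρ) := by
      rw [closure_ball _ hρ.ne']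
      exact sphere_subset_closedBall hw1c
    obtain ⟨q, hq⟩ := mem_closure_iff_nhds.1 h1 (ball w1 ε) (ball_mem_nhds w1 hε)
    exact ⟨q, hq.1, hq.2⟩
  have hEq : EqOn E φ (ball w1 ε ∩ ball 0 R) := by
    refine AnalyticOnNhd.eqOn_of_preconnected_of_eventuallyEq
      ((hE.mono inter_subset_left).analyticOnNhd hopen)
      ((hφ.mono inter_subset_right).analyticOnNhd hopen) hconv ⟨hq1, hcR hq2⟩ ?_
    filter_upwards [(isOpen_ball.inter isOpen_ball).mem_nhds ⟨hq1, hq2⟩] with w hw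
    exact hEφ w hw
  exact fun w hw hwR => hEq ⟨hw, mem_ball_zero_iff.2 hwR⟩

/-- isolated singularities -/
theorem ext_iso {φ : ℂ → ℂ} {r R : ℝ} {w1 : ℂ} (hr : 1 < r) (hrR : r ≤ R)
    (hφ : DifferentiableOn ℂ φ (ball 0 R)) (hNI : NoFiniteIsolatedSingularity φ r)
    (hw1 : ‖w1‖ = R) (ε0 : ℝ) (hε0 : 0 < ε0) (ψ : ℂ → ℂ)
    (hψ : DifferentiableOn ℂ ψ (ball w1 ε0 \ {w1}))
    (hψφ : ∀ w ∈ ball w1 ε0, ‖w‖ < R → ψ w = φ w) : LocExt φ R w1 := by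
  obtain ⟨c, ρ, hρ, hc1, hcR, hw1c, z, hz, hz1, hzr⟩ := tang hr hrR hw1
  have hR : 0 < R := by linarith
  obtain ⟨ε, hε⟩ : ∃ ε : ℝ, ε = min ε0 ((R - 1) / 2) := ⟨_, rfl⟩
  have hε1 : 0 < ε := by rw [hε]; exact lt_min hε0 (by linarith)
  have hεε : ε ≤ ε0 := by rw [hε]; exact min_le_left _ _
  have hεR : ε ≤ (R - 1) / 2 := by rw [hε]; exact min_le_right _ _
  have hb1 : ∀ w ∈ ball w1 ε, 1 < ‖w‖ := by
    intro w hw
    rw [mem_ball_iff_norm] at hw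
    have h1 : ‖w1‖ ≤ ‖w‖ + ‖w - w1‖ := by
      have : w1 = w - (w - w1) := by ring
      calc ‖w1‖ = ‖w - (w - w1)‖ := by rw [← this]
        _ ≤ _ := norm_sub_le _ _
    linarith
  obtain ⟨q, hq1, hq2⟩ : ∃ q : ℂ, q ∈ ball w1 ε ∧ q ∈ ball c ρ := by
    have h1 : w1 ∈ closure (ball c ρ) := by
      rw [closure_ball _ hρ.ne']
      exact sphere_subset_closedBall hw1c
    obtain ⟨q, hq⟩ := mem_closure_iff_nhds.1 h1 (ball w1 ε) (ball_mem_nhds w1 hε1)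
    exact ⟨q, hq.1, hq.2⟩
  have hqR := mem_ball_zero_iff.1 (hcR hq2)
  have hqw : q ≠ w1 := by
    rintro rfl
    linarith
  have hbr : Branch φ r q φ :=
    Branch.step z q c ρ φ φ (Branch.base z hz1 hzr) (fun w hw => hc1 w (ball_subset_closedBall hw))
      (hφ.mono hcR) hz hq2 (EventuallyEq.refl _ _)
  have hopen : IsOpen (ball w1 ε \ {w1}) := isOpen_ball.sdiff isClosed_singleton
  obtain ⟨κ, hκ, hκs⟩ := Metric.isOpen_iff.1 hopen q ⟨hq1, hqw⟩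
  have hfg : φ =ᶠ[𝓝 q] ψ := by
    have h2 : IsOpen (ball (0 : ℂ) R) := isOpen_ball
    filter_upwards [isOpen_ball.mem_nhds hq1, h2.mem_nhds (hcR hq2)] with w hw hwR
    exact (hψφ w (ball_subset_ball hεε hw) (mem_ball_zero_iff.1 hwR)).symm
  have hbr2 : Branch φ r q ψ :=
    Branch.step q q q κ φ ψ hbr (fun w hw => hb1 w (hκs hw).1)
      (hψ.mono (fun w hw => ⟨ball_subset_ball hεε (hκs hw).1, (hκs hw).2⟩))
      (mem_ball_self hκ) (mem_ball_self hκ) hfg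
  obtain ⟨E, hE, hEψ⟩ := hNI w1 ε ψ hε1 hb1
    (hψ.mono (fun w hw => ⟨ball_subset_ball hεε hw.1, hw.2⟩)) ⟨q, ⟨hq1, hqw⟩, hbr2⟩
  refine ⟨ε, E, hε1, hE, fun w hw hwR => ?_⟩
  have hne : w ≠ w1 := by
    rintro rfl
    linarith
  rw [hEψ w hw hne]
  exact hψφ w (ball_subset_ball hεε hw) hwR

end Pool.Agent.E8helper4.AB
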