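import Pool.Agent.E8helper4.AB.Red

/-!
# AB: curves whose leading coefficient has only simple zeros in the domain
-/

set_option autoImplicit false

open Complex Metric Set Filter Topology ComplexConjugate
open Pool.Agent.Results.MP_83fd13_an.BranchSingularities
open Pool.Agent.Y245.UC (Rf)
open Pool.Agent.Y500.UC (rho rho_cont rho_ne rho_rho norm_rho rho_circle Rf_eq Rf_diff annulus)

namespace Pool.Agent.E8helper4.AB

/-- boundary points of the image -/
theorem mem_frontier {φ : ℂ → ℂ} {r : ℝ} (hr : 1 < r) (hφ : DifferentiableOn ℂ φ (ball 0 r))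
    (hinj : InjOn φ (ball 0 r)) {w : ℂ} (hw : ‖w‖ = 1) : φ w ∈ frontier (φ '' ball 0 1) := by
  have hwr : w ∈ ball (0 : ℂ) r := by rw [mem_ball_zero_iff, hw]; exact hr
  rw [frontier, Set.mem_sdiff]
  constructor
  · have h1 : w ∈ closure (ball (0 : ℂ) 1) := by
      rw [closure_ball _ one_ne_zero, mem_closedBall_zero_iff, hw]
    have h2 : ContinuousWithinAt φ (ball 0 1) w :=
      (hφ.continuousOn w hwr).mono (ball_subset_ball hr.le)
    exact h2.mem_closure_image h1
  · intro hcon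
    obtain ⟨v, hv, hvw⟩ := interior_subset hcon
    have := hinj (ball_subset_ball hr.le hv) hwr hvw
    rw [this, mem_ball_zero_iff, hw] at hv
    exact lt_irrefl _ hv

/-- conjugate coefficients -/
theorem eval_conj (p : Polynomial ℂ) (z : ℂ) :
    (p.map (starRingEnd ℂ)).eval (conj z) = conj (p.eval z) := by
  rw [Polynomial.eval_map]
  exact Polynomial.eval₂_hom (starRingEnd ℂ) z

theorem evalEval_sum (Q : Polynomial (Polynomial ℂ)) (x y : ℂ) :
    Q.evalEval x y = ∑ k ∈ Finset.range (Q.natDegree + 1), (Q.coeff k).eval x * y ^ k := by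
  rw [Polynomial.evalEval, Q.eval_eq_sum_range (Polynomial.C y), Polynomial.eval_finsetSum]
  simp

/-- the relation in the annulus -/
theorem relation {φ : ℂ → ℂ} {R : ℝ} (hR : 1 < R) (hφ : DifferentiableOn ℂ φ (ball 0 R))
    (m : ℕ) (q : ℕ → Polynomial ℂ)
    (h : ∀ w : ℂ, ‖w‖ = 1 → ∑ k ∈ Finset.range (m + 1), (q k).eval (conj (φ w)) * φ w ^ k = 0) :
    ∀ w : ℂ, R⁻¹ < ‖w‖ → ‖w‖ < R →
      ∑ k ∈ Finset.range (m + 1), (q k).eval (Rf φ w) * φ w ^ k = 0 := by
  refine circle_zero hR ?_ ?_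
  · rintro w ⟨h1, h2⟩
    apply DifferentiableAt.differentiableWithinAt
    have h3 : DifferentiableAt ℂ φ w :=
      hφ.differentiableAt (isOpen_ball.mem_nhds (mem_ball_zero_iff.2 h2))
    have h4 := Rf_ann (by linarith) hφ h1
    refine DifferentiableAt.fun_sum fun k _ => ?_
    exact ((q k).differentiable.differentiableAt.comp w h4).mul (h3.pow k)
  · intro w hw
    rw [← h w hw]
    simp only [Rf_circle φ hw]

/-- **Part B.** -/
theorem partB (φ : ℂ → ℂ) (r lam : ℝ) (hr : 1 < r) (hφ : DifferentiableOn ℂ φ (ball 0 r))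
    (hinj : InjOn φ (ball 0 r)) (hlam : 0 < lam) (hS : Solvable (φ '' ball 0 1) lam)
    (Q : Polynomial (Polynomial ℂ)) (hQ : Q ≠ 0)
    (hb : ∀ z ∈ frontier (φ '' ball 0 1), Q.evalEval z (conj z) = 0)
    (hmult : ∀ z ∈ φ '' ball 0 1, Q.leadingCoeff.rootMultiplicity z ≤ 1) : IsDisc φ := by
  by_contra hnd
  refine reduce φ r lam hr hφ hinj hlam hS hnd ?_
  intro R Φ hrR hΦ hΦφ hinjΦ hSΦ hBB hNI w1 hw1
  have hR : 1 < R := by linarith
  have hRi : R⁻¹ < 1 := inv_lt_one_of_one_lt₀ hR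
  obtain ⟨m, hm⟩ : ∃ m, m = Q.natDegree := ⟨_, rfl⟩
  obtain ⟨q, hq⟩ : ∃ q : ℕ → Polynomial ℂ, q = fun k => (Q.coeff k).map (starRingEnd ℂ) := ⟨_, rfl⟩
  have hrel := relation hR hΦ m q (by
    intro w hw
    have hwr : w ∈ ball (0 : ℂ) r := by rw [mem_ball_zero_iff, hw]; exact hr
    have h1 := hb (φ w) (mem_frontier hr hφ hinj hw)
    rw [evalEval_sum, ← hm] at h1
    have h2 := congrArg (starRingEnd ℂ) h1
    rw [map_sum, map_zero] at h2
    rw [← h2, hΦφ hwr, hq]
    refine Finset.sum_congr rfl fun k _ => ?_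
    rw [eval_conj, map_mul, map_pow, conj_conj])
  obtain ⟨ε0, C, hε0, hC, hb1, hbr, htd, htn, hlow⟩ := local_data hr hrR hΦ hinjΦ hw1
  obtain ⟨t, ht⟩ : ∃ t : ℂ → ℂ, t = fun w => Rf Φ w - Rf Φ w1 := ⟨_, rfl⟩
  obtain ⟨η1, hη1⟩ : ∃ η1, η1 = Rf Φ w1 := ⟨_, rfl⟩
  have htw : ∀ w, t w = Rf Φ w - Rf Φ w1 := fun w => by rw [ht]
  simp only [← htw] at htd htn hlow
  have htd' : DifferentiableOn ℂ t (ball w1 ε0) := htd
  have ht0 : t w1 = 0 := by rw [htw, sub_self]
  have hyt : ∀ w, Rf Φ w = η1 + t w := fun w => by rw [htw, hη1]; ring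
  have hrel' : ∀ w ∈ ball w1 ε0, ‖w‖ < R →
      ∑ k ∈ Finset.range (m + 1), (q k).eval (η1 + t w) * Φ w ^ k = 0 := by
    intro w hw hwR
    have := hrel w (hRi.trans (hb1 w hw)) hwR
    rw [hyt w] at this
    exact this
  -- the multiplicity
  have hζ : Φ (rho w1) ∈ φ '' ball 0 1 := by
    have h1 := hbr w1 (mem_ball_self hε0)
    rw [hΦφ (ball_subset_ball hr.le h1)]
    exact mem_image_of_mem _ h1
  have hη1c : η1 = conj (Φ (rho w1)) := by rw [hη1]; rfl
  have hlead : Q.leadingCoeff ≠ 0 := Polynomial.leadingCoeff_ne_zero.2 hQ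
  obtain ⟨e, he⟩ : ∃ e, e = Q.leadingCoeff.rootMultiplicity (Φ (rho w1)) := ⟨_, rfl⟩
  have he1 : e ≤ 1 := by rw [he]; exact hmult _ hζ
  obtain ⟨g, hg, hgn⟩ := Polynomial.exists_eq_pow_rootMultiplicity_mul_and_not_dvd Q.leadingCoeff
    hlead (Φ (rho w1))
  rw [← he] at hg
  obtain ⟨gc, hgc⟩ : ∃ gc, gc = g.map (starRingEnd ℂ) := ⟨_, rfl⟩
  have hgc0 : gc.eval η1 ≠ 0 := by
    rw [hgc, hη1c, eval_conj]
    refine (map_ne_zero _).2 fun h => hgn ?_
    exact Polynomial.dvd_iff_isRoot.2 h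
  have hqm : ∀ Z : ℂ, (q m).eval (η1 + Z) = Z ^ e * gc.eval (η1 + Z) := by
    intro Z
    have h1 : q m = (Polynomial.X - Polynomial.C η1) ^ e * gc := by
      rw [hq, hgc]
      simp only
      rw [hm, Polynomial.coeff_natDegree, hg, Polynomial.map_mul, Polynomial.map_pow,
        Polynomial.map_sub, Polynomial.map_X, Polynomial.map_C, ← hη1c]
    rw [h1]
    simp
  -- the coefficients of the transformed equation
  obtain ⟨rr, hrr⟩ : ∃ rr : ℕ → ℂ → ℂ, rr = fun k Z => if k = m then gc.eval (η1 + Z) else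
      (q k).eval (η1 + Z) * Z ^ (m - e - k) := ⟨_, rfl⟩
  have hrrc : ∀ k, ContDiff ℂ 1 (rr k) := by
    intro k
    rw [hrr]
    simp only
    by_cases hk : k = m
    · simp only [if_pos hk]
      exact gc.differentiable.contDiff.comp (by fun_prop)
    · simp only [if_neg hk]
      exact ((q k).differentiable.contDiff.comp (by fun_prop)).mul (by fun_prop)
  have hrrm : rr m 0 ≠ 0 := by
    rw [hrr]
    simp only [if_true]
    rw [add_zero]
    exact hgc0
  have hxc : ContinuousOn (fun w => t w * Φ w) (ball w1 ε0 ∩ ball 0 R) :=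
    (htd'.continuousOn.mono inter_subset_left).mul (hΦ.continuousOn.mono inter_subset_right)
  have hrelx : ∀ w ∈ ball w1 ε0, ‖w‖ < R →
      ∑ k ∈ Finset.range (m + 1), rr k (t w) * (t w * Φ w) ^ k = 0 := by
    intro w hw hwR
    have hne : w ≠ w1 := by
      rintro rfl
      linarith
    have htw0 : t w ≠ 0 := htn w hw hne
    have h1 := hrel' w hw hwR
    have h2 : t w ^ e * ∑ k ∈ Finset.range (m + 1), rr k (t w) * (t w * Φ w) ^ k =
        t w ^ m * ∑ k ∈ Finset.range (m + 1), (q k).eval (η1 + t w) * Φ w ^ k := by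
      rw [Finset.mul_sum, Finset.mul_sum]
      refine Finset.sum_congr rfl fun k hk => ?_
      have hkm : k ≤ m := Nat.lt_succ_iff.1 (Finset.mem_range.1 hk)
      rw [hrr]
      simp only
      by_cases hkm' : k = m
      · rw [if_pos hkm', hkm', hqm]
        ring
      · rw [if_neg hkm']
        have hk2 : e + (m - e - k) + k = m := by omega
        have h3 : t w ^ m = t w ^ e * t w ^ (m - e - k) * t w ^ k := by
          rw [← pow_add, ← pow_add, hk2]
        rw [h3, mul_pow]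
        ring
    rw [h1, mul_zero] at h2
    exact (mul_eq_zero.1 h2).resolve_left (pow_ne_zero _ htw0)
  obtain ⟨s, hs, hlim, hsimple⟩ := core (by linarith) hw1 hε0 m rr hrrc hrrm t
    (fun w => t w * Φ w) htd' ht0 hxc hrelx
  by_cases hs0 : s = 0
  · refine fin_small (b := 0) hr hrR hlam hΦ hBB hw1 hε0 hC hlow fun δ hδ => ?_
    obtain ⟨ε, h1, h2, h3⟩ := hlim δ hδ
    refine ⟨ε, h1, h2, fun w hw hwR => ?_⟩
    rw [sub_zero]
    have := h3 w hw hwR
    rwa [hs0, sub_zero] at this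
  · -- simple root
    have hzero : ∀ k ∈ Finset.range (m + 1), k ≠ m → k + 1 ≠ m → rr k 0 = 0 := by
      intro k hk hkm hkm1
      have hkm' : k ≤ m := Nat.lt_succ_iff.1 (Finset.mem_range.1 hk)
      rw [hrr]
      simp only
      rw [if_neg hkm, zero_pow (by omega), mul_zero]
    have hd : ∑ k ∈ Finset.range (m + 1), rr k 0 * (k * s ^ (k - 1)) ≠ 0 := by
      intro hcon
      have h1 : ∑ k ∈ Finset.range (m + 1), (((k : ℂ) - ((m : ℂ) - 1)) * (rr k 0 * s ^ k)) =
          rr m 0 * s ^ m := by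
        rw [Finset.sum_eq_single m]
        · ring
        · intro k hk hkm
          by_cases hk1 : k + 1 = m
          · have : (k : ℂ) - ((m : ℂ) - 1) = 0 := by
              rw [← hk1]
              push_cast
              ring
            rw [this, zero_mul]
          · rw [hzero k hk hkm hk1, zero_mul, mul_zero]
        · intro h
          exact absurd (Finset.mem_range.2 (Nat.lt_succ_self m)) h
      have h2 : ∑ k ∈ Finset.range (m + 1), (((k : ℂ) - ((m : ℂ) - 1)) * (rr k 0 * s ^ k)) =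
          s * ∑ k ∈ Finset.range (m + 1), rr k 0 * (k * s ^ (k - 1)) -
          ((m : ℂ) - 1) * ∑ k ∈ Finset.range (m + 1), rr k 0 * s ^ k := by
        rw [Finset.mul_sum, Finset.mul_sum, ← Finset.sum_sub_distrib]
        refine Finset.sum_congr rfl fun k _ => ?_
        rcases Nat.eq_zero_or_pos k with hk | hk
        · subst hk
          simp
          ring
        · have : s ^ k = s ^ (k - 1) * s := by rw [← pow_succ, Nat.sub_add_cancel hk]
          rw [this]
          ring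
      rw [h1, hcon, hs, mul_zero, mul_zero, sub_zero] at h2
      exact mul_ne_zero hrrm (pow_ne_zero _ hs0) h2
    obtain ⟨δ, X, hδ, hδε, hX, -, hXφ⟩ := hsimple hd
    refine fin_pole (b := 0) 1 hr hrR hΦ hNI hw1 htd' htn X δ hδ hδε hX fun w hw hwR => ?_
    rw [← hXφ w hw hwR]
    ring

end Pool.Agent.E8helper4.AB
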