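import Mathlib

/-!
# AB: real polynomials in the coordinates `Z = z - ζ`, `W = conj (z - ζ)`
-/

set_option autoImplicit false

open Complex ComplexConjugate
open Polynomial (C X)

namespace Pool.Agent.E8helper4.AB

/-- total degree at most `n` -/
def Deg (n : ℕ) (Q : Polynomial (Polynomial ℂ)) : Prop :=
  ∀ j k, n < j + k → (Q.coeff k).coeff j = 0

/-- hermitian coefficients -/
def Herm (Q : Polynomial (Polynomial ℂ)) : Prop :=
  ∀ j k, (Q.coeff j).coeff k = conj ((Q.coeff k).coeff j)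

theorem Deg.mono {n n' : ℕ} {Q : Polynomial (Polynomial ℂ)} (h : Deg n Q) (hn : n ≤ n') :
    Deg n' Q := fun j k hjk => h j k (by omega)

theorem Deg.add {n : ℕ} {P Q : Polynomial (Polynomial ℂ)} (hP : Deg n P) (hQ : Deg n Q) :
    Deg n (P + Q) := by
  intro j k hjk
  rw [Polynomial.coeff_add, Polynomial.coeff_add, hP j k hjk, hQ j k hjk, add_zero]

theorem Deg.mul {a b : ℕ} {P Q : Polynomial (Polynomial ℂ)} (hP : Deg a P) (hQ : Deg b Q) :
    Deg (a + b) (P * Q) := by
  intro j k hjk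
  rw [Polynomial.coeff_mul, Polynomial.finsetSum_coeff]
  refine Finset.sum_eq_zero fun p hp => ?_
  rw [Polynomial.coeff_mul]
  refine Finset.sum_eq_zero fun p' hp' => ?_
  have h1 := Finset.HasAntidiagonal.mem_antidiagonal.1 hp
  have h2 := Finset.HasAntidiagonal.mem_antidiagonal.1 hp'
  rcases Nat.lt_or_ge a (p'.1 + p.1) with h | h
  · rw [hP _ _ h, zero_mul]
  · rw [hQ _ _ (by omega), mul_zero]

theorem Herm.add {P Q : Polynomial (Polynomial ℂ)} (hP : Herm P) (hQ : Herm Q) :
    Herm (P + Q) := by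
  intro j k
  rw [Polynomial.coeff_add, Polynomial.coeff_add, Polynomial.coeff_add, Polynomial.coeff_add,
    hP j k, hQ j k, map_add]

theorem Herm.mul {P Q : Polynomial (Polynomial ℂ)} (hP : Herm P) (hQ : Herm Q) :
    Herm (P * Q) := by
  intro j k
  rw [Polynomial.coeff_mul, Polynomial.finsetSum_coeff, Polynomial.coeff_mul,
    Polynomial.finsetSum_coeff, map_sum]
  simp only [Polynomial.coeff_mul, map_sum, map_mul]
  rw [Finset.sum_comm]
  refine Finset.sum_congr rfl fun p _ => Finset.sum_congr rfl fun p' _ => ?_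
  rw [hP p'.1 p.1, hQ p'.2 p.2]

theorem Deg.pow {a : ℕ} {P : Polynomial (Polynomial ℂ)} (hP : Deg a P) (n : ℕ) :
    Deg (n * a) (P ^ n) := by
  induction n with
  | zero =>
    rw [pow_zero, zero_mul]
    intro j k hjk
    rw [Polynomial.coeff_one]
    split_ifs with h
    · subst h
      rw [Polynomial.coeff_one, if_neg (by omega)]
    · simp
  | succ n ih =>
    rw [pow_succ]
    exact (ih.mul hP).mono (le_of_eq (by ring))

theorem Herm.pow {P : Polynomial (Polynomial ℂ)} (hP : Herm P) (n : ℕ) : Herm (P ^ n) := by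
  induction n with
  | zero =>
    rw [pow_zero]
    intro j k
    rw [Polynomial.coeff_one, Polynomial.coeff_one]
    by_cases hj : j = 0 <;> by_cases hk : k = 0 <;> simp [hj, hk, Polynomial.coeff_one]
  | succ n ih =>
    rw [pow_succ]
    exact ih.mul hP

/-- real linear forms -/
noncomputable def lin (a : ℂ) (c : ℝ) : Polynomial (Polynomial ℂ) :=
  C (C a * X) + C (C (conj a)) * X + C (C (c : ℂ))

theorem lin_coeff (a : ℂ) (c : ℝ) (j k : ℕ) : ((lin a c).coeff k).coeff j =
    (if k = 0 ∧ j = 1 then a else 0) + (if k = 1 ∧ j = 0 then conj a else 0) +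
      (if k = 0 ∧ j = 0 then (c : ℂ) else 0) := by
  have h1 : ∀ p : Polynomial ℂ, ((C p : Polynomial (Polynomial ℂ)).coeff k).coeff j =
      if k = 0 then p.coeff j else 0 := by
    intro p
    rw [Polynomial.coeff_C]
    split_ifs <;> simp
  have h2 : ∀ p : Polynomial ℂ, ((C p * X : Polynomial (Polynomial ℂ)).coeff k).coeff j =
      if k = 1 then p.coeff j else 0 := by
    intro p
    rw [Polynomial.coeff_C_mul_X]
    split_ifs <;> simp
  unfold lin
  rw [Polynomial.coeff_add, Polynomial.coeff_add, Polynomial.coeff_add, Polynomial.coeff_add,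
    h1, h1, h2, Polynomial.coeff_C_mul_X, Polynomial.coeff_C, Polynomial.coeff_C]
  by_cases hj : j = 0 <;> by_cases hj1 : j = 1 <;> by_cases hk : k = 0 <;>
    by_cases hk1 : k = 1 <;> simp_all

theorem lin_deg (a : ℂ) (c : ℝ) : Deg 1 (lin a c) := by
  intro j k hjk
  rw [lin_coeff, if_neg (by omega), if_neg (by omega), if_neg (by omega)]
  simp

theorem lin_herm (a : ℂ) (c : ℝ) : Herm (lin a c) := by
  intro j k
  rw [lin_coeff, lin_coeff, map_add, map_add]
  by_cases hj : j = 0 <;> by_cases hj1 : j = 1 <;> by_cases hk : k = 0 <;>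
    by_cases hk1 : k = 1 <;> simp_all

theorem lin_eval (a : ℂ) (c : ℝ) (x y : ℂ) :
    (lin a c).evalEval x y = a * x + conj a * y + c := by
  unfold lin
  simp [Polynomial.evalEval]

/-- constants -/
theorem const_deg (c : ℝ) : Deg 0 (C (C (c : ℂ))) := by
  intro j k hjk
  rw [Polynomial.coeff_C]
  split_ifs with h
  · subst h
    rw [Polynomial.coeff_C, if_neg (by omega)]
  · simp

theorem const_herm (c : ℝ) : Herm (C (C (c : ℂ))) := by
  intro j k
  rw [Polynomial.coeff_C, Polynomial.coeff_C]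
  by_cases hj : j = 0 <;> by_cases hk : k = 0 <;> simp [hj, hk, Polynomial.coeff_C]

theorem sum_deg {ι : Type*} (s : Finset ι) (f : ι → Polynomial (Polynomial ℂ)) (n : ℕ)
    (h : ∀ i ∈ s, Deg n (f i)) : Deg n (∑ i ∈ s, f i) := by
  intro j k hjk
  rw [Polynomial.finsetSum_coeff, Polynomial.finsetSum_coeff]
  exact Finset.sum_eq_zero fun i hi => h i hi j k hjk

theorem sum_herm {ι : Type*} (s : Finset ι) (f : ι → Polynomial (Polynomial ℂ))
    (h : ∀ i ∈ s, Herm (f i)) : Herm (∑ i ∈ s, f i) := by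
  intro j k
  rw [Polynomial.finsetSum_coeff, Polynomial.finsetSum_coeff, Polynomial.finsetSum_coeff,
    Polynomial.finsetSum_coeff, map_sum]
  exact Finset.sum_congr rfl fun i hi => h i hi j k

/-- the polynomial in `Z`, `W` -/
noncomputable def toZW (ζ : ℂ) (P : MvPolynomial (Fin 2) ℝ) : Polynomial (Polynomial ℂ) :=
  ∑ d ∈ P.support, C (C ((P.coeff d : ℝ) : ℂ)) * (lin (1 / 2) ζ.re ^ d 0 *
    lin (1 / (2 * I)) ζ.im ^ d 1)

theorem toZW_deg (ζ : ℂ) (P : MvPolynomial (Fin 2) ℝ) : Deg P.totalDegree (toZW ζ P) := by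
  refine sum_deg _ _ _ fun d hd => ?_
  have h1 := ((const_deg (P.coeff d)).mul (((lin_deg (1 / 2) ζ.re).pow (d 0)).mul
    ((lin_deg (1 / (2 * I)) ζ.im).pow (d 1))))
  refine h1.mono ?_
  have h2 := MvPolynomial.le_totalDegree hd
  have h3 : (d.sum fun _ e => e) = d 0 + d 1 := by
    rw [Finsupp.sum_fintype _ _ (by simp), Fin.sum_univ_two]
  rw [h3] at h2
  omega

theorem toZW_herm (ζ : ℂ) (P : MvPolynomial (Fin 2) ℝ) : Herm (toZW ζ P) :=
  sum_herm _ _ fun _ _ => (const_herm _).mul (((lin_herm _ _).pow _).mul ((lin_herm _ _).pow _))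

theorem toZW_eval (ζ z : ℂ) (P : MvPolynomial (Fin 2) ℝ) :
    (toZW ζ P).evalEval (z - ζ) (conj z - conj ζ) =
      ((MvPolynomial.eval ![z.re, z.im] P : ℝ) : ℂ) := by
  have h1 : (lin (1 / 2) ζ.re).evalEval (z - ζ) (conj z - conj ζ) = (z.re : ℂ) := by
    rw [lin_eval]
    apply Complex.ext <;> simp <;> ring
  have h2 : (lin (1 / (2 * I)) ζ.im).evalEval (z - ζ) (conj z - conj ζ) = (z.im : ℂ) := by
    rw [lin_eval]
    have e1 : (1 / (2 * I) : ℂ) = -I / 2 := by
      rw [div_eq_div_iff (by simp) two_ne_zero]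
      linear_combination 2 * I_mul_I
    have e2 : conj (-I / 2 : ℂ) = I / 2 := by
      have e3 : conj (2 : ℂ) = 2 := Complex.ext (by simp) (by simp)
      rw [map_div₀, map_neg, conj_I, neg_neg, e3]
    rw [e1, e2]
    apply Complex.ext <;> simp <;> ring
  rw [MvPolynomial.eval_eq']
  unfold toZW
  rw [← Polynomial.coe_evalEvalRingHom, map_sum, Complex.ofReal_sum]
  refine Finset.sum_congr rfl fun d _ => ?_
  rw [map_mul, map_mul, map_pow, map_pow, Polynomial.coe_evalEvalRingHom, h1, h2,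
    Fin.prod_univ_two]
  simp [Polynomial.evalEval]

theorem toZW_ne (ζ : ℂ) (P : MvPolynomial (Fin 2) ℝ) (hP : P ≠ 0) : toZW ζ P ≠ 0 := by
  intro h
  apply hP
  apply MvPolynomial.funext
  intro x
  have h1 := toZW_eval ζ (x 0 + x 1 * I) P
  rw [h] at h1
  have h2 : (![((x 0 : ℂ) + x 1 * I).re, ((x 0 : ℂ) + x 1 * I).im] : Fin 2 → ℝ) = x := by
    funext i
    fin_cases i <;> simp
  rw [h2] at h1
  have h3 : ((MvPolynomial.eval x P : ℝ) : ℂ) = 0 := by
    rw [← h1]
    simp [Polynomial.evalEval]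
  rw [map_zero]
  exact_mod_cast h3

end Pool.Agent.E8helper4.AB
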