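import Pool.Agent.E8helper4.AB.LocF
import Pool.Agent.E8helper4.AB.PartB
import Pool.Agent.E8helper4.AB.RealPoly

/-!
# AB: real algebraic curves of degree at most five
-/

set_option autoImplicit false

open Complex Metric Set Filter Topology ComplexConjugate
open Pool.Agent.Results.MP_83fd13_an.BranchSingularities
open Pool.Agent.Y245.UC (Rf)
open Pool.Agent.Y500.UC (rho rho_cont rho_ne rho_rho norm_rho rho_circle Rf_eq Rf_diff annulus)

namespace Pool.Agent.E8helper4.AB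

/-- the exceptional relation of degree five -/
theorem loc_five (Φ : ℂ → ℂ) (r R lam ε0 C : ℝ) (w1 : ℂ) (hr : 1 < r) (hrR : r ≤ R)
    (hΦ : DifferentiableOn ℂ Φ (ball 0 R)) (hinj : InjOn Φ (ball 0 r)) (hlam : 0 < lam)
    (hS : Solvable (Φ '' ball 0 1) lam) (hBB : BranchesBlowUp Φ r lam)
    (hNI : NoFiniteIsolatedSingularity Φ r) (hw1 : ‖w1‖ = R) (hε0 : 0 < ε0) (hC : 0 < C)
    (hb1 : ∀ w ∈ ball w1 ε0, 1 < ‖w‖) (t : ℂ → ℂ) (ht : t = fun w => Rf Φ w - Rf Φ w1)
    (b : ℂ) (hb : b = Φ (rho w1)) (htd : DifferentiableOn ℂ t (ball w1 ε0))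
    (htn : ∀ w ∈ ball w1 ε0, w ≠ w1 → t w ≠ 0)
    (hlow : ∀ w ∈ ball w1 ε0, ‖w - w1‖ ≤ C * ‖t w‖) (a c d : ℂ) (l2 l1 l0 : ℝ) (ha : a ≠ 0)
    (hrel : ∀ w ∈ ball w1 ε0, ‖w‖ < R →
        a * t w ^ 2 * (Φ w - b) ^ 3 + conj a * t w ^ 3 * (Φ w - b) ^ 2 +
        l2 * t w ^ 2 * (Φ w - b) ^ 2 + d * t w * (Φ w - b) ^ 2 + conj d * t w ^ 2 * (Φ w - b) +
        l1 * t w * (Φ w - b) + c * (Φ w - b) + conj c * t w + l0 = 0) : LocExt Φ R w1 := by
  have ht0 : t w1 = 0 := by rw [ht]; simp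
  obtain ⟨x, hx⟩ : ∃ x : ℂ → ℂ, x = fun w => t w * (Φ w - b) := ⟨_, rfl⟩
  have hxw : ∀ w, x w = t w * (Φ w - b) := fun w => by rw [hx]
  have hrelx : ∀ w ∈ ball w1 ε0, ‖w‖ < R → x w * (a * x w ^ 2 + d * x w + c) +
      t w * (l2 * x w ^ 2 + l1 * x w + l0) +
      t w ^ 2 * (conj a * x w ^ 2 + conj d * x w + conj c) = 0 := by
    intro w hw hwR
    rw [hxw]
    linear_combination t w * hrel w hw hwR
  obtain ⟨rr, hrr⟩ : ∃ rr : ℕ → ℂ → ℂ, rr = fun k Z => if k = 3 then a else if k = 2 then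
      d + Z * l2 + Z ^ 2 * conj a else if k = 1 then c + Z * l1 + Z ^ 2 * conj d else
      Z * l0 + Z ^ 2 * conj c := ⟨_, rfl⟩
  have e0 : ∀ Z, rr 0 Z = Z * l0 + Z ^ 2 * conj c := fun Z => by rw [hrr]; simp
  have e1 : ∀ Z, rr 1 Z = c + Z * l1 + Z ^ 2 * conj d := fun Z => by rw [hrr]; simp
  have e2 : ∀ Z, rr 2 Z = d + Z * l2 + Z ^ 2 * conj a := fun Z => by rw [hrr]; simp
  have e3 : ∀ Z, rr 3 Z = a := fun Z => by rw [hrr]; simp
  have hxc : ContinuousOn x (ball w1 ε0 ∩ ball 0 R) := by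
    rw [hx]
    exact (htd.continuousOn.mono inter_subset_left).mul
      ((hΦ.continuousOn.mono inter_subset_right).sub continuousOn_const)
  obtain ⟨s, hs, hlim, hsimple⟩ := core (by linarith) hw1 hε0 3 rr (by
      intro k
      rw [hrr]
      simp only
      split_ifs <;> fun_prop) (by rw [e3]; exact ha) t x htd ht0 hxc (by
      intro w hw hwR
      rw [Finset.sum_range_succ, Finset.sum_range_succ, Finset.sum_range_succ,
        Finset.sum_range_one, e0, e1, e2, e3]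
      linear_combination hrelx w hw hwR)
  rw [Finset.sum_range_succ, Finset.sum_range_succ, Finset.sum_range_succ,
    Finset.sum_range_one, e0, e1, e2, e3] at hs hsimple
  norm_num at hs
  by_cases hs0 : s = 0
  · refine fin_small (b := b) hr hrR hlam hΦ hBB hw1 hε0 hC hlow fun δ hδ => ?_
    obtain ⟨ε, h1, h2, h3⟩ := hlim δ hδ
    refine ⟨ε, h1, h2, fun w hw hwR => ?_⟩
    have := h3 w hw hwR
    rwa [hs0, sub_zero, hxw] at this
  by_cases hd0 : c + d * (2 * s) + a * (3 * s ^ 2) = 0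
  swap
  · obtain ⟨δ, X, hδ, hδε, hX, -, hXφ⟩ := hsimple (by
      intro h
      apply hd0
      norm_num at h
      linear_combination h)
    refine fin_pole (b := b) 1 hr hrR hΦ hNI hw1 htd htn X δ hδ hδε hX fun w hw hwR => ?_
    rw [← hXφ w hw hwR, hxw]
    ring
  -- a double root
  have h1 : a * s ^ 2 + d * s + c = 0 := by
    have h2 : s * (a * s ^ 2 + d * s + c) = 0 := by linear_combination hs
    exact (mul_eq_zero.1 h2).resolve_left hs0
  have hd1 : d = -2 * a * s := by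
    have h2 : s * (d + 2 * a * s) = 0 := by linear_combination hd0 - h1
    have h3 := (mul_eq_zero.1 h2).resolve_left hs0
    linear_combination h3
  have hc1 : c = a * s ^ 2 := by
    rw [hd1] at h1
    linear_combination h1
  have hcd : conj d = -2 * conj a * conj s := by
    rw [hd1, map_mul, map_mul, map_neg]
    have : (starRingEnd ℂ) 2 = 2 := by
      have := Complex.conj_ofReal 2
      simpa using this
    rw [this]
  have hcc : conj c = conj a * conj s ^ 2 := by rw [hc1, map_mul, map_pow]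
  have hrel2 : ∀ w ∈ ball w1 ε0, ‖w‖ < R →
      a * x w * (x w - s) ^ 2 + t w * (l2 * x w ^ 2 + l1 * x w + l0) +
        t w ^ 2 * conj a * (x w - conj s) ^ 2 = 0 := by
    intro w hw hwR
    have h2 := hrelx w hw hwR
    rw [hcd, hcc, hd1, hc1] at h2
    linear_combination h2
  by_cases hL : (l2 : ℂ) * s ^ 2 + l1 * s + l0 = 0
  swap
  · exfalso
    refine no_c1 Φ r R lam ε0 w1 hr hrR hΦ hinj hlam hS hw1 hb1 t x ht
      (by rw [hx, hb]) (htd.differentiableAt (ball_mem_nhds w1 hε0)).continuousAt htn a s l2 l1 l0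
      ha hs0 hL hlim hrel2
  by_cases hsr : s = conj s
  · refine loc_c2r (b := b) hr hrR hΦ hNI hw1 hε0 htd ht0 htn a (conj a) s l2 (l2 * s + l1) ha hs0
      fun w hw hwR => ?_
    have h2 := hrel2 w hw hwR
    rw [← hsr] at h2
    rw [← hxw w]
    linear_combination h2 - t w * hL
  · have hL2 : (l2 : ℂ) * conj s ^ 2 + l1 * conj s + l0 = 0 := by
      have := congrArg (starRingEnd ℂ) hL
      simpa using this
    have hl1 : (l1 : ℂ) = -l2 * (s + conj s) := by
      have h2 : (s - conj s) * (l2 * (s + conj s) + l1) = 0 := by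
        linear_combination hL - hL2
      have h3 := (mul_eq_zero.1 h2).resolve_left (sub_ne_zero.2 hsr)
      linear_combination h3
    have hl0 : (l0 : ℂ) = l2 * s * conj s := by
      rw [hl1] at hL
      linear_combination hL
    refine loc_c2n (b := b) hr hrR hΦ hNI hw1 hε0 htd ht0 htn a s l2 ha hs0 hsr
      fun w hw hwR => ?_
    have h2 := hrel2 w hw hwR
    rw [hl1, hl0] at h2
    rw [← hxw w]
    linear_combination h2

/-- **Real algebraic curves of degree at most five.** -/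
theorem partC (φ : ℂ → ℂ) (r lam : ℝ) (hr : 1 < r) (hφ : DifferentiableOn ℂ φ (ball 0 r))
    (hinj : InjOn φ (ball 0 r)) (hlam : 0 < lam) (hS : Solvable (φ '' ball 0 1) lam)
    (P : MvPolynomial (Fin 2) ℝ) (hP : P ≠ 0) (hdeg : P.totalDegree ≤ 5)
    (hb : ∀ z ∈ frontier (φ '' ball 0 1), MvPolynomial.eval ![z.re, z.im] P = 0) : IsDisc φ := by
  by_contra hnd
  refine reduce φ r lam hr hφ hinj hlam hS hnd ?_
  intro R Φ hrR hΦ hΦφ hinjΦ hSΦ hBB hNI w1 hw1
  have hR : 1 < R := by linarith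
  have hRi : R⁻¹ < 1 := inv_lt_one_of_one_lt₀ hR
  obtain ⟨ε0, C, hε0, hC, hb1, hbr, htd, htn, hlow⟩ := local_data hr hrR hΦ hinjΦ hw1
  obtain ⟨b, hbd⟩ : ∃ b, b = Φ (rho w1) := ⟨_, rfl⟩
  obtain ⟨Q, hQ⟩ : ∃ Q, Q = toZW b P := ⟨_, rfl⟩
  obtain ⟨q, hq⟩ : ∃ q : ℕ → Polynomial ℂ, q = fun k => (Q.coeff k).map (starRingEnd ℂ) := ⟨_, rfl⟩
  have hQ0 : Q ≠ 0 := by rw [hQ]; exact toZW_ne b P hP
  have hQD : Deg 5 Q := by rw [hQ]; exact (toZW_deg b P).mono hdeg
  have hQH : Herm Q := by rw [hQ]; exact toZW_herm b P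
  have hnat : Q.natDegree ≤ 5 := by
    rw [Polynomial.natDegree_le_iff_coeff_eq_zero]
    intro k hk
    ext j
    rw [Polynomial.coeff_zero]
    exact hQD j k (by omega)
  have hqc : ∀ j k, (q k).coeff j = conj ((Q.coeff k).coeff j) := fun j k => by
    rw [hq]
    simp only
    rw [Polynomial.coeff_map]
  have hev : ∀ x y : ℂ, Q.evalEval x y = ∑ k ∈ Finset.range (5 + 1), (Q.coeff k).eval x * y ^ k := by
    intro x y
    rw [evalEval_sum]
    refine Finset.sum_subset (fun k hk => ?_) fun k _ hk => ?_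
    · rw [Finset.mem_range] at hk ⊢
      omega
    · rw [Finset.mem_range] at hk
      rw [Polynomial.coeff_eq_zero_of_natDegree_lt (by omega), Polynomial.eval_zero, zero_mul]
  have hrel := relation hR (hΦ.sub_const b) 5 q (by
    intro w hw
    have hwr : w ∈ ball (0 : ℂ) r := by rw [mem_ball_zero_iff, hw]; exact hr
    have h1 := hb (φ w) (mem_frontier hr hφ hinj hw)
    have h2 := toZW_eval b (φ w) P
    rw [h1, ofReal_zero, ← hQ, hev] at h2
    have h3 := congrArg (starRingEnd ℂ) h2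
    rw [map_sum, map_zero] at h3
    rw [← h3, hΦφ hwr, hq]
    refine Finset.sum_congr rfl fun k _ => ?_
    rw [eval_conj, map_mul, map_pow, map_sub, conj_conj, conj_conj])
  have hRf : ∀ w, Rf (fun w => Φ w - b) w = Rf Φ w - Rf Φ w1 := by
    intro w
    rw [Rf_eq, Rf_eq, Rf_eq, hbd, map_sub]
  have hrel' : ∀ w ∈ ball w1 ε0, ‖w‖ < R →
      ∑ k ∈ Finset.range (5 + 1), (q k).eval (Rf Φ w - Rf Φ w1) * (Φ w - b) ^ k = 0 := by
    intro w hw hwR
    have h1 := hrel w (hRi.trans (hb1 w hw)) hwR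
    rw [hRf w] at h1
    exact h1
  obtain ⟨t, ht⟩ : ∃ t : ℂ → ℂ, t = fun w => Rf Φ w - Rf Φ w1 := ⟨_, rfl⟩
  have htw : ∀ w, t w = Rf Φ w - Rf Φ w1 := fun w => by rw [ht]
  simp only [← htw] at htd htn hlow hrel'
  have htd' : DifferentiableOn ℂ t (ball w1 ε0) := htd
  rcases loc_low (b := b) hr hrR hlam hΦ hBB hNI hw1 hε0 hC htd' (by rw [htw, sub_self]) htn
    hlow 5 le_rfl q (by
      by_contra hcon
      push Not at hcon
      apply hQ0
      ext k j
      have h1 := hqc j k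
      rw [hcon k, Polynomial.coeff_zero, eq_comm, map_eq_zero] at h1
      rw [h1]
      simp) (by
      intro j k
      rw [hqc, hqc, hQH j k]) (by
      intro j k hjk
      rw [hqc, hQD j k hjk, map_zero]) hrel' with h | ⟨-, a, c, d, l2, l1, l0, ha, h⟩
  · exact h
  · exact loc_five Φ r R lam ε0 C w1 hr hrR hΦ hinjΦ hlam hSΦ hBB hNI hw1 hε0 hC hb1 t ht b hbd
      htd' htn hlow a c d l2 l1 l0 ha h

end Pool.Agent.E8helper4.AB
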