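import Mathlib

/-!
# AB: simple roots of an equation with analytic coefficients
-/

set_option autoImplicit false

open Complex Metric Set Filter Topology

namespace Pool.Agent.E8helper4.AB

/-- near a simple root the solutions are the graph of a holomorphic function -/
theorem ift (F : ℂ × ℂ → ℂ) (r d : ℂ) (hF : ContDiffAt ℂ 1 F (0, r)) (h0 : F (0, r) = 0)
    (hd : HasDerivAt (fun x => F (0, x)) d r) (hd0 : d ≠ 0) :
    ∃ (δ : ℝ) (X : ℂ → ℂ), 0 < δ ∧ DifferentiableOn ℂ X (ball 0 δ) ∧ X 0 = r ∧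
      ∀ Z ∈ ball (0 : ℂ) δ, ∀ x ∈ ball r δ, F (Z, x) = 0 → x = X Z := by
  have hone : (1 : WithTop ℕ∞) ≠ 0 := one_ne_zero
  have hfd : HasFDerivAt F (fderiv ℂ F (0, r)) (0, r) :=
    (hF.differentiableAt hone).hasFDerivAt
  have hcomp : HasFDerivAt (fun x : ℂ => F (0, x)) (fderiv ℂ F (0, r) ∘L .inr ℂ ℂ ℂ) r := by
    have h1 : HasFDerivAt (fun x : ℂ => ((0 : ℂ), x)) (ContinuousLinearMap.inr ℂ ℂ ℂ) r :=
      hasFDerivAt_prodMk_right 0 r
    exact HasFDerivAt.comp r hfd h1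
  have hval : (fderiv ℂ F (0, r) ∘L .inr ℂ ℂ ℂ) 1 = d := by
    have h1 := hcomp.hasDerivAt.unique hd
    exact h1
  have hinv : (fderiv ℂ F (0, r) ∘L .inr ℂ ℂ ℂ).IsInvertible := by
    refine ⟨ContinuousLinearEquiv.unitsEquivAut ℂ (Units.mk0 d hd0), ?_⟩
    ext
    simp only [ContinuousLinearEquiv.coe_coe]
    rw [hval]
    simp
  have hu := hF.eventually_apply_eq_iff_implicitFunction hone hinv
  have hc := hF.contDiffAt_implicitFunction hone hinv
  obtain ⟨X, hX⟩ : ∃ X, X = hF.implicitFunction hone hinv := ⟨_, rfl⟩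
  have hX0 : X 0 = r := by
    rw [hX]
    exact hF.implicitFunction_apply_self hone hinv
  rw [← hX] at hu hc
  have hce : ∀ᶠ z in 𝓝 (0 : ℂ), DifferentiableAt ℂ X z := by
    have h1 := hc.eventually (by simp)
    filter_upwards [h1] with z hz
    exact hz.differentiableAt hone
  rw [nhds_prod_eq] at hu
  obtain ⟨p1, hp1, p2, hp2, hpp⟩ := eventually_prod_iff.1 hu
  obtain ⟨δ1, hδ1, h1⟩ := Metric.eventually_nhds_iff_ball.1 (hp1.and hce)
  obtain ⟨δ2, hδ2, h2⟩ := Metric.eventually_nhds_iff_ball.1 hp2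
  refine ⟨min δ1 δ2, X, lt_min hδ1 hδ2, ?_, hX0, ?_⟩
  · intro z hz
    exact (h1 z (ball_subset_ball (min_le_left _ _) hz)).2.differentiableWithinAt
  · intro Z hZ x hx hFx
    have h3 := hpp (h1 Z (ball_subset_ball (min_le_left _ _) hZ)).1
      (h2 x (ball_subset_ball (min_le_right _ _) hx))
    exact (h3.1 (by rw [hFx, h0])).symm

/-- the same, with the equation for the implicit function -/
theorem ift2 (F : ℂ × ℂ → ℂ) (r d : ℂ) (hF : ContDiffAt ℂ 1 F (0, r)) (h0 : F (0, r) = 0)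
    (hd : HasDerivAt (fun x => F (0, x)) d r) (hd0 : d ≠ 0) :
    ∃ (δ : ℝ) (X : ℂ → ℂ), 0 < δ ∧ DifferentiableOn ℂ X (ball 0 δ) ∧ X 0 = r ∧
      (∀ Z ∈ ball (0 : ℂ) δ, F (Z, X Z) = 0) ∧
      ∀ Z ∈ ball (0 : ℂ) δ, ∀ x ∈ ball r δ, F (Z, x) = 0 → x = X Z := by
  have hone : (1 : WithTop ℕ∞) ≠ 0 := one_ne_zero
  have hfd : HasFDerivAt F (fderiv ℂ F (0, r)) (0, r) :=
    (hF.differentiableAt hone).hasFDerivAt
  have hcomp : HasFDerivAt (fun x : ℂ => F (0, x)) (fderiv ℂ F (0, r) ∘L .inr ℂ ℂ ℂ) r := by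
    have h1 : HasFDerivAt (fun x : ℂ => ((0 : ℂ), x)) (ContinuousLinearMap.inr ℂ ℂ ℂ) r :=
      hasFDerivAt_prodMk_right 0 r
    exact HasFDerivAt.comp r hfd h1
  have hval : (fderiv ℂ F (0, r) ∘L .inr ℂ ℂ ℂ) 1 = d := by
    have h1 := hcomp.hasDerivAt.unique hd
    exact h1
  have hinv : (fderiv ℂ F (0, r) ∘L .inr ℂ ℂ ℂ).IsInvertible := by
    refine ⟨ContinuousLinearEquiv.unitsEquivAut ℂ (Units.mk0 d hd0), ?_⟩
    ext
    simp only [ContinuousLinearEquiv.coe_coe]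
    rw [hval]
    simp
  have hu := hF.eventually_apply_eq_iff_implicitFunction hone hinv
  have hc := hF.contDiffAt_implicitFunction hone hinv
  have he := hF.eventually_apply_implicitFunction hone hinv
  obtain ⟨X, hX⟩ : ∃ X, X = hF.implicitFunction hone hinv := ⟨_, rfl⟩
  have hX0 : X 0 = r := by
    rw [hX]
    exact hF.implicitFunction_apply_self hone hinv
  rw [← hX] at hu hc he
  have hce : ∀ᶠ z in 𝓝 (0 : ℂ), DifferentiableAt ℂ X z := by
    have h1 := hc.eventually (by simp)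
    filter_upwards [h1] with z hz
    exact hz.differentiableAt hone
  rw [nhds_prod_eq] at hu
  obtain ⟨p1, hp1, p2, hp2, hpp⟩ := eventually_prod_iff.1 hu
  obtain ⟨δ1, hδ1, h1⟩ := Metric.eventually_nhds_iff_ball.1 ((hp1.and hce).and he)
  obtain ⟨δ2, hδ2, h2⟩ := Metric.eventually_nhds_iff_ball.1 hp2
  refine ⟨min δ1 δ2, X, lt_min hδ1 hδ2, ?_, hX0, ?_, ?_⟩
  · intro z hz
    exact (h1 z (ball_subset_ball (min_le_left _ _) hz)).1.2.differentiableWithinAt
  · intro Z hZ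
    rw [(h1 Z (ball_subset_ball (min_le_left _ _) hZ)).2, h0]
  · intro Z hZ x hx hFx
    have h3 := hpp (h1 Z (ball_subset_ball (min_le_left _ _) hZ)).1.1
      (h2 x (ball_subset_ball (min_le_right _ _) hx))
    exact (h3.1 (by rw [hFx, h0])).symm

end Pool.Agent.E8helper4.AB
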