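import Pool.Agent.E8helper4.AB.Glob
import Pool.Agent.E8helper4.AB.Ift

/-!
# AB: the limits of the solutions of an equation at a boundary point of a disc
-/

set_option autoImplicit false

open Complex Metric Set Filter Topology

namespace Pool.Agent.E8helper4.AB

/-- separation of a finite set -/
theorem sep (S : Finset ℂ) : ∃ d : ℝ, 0 < d ∧ ∀ s ∈ S, ∀ s' ∈ S, ‖s - s'‖ < 2 * d → s = s' := by
  rcases S.offDiag.eq_empty_or_nonempty with h | h
  · refine ⟨1, one_pos, fun s hs s' hs' _ => ?_⟩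
    by_contra hne
    have : (s, s') ∈ S.offDiag := Finset.mem_offDiag.2 ⟨hs, hs', hne⟩
    rw [h] at this
    simp at this
  · obtain ⟨p, hp, hmin⟩ := Finset.exists_min_image S.offDiag (fun p => ‖p.1 - p.2‖) h
    have hp' := Finset.mem_offDiag.1 hp
    refine ⟨‖p.1 - p.2‖ / 2, by
      have := norm_pos_iff.2 (sub_ne_zero.2 hp'.2.2)
      linarith, fun s hs s' hs' hlt => ?_⟩
    by_contra hne
    have := hmin (s, s') (Finset.mem_offDiag.2 ⟨hs, hs', hne⟩)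
    simp only at this
    linarith

/-- the solutions near `w1` tend to a solution of the limiting equation -/
theorem alt {R ε0 : ℝ} {w1 : ℂ} (hR : 0 < R) (hw1 : ‖w1‖ = R) (hε0 : 0 < ε0) (m : ℕ)
    (r : ℕ → ℂ → ℂ) (hr : ∀ k, ContinuousAt (r k) 0) (hm : r m 0 ≠ 0) (t x : ℂ → ℂ)
    (ht : Tendsto t (𝓝 w1) (𝓝 0)) (hx : ContinuousOn x (ball w1 ε0 ∩ ball 0 R))
    (hrel : ∀ w ∈ ball w1 ε0, ‖w‖ < R →
      ∑ k ∈ Finset.range (m + 1), r k (t w) * x w ^ k = 0) :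
    ∃ s : ℂ, ∑ k ∈ Finset.range (m + 1), r k 0 * s ^ k = 0 ∧
      ∀ δ : ℝ, 0 < δ → ∃ ε : ℝ, 0 < ε ∧ ε ≤ ε0 ∧ ∀ w ∈ ball w1 ε, ‖w‖ < R → ‖x w - s‖ < δ := by
  classical
  -- the limit polynomial
  obtain ⟨p0, hp0⟩ : ∃ p0 : Polynomial ℂ, p0 = ∑ k ∈ Finset.range (m + 1),
      Polynomial.C (r k 0) * Polynomial.X ^ k := ⟨_, rfl⟩
  have hp0e : ∀ y : ℂ, p0.eval y = ∑ k ∈ Finset.range (m + 1), r k 0 * y ^ k := by
    intro y
    rw [hp0, Polynomial.eval_finset_sum]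
    simp
  have hp0c : p0.coeff m = r m 0 := by
    rw [hp0, Polynomial.finset_sum_coeff]
    simp only [Polynomial.coeff_C_mul, Polynomial.coeff_X_pow]
    rw [Finset.sum_eq_single m]
    · simp
    · intro b _ hb
      rw [if_neg (Ne.symm hb), mul_zero]
    · intro h
      exact absurd (Finset.mem_range.2 (Nat.lt_succ_self m)) h
  have hp0ne : p0 ≠ 0 := by
    intro h
    rw [h, Polynomial.coeff_zero] at hp0c
    exact hm hp0c.symm
  obtain ⟨S, hS⟩ : ∃ S : Finset ℂ, S = p0.roots.toFinset := ⟨_, rfl⟩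
  have hSm : ∀ y : ℂ, y ∈ S ↔ ∑ k ∈ Finset.range (m + 1), r k 0 * y ^ k = 0 := by
    intro y
    rw [hS, Multiset.mem_toFinset, Polynomial.mem_roots hp0ne, Polynomial.IsRoot, hp0e]
  -- a bound for the solutions
  obtain ⟨M, hM0, hM⟩ : ∃ M : ℝ, 0 < M ∧ ∀ᶠ Z in 𝓝 (0 : ℂ), ∀ y : ℂ,
      ∑ k ∈ Finset.range (m + 1), r k Z * y ^ k = 0 → ‖y‖ ≤ M := by
    obtain ⟨A, hA⟩ : ∃ A : ℝ, A = ∑ k ∈ Finset.range m, (‖r k 0‖ + 1) := ⟨_, rfl⟩
    have hA0 : 0 ≤ A := by
      rw [hA]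
      exact Finset.sum_nonneg fun k _ => by positivity
    have hm' : 0 < ‖r m 0‖ := norm_pos_iff.2 hm
    refine ⟨1 + 2 * A / ‖r m 0‖, by positivity, ?_⟩
    have h1 : ∀ᶠ Z in 𝓝 (0 : ℂ), ‖r m 0‖ / 2 < ‖r m Z‖ :=
      continuousAt_const.eventually_lt (hr m).norm (by linarith)
    have h2 : ∀ᶠ Z in 𝓝 (0 : ℂ), ∀ k ∈ Finset.range m, ‖r k Z‖ < ‖r k 0‖ + 1 := by
      rw [Filter.eventually_all_finset]
      intro k _
      exact (hr k).norm.eventually_lt continuousAt_const (by linarith)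
    filter_upwards [h1, h2] with Z h1 h2 y hy
    by_contra hcon
    push Not at hcon
    have hy1 : 1 < ‖y‖ := by
      have : 0 ≤ 2 * A / ‖r m 0‖ := by positivity
      linarith
    rw [Finset.sum_range_succ] at hy
    have h3 : ‖r m Z * y ^ m‖ = ‖∑ k ∈ Finset.range m, r k Z * y ^ k‖ := by
      rw [← norm_neg (∑ k ∈ Finset.range m, r k Z * y ^ k)]
      congr 1
      linear_combination hy
    rcases Nat.eq_zero_or_pos m with h0 | h0
    · subst h0
      simp only [Finset.range_zero, Finset.sum_empty, norm_zero, pow_zero, mul_one] at h3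
      rw [h3] at h1
      linarith
    have h4 : ‖∑ k ∈ Finset.range m, r k Z * y ^ k‖ ≤ A * ‖y‖ ^ (m - 1) := by
      refine (norm_sum_le _ _).trans ?_
      rw [hA, Finset.sum_mul]
      refine Finset.sum_le_sum fun k hk => ?_
      rw [norm_mul, norm_pow]
      refine mul_le_mul (h2 k hk).le ?_ (by positivity) (by positivity)
      exact pow_le_pow_right₀ hy1.le (by have := Finset.mem_range.1 hk; omega)
    rw [norm_mul, norm_pow] at h3
    have h5 : ‖y‖ ^ m = ‖y‖ ^ (m - 1) * ‖y‖ := by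
      rw [← pow_succ, Nat.sub_add_cancel h0]
    have h6 : 0 < ‖y‖ ^ (m - 1) := by positivity
    have h7 : ‖r m 0‖ / 2 * ‖y‖ * ‖y‖ ^ (m - 1) ≤ A * ‖y‖ ^ (m - 1) := by
      calc ‖r m 0‖ / 2 * ‖y‖ * ‖y‖ ^ (m - 1) = ‖r m 0‖ / 2 * ‖y‖ ^ m := by rw [h5]; ring
        _ ≤ ‖r m Z‖ * ‖y‖ ^ m := mul_le_mul_of_nonneg_right h1.le (by positivity)
        _ ≤ _ := by rw [h3]; exact h4
    have h8 := le_of_mul_le_mul_right h7 h6
    have h9 : 2 * A / ‖r m 0‖ < ‖y‖ := by linarith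
    rw [div_lt_iff₀ hm'] at h9
    nlinarith
  -- the solutions are close to `S`
  have hclose : ∀ δ : ℝ, 0 < δ → ∀ᶠ Z in 𝓝 (0 : ℂ), ∀ y : ℂ,
      ∑ k ∈ Finset.range (m + 1), r k Z * y ^ k = 0 → ∃ s ∈ S, ‖y - s‖ < δ := by
    intro δ hδ
    obtain ⟨K, hK⟩ : ∃ K : Set ℂ, K = {y | ‖y‖ ≤ M ∧ ∀ s ∈ S, δ ≤ ‖y - s‖} := ⟨_, rfl⟩
    have hKc : IsCompact K := by
      have h1 : IsClosed K := by
        have : K = closedBall 0 M ∩ ⋂ s ∈ S, {y : ℂ | δ ≤ ‖y - s‖} := by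
          ext y
          rw [hK]
          simp
        rw [this]
        refine isClosed_closedBall.inter (isClosed_biInter fun s _ => ?_)
        exact isClosed_le continuous_const (by fun_prop)
      refine (isCompact_closedBall (0 : ℂ) M).of_isClosed_subset h1 ?_
      intro y hy
      rw [hK] at hy
      exact mem_closedBall_zero_iff.2 hy.1
    have hpos : ∃ c : ℝ, 0 < c ∧ ∀ y ∈ K, c ≤ ‖p0.eval y‖ := by
      rcases K.eq_empty_or_nonempty with he | hne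
      · exact ⟨1, one_pos, fun y hy => by rw [he] at hy; exact absurd hy (notMem_empty y)⟩
      · obtain ⟨y0, hy0, hmin⟩ := hKc.exists_isMinOn hne
          (p0.continuous.norm.continuousOn)
        refine ⟨‖p0.eval y0‖, ?_, fun y hy => hmin hy⟩
        rw [norm_pos_iff]
        intro h0
        rw [hp0e, ← hSm] at h0
        rw [hK] at hy0
        have := hy0.2 y0 h0
        rw [sub_self, norm_zero] at this
        linarith
    obtain ⟨c, hc, hcK⟩ := hpos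
    have hcont : ContinuousAt (fun Z : ℂ => ∑ k ∈ Finset.range (m + 1),
        ‖r k Z - r k 0‖ * M ^ k) 0 := by
      have h1 : ∀ k ∈ Finset.range (m + 1),
          Tendsto (fun Z : ℂ => ‖r k Z - r k 0‖ * M ^ k) (𝓝 0) (𝓝 (‖r k 0 - r k 0‖ * M ^ k)) :=
        fun k _ => (((hr k).sub continuousAt_const).norm.mul continuousAt_const)
      exact tendsto_finset_sum _ h1
    have hval : ∑ k ∈ Finset.range (m + 1), ‖r k 0 - r k 0‖ * M ^ k < c := by
      simpa using hc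
    filter_upwards [hM, hcont.eventually_lt continuousAt_const hval] with Z h1 h2 y hy
    by_contra hcon
    push Not at hcon
    have hyK : y ∈ K := by
      rw [hK]
      exact ⟨h1 y hy, hcon⟩
    have h3 := hcK y hyK
    have h4 : ‖p0.eval y‖ ≤ ∑ k ∈ Finset.range (m + 1), ‖r k Z - r k 0‖ * M ^ k := by
      have e1 : p0.eval y = -∑ k ∈ Finset.range (m + 1), (r k Z - r k 0) * y ^ k := by
        rw [hp0e]
        simp only [sub_mul, Finset.sum_sub_distrib]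
        rw [hy]
        ring
      rw [e1, norm_neg]
      refine (norm_sum_le _ _).trans (Finset.sum_le_sum fun k _ => ?_)
      rw [norm_mul, norm_pow]
      exact mul_le_mul_of_nonneg_left (pow_le_pow_left₀ (norm_nonneg _) (h1 y hy) k)
        (norm_nonneg _)
    linarith
  have hreg : ∀ δ : ℝ, 0 < δ → ∃ ε : ℝ, 0 < ε ∧ ε ≤ ε0 ∧ ∀ w ∈ ball w1 ε, ‖w‖ < R →
      ∃ s ∈ S, ‖x w - s‖ < δ := by
    intro δ hδ
    obtain ⟨ε, hε, h1⟩ := Metric.eventually_nhds_iff_ball.1 (ht.eventually (hclose δ hδ))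
    refine ⟨min ε ε0, lt_min hε hε0, min_le_right _ _, fun w hw hwR => ?_⟩
    exact h1 w (ball_subset_ball (min_le_left _ _) hw) (x w)
      (hrel w (ball_subset_ball (min_le_right _ _) hw) hwR)
  obtain ⟨d, hd, hsep⟩ := sep S
  obtain ⟨ε1, hε1, hε10, hreg1⟩ := hreg d hd
  obtain ⟨q, hq1, hq2⟩ := exists_near hR hw1.le hε1
  obtain ⟨s0, hs0, hqs⟩ := hreg1 q hq1 hq2
  -- connectedness
  have hin : ∀ w ∈ ball w1 ε1, ‖w‖ < R → ‖x w - s0‖ < d := by
    have hpre : IsPreconnected (x '' (ball w1 ε1 ∩ ball 0 R)) := by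
      refine IsPreconnected.image ?_ _ (hx.mono (inter_subset_inter_left _
        (ball_subset_ball hε10)))
      exact ((convex_ball w1 ε1).inter (convex_ball _ _)).isPreconnected
    have hsub := hpre.subset_left_of_subset_union (u := ball s0 d)
      (v := ⋃ s ∈ S.erase s0, ball s d) isOpen_ball
      (isOpen_biUnion fun _ _ => isOpen_ball) ?_ ?_ ?_
    · intro w hw hwR
      have := hsub (mem_image_of_mem x ⟨hw, mem_ball_zero_iff.2 hwR⟩)
      rwa [mem_ball_iff_norm] at this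
    · rw [Set.disjoint_left]
      intro y hy hy2
      simp only [mem_iUnion] at hy2
      obtain ⟨s, hs, hys⟩ := hy2
      rw [mem_ball_iff_norm] at hy hys
      have h1 : ‖s - s0‖ < 2 * d := by
        have : s - s0 = (y - s0) - (y - s) := by ring
        rw [this]
        linarith [norm_sub_le (y - s0) (y - s)]
      exact (Finset.mem_erase.1 hs).1 (hsep s (Finset.mem_erase.1 hs).2 s0 hs0 h1)
    · rintro _ ⟨w, ⟨hw, hwR⟩, rfl⟩
      obtain ⟨s, hs, hxs⟩ := hreg1 w hw (mem_ball_zero_iff.1 hwR)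
      by_cases hss : s = s0
      · left
        rw [mem_ball_iff_norm, ← hss]
        exact hxs
      · right
        simp only [mem_iUnion]
        exact ⟨s, Finset.mem_erase.2 ⟨hss, hs⟩, by rwa [mem_ball_iff_norm]⟩
    · exact ⟨x q, mem_image_of_mem x ⟨hq1, mem_ball_zero_iff.2 hq2⟩, by
        rwa [mem_ball_iff_norm]⟩
  refine ⟨s0, (hSm s0).1 hs0, fun δ hδ => ?_⟩
  obtain ⟨ε2, hε2, hε20, hreg2⟩ := hreg (min δ d) (lt_min hδ hd)
  refine ⟨min ε1 ε2, lt_min hε1 hε2, (min_le_left _ _).trans hε10, fun w hw hwR => ?_⟩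
  obtain ⟨s, hs, hxs⟩ := hreg2 w (ball_subset_ball (min_le_right _ _) hw) hwR
  have h1 := hin w (ball_subset_ball (min_le_left _ _) hw) hwR
  have h2 : s = s0 := by
    refine hsep s hs s0 hs0 ?_
    have : s - s0 = (x w - s0) - (x w - s) := by ring
    rw [this]
    have h3 := norm_sub_le (x w - s0) (x w - s)
    have h4 : ‖x w - s‖ < d := hxs.trans_le (min_le_right _ _)
    linarith
  rw [← h2]
  exact hxs.trans_le (min_le_left _ _)

/-- at a simple root of the limiting equation the solution is a holomorphic function of `t` -/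
theorem core {R ε0 : ℝ} {w1 : ℂ} (hR : 0 < R) (hw1 : ‖w1‖ = R) (hε0 : 0 < ε0) (m : ℕ)
    (r : ℕ → ℂ → ℂ) (hr : ∀ k, ContDiff ℂ 1 (r k)) (hm : r m 0 ≠ 0) (t x : ℂ → ℂ)
    (ht : DifferentiableOn ℂ t (ball w1 ε0)) (ht0 : t w1 = 0)
    (hx : ContinuousOn x (ball w1 ε0 ∩ ball 0 R))
    (hrel : ∀ w ∈ ball w1 ε0, ‖w‖ < R →
      ∑ k ∈ Finset.range (m + 1), r k (t w) * x w ^ k = 0) :
    ∃ s : ℂ, ∑ k ∈ Finset.range (m + 1), r k 0 * s ^ k = 0 ∧
      (∀ δ : ℝ, 0 < δ → ∃ ε : ℝ, 0 < ε ∧ ε ≤ ε0 ∧ ∀ w ∈ ball w1 ε, ‖w‖ < R → ‖x w - s‖ < δ) ∧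
      (∑ k ∈ Finset.range (m + 1), r k 0 * (k * s ^ (k - 1)) ≠ 0 →
        ∃ (δ : ℝ) (X : ℂ → ℂ), 0 < δ ∧ δ ≤ ε0 ∧ DifferentiableOn ℂ (fun w => X (t w)) (ball w1 δ) ∧
          X 0 = s ∧ ∀ w ∈ ball w1 δ, ‖w‖ < R → x w = X (t w)) := by
  have htc : Tendsto t (𝓝 w1) (𝓝 0) := by
    have := (ht.differentiableAt (ball_mem_nhds w1 hε0)).continuousAt.tendsto
    rwa [ht0] at this
  obtain ⟨s, hs, hlim⟩ := alt hR hw1 hε0 m r (fun k => (hr k).continuous.continuousAt) hm t x htc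
    hx hrel
  refine ⟨s, hs, hlim, fun hd => ?_⟩
  have hF : ContDiff ℂ 1 (fun p : ℂ × ℂ => ∑ k ∈ Finset.range (m + 1), r k p.1 * p.2 ^ k) := by
    refine ContDiff.sum fun k _ => ?_
    exact ((hr k).comp contDiff_fst).mul (contDiff_snd.pow k)
  have hder : HasDerivAt (fun y : ℂ => ∑ k ∈ Finset.range (m + 1), r k 0 * y ^ k)
      (∑ k ∈ Finset.range (m + 1), r k 0 * (k * s ^ (k - 1))) s := by
    refine HasDerivAt.fun_sum fun k _ => ?_
    exact (hasDerivAt_pow k s).const_mul (r k 0)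
  obtain ⟨δ1, X, hδ1, hX, hX0, hXu⟩ := ift (fun p : ℂ × ℂ =>
    ∑ k ∈ Finset.range (m + 1), r k p.1 * p.2 ^ k) s _ hF.contDiffAt hs hder hd
  obtain ⟨ε1, hε1, hε10, h1⟩ := hlim δ1 hδ1
  obtain ⟨ε2, hε2, h2⟩ := Metric.eventually_nhds_iff_ball.1 (htc.eventually (ball_mem_nhds 0 hδ1))
  have hmem : ∀ w ∈ ball w1 (min ε1 ε2), t w ∈ ball (0 : ℂ) δ1 := fun w hw =>
    h2 w (ball_subset_ball (min_le_right _ _) hw)
  refine ⟨min ε1 ε2, X, lt_min hε1 hε2, (min_le_left _ _).trans hε10, ?_, hX0, ?_⟩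
  · refine hX.comp (ht.mono (ball_subset_ball ((min_le_left _ _).trans hε10))) hmem
  · intro w hw hwR
    refine hXu (t w) (hmem w hw) (x w) ?_
      (hrel w (ball_subset_ball ((min_le_left _ _).trans hε10) hw) hwR)
    rw [mem_ball_iff_norm]
    exact h1 w (ball_subset_ball (min_le_left _ _) hw) hwR

end Pool.Agent.E8helper4.AB
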