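import Pool.Agent.E8helper4.AB.Red

/-!
# AB: two local lemmas: simple zeros of the leading coefficient, and dominating poles
-/

set_option autoImplicit false

open Complex Metric Set Filter Topology ComplexConjugate
open Pool.Agent.Results.MP_83fd13_an.BranchSingularities
open Pool.Agent.Y245.UC (Rf)

namespace Pool.Agent.E8helper4.AB

/-- the leading coefficient has at most a simple zero -/
theorem locB {Φ : ℂ → ℂ} {r lam R ε0 C : ℝ} {w1 b : ℂ} {t : ℂ → ℂ} (hr : 1 < r) (hrR : r ≤ R)
    (hlam : 0 < lam) (hΦ : DifferentiableOn ℂ Φ (ball 0 R)) (hBB : BranchesBlowUp Φ r lam)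
    (hNI : NoFiniteIsolatedSingularity Φ r) (hw1 : ‖w1‖ = R) (hε0 : 0 < ε0) (hC : 0 < C)
    (htd : DifferentiableOn ℂ t (ball w1 ε0)) (ht0 : t w1 = 0)
    (htn : ∀ w ∈ ball w1 ε0, w ≠ w1 → t w ≠ 0)
    (hlow : ∀ w ∈ ball w1 ε0, ‖w - w1‖ ≤ C * ‖t w‖) (m e : ℕ) (he1 : e ≤ 1)
    (q : ℕ → Polynomial ℂ) (g : Polynomial ℂ) (hg : g.eval 0 ≠ 0)
    (hqm : q m = Polynomial.X ^ e * g)
    (hrel : ∀ w ∈ ball w1 ε0, ‖w‖ < R →
      ∑ k ∈ Finset.range (m + 1), (q k).eval (t w) * (Φ w - b) ^ k = 0) : LocExt Φ R w1 := by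
  -- the coefficients of the transformed equation
  obtain ⟨rr, hrr⟩ : ∃ rr : ℕ → ℂ → ℂ, rr = fun k Z => if k = m then g.eval Z else
      (q k).eval Z * Z ^ (m - e - k) := ⟨_, rfl⟩
  have hrrc : ∀ k, ContDiff ℂ 1 (rr k) := by
    intro k
    rw [hrr]
    simp only
    by_cases hk : k = m
    · simp only [if_pos hk]
      exact g.differentiable.contDiff
    · simp only [if_neg hk]
      exact ((q k).differentiable.contDiff).mul (by fun_prop)
  have hrrm : rr m 0 ≠ 0 := by
    rw [hrr]
    simp only [if_true]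
    exact hg
  have hxc : ContinuousOn (fun w => t w * (Φ w - b)) (ball w1 ε0 ∩ ball 0 R) :=
    (htd.continuousOn.mono inter_subset_left).mul
      ((hΦ.continuousOn.mono inter_subset_right).sub continuousOn_const)
  have hrelx : ∀ w ∈ ball w1 ε0, ‖w‖ < R →
      ∑ k ∈ Finset.range (m + 1), rr k (t w) * (t w * (Φ w - b)) ^ k = 0 := by
    intro w hw hwR
    have hne : w ≠ w1 := by
      rintro rfl
      linarith
    have htw0 : t w ≠ 0 := htn w hw hne
    have h1 := hrel w hw hwR
    have h2 : t w ^ e * ∑ k ∈ Finset.range (m + 1), rr k (t w) * (t w * (Φ w - b)) ^ k =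
        t w ^ m * ∑ k ∈ Finset.range (m + 1), (q k).eval (t w) * (Φ w - b) ^ k := by
      rw [Finset.mul_sum, Finset.mul_sum]
      refine Finset.sum_congr rfl fun k hk => ?_
      have hkm : k ≤ m := Nat.lt_succ_iff.1 (Finset.mem_range.1 hk)
      rw [hrr]
      simp only
      by_cases hkm' : k = m
      · rw [if_pos hkm', hkm', hqm, Polynomial.eval_mul, Polynomial.eval_pow, Polynomial.eval_X,
          mul_pow]
        ring
      · rw [if_neg hkm']
        have hk2 : e + (m - e - k) + k = m := by omega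
        have h3 : t w ^ m = t w ^ e * t w ^ (m - e - k) * t w ^ k := by
          rw [← pow_add, ← pow_add, hk2]
        rw [h3, mul_pow]
        ring
    rw [h1, mul_zero] at h2
    exact (mul_eq_zero.1 h2).resolve_left (pow_ne_zero _ htw0)
  obtain ⟨s, hs, hlim, hsimple⟩ := core (by linarith) hw1 hε0 m rr hrrc hrrm t
    (fun w => t w * (Φ w - b)) htd ht0 hxc hrelx
  by_cases hs0 : s = 0
  · refine fin_small (b := b) hr hrR hlam hΦ hBB hw1 hε0 hC hlow fun δ hδ => ?_
    obtain ⟨ε, h1, h2, h3⟩ := hlim δ hδ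
    refine ⟨ε, h1, h2, fun w hw hwR => ?_⟩
    have := h3 w hw hwR
    rwa [hs0, sub_zero] at this
  · -- simple root
    have hzero : ∀ k ∈ Finset.range (m + 1), k ≠ m → k + 1 ≠ m → rr k 0 = 0 := by
      intro k hk hkm hkm1
      have hkm' : k ≤ m := Nat.lt_succ_iff.1 (Finset.mem_range.1 hk)
      rw [hrr]
      simp only
      rw [if_neg hkm, zero_pow (by omega), mul_zero]
    have hd : ∑ k ∈ Finset.range (m + 1), rr k 0 * (k * s ^ (k - 1)) ≠ 0 := by
      intro hcon
      have h1 : ∑ k ∈ Finset.range (m + 1), (((k : ℂ) - ((m : ℂ) - 1)) * (rr k 0 * s ^ k)) =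
          rr m 0 * s ^ m := by
        rw [Finset.sum_eq_single m]
        · ring
        · intro k hk hkm
          by_cases hk1 : k + 1 = m
          · have : (k : ℂ) - ((m : ℂ) - 1) = 0 := by
              rw [← hk1]
              push_cast
              ring
            rw [this, zero_mul]
          · rw [hzero k hk hkm hk1, zero_mul, mul_zero]
        · intro h
          exact absurd (Finset.mem_range.2 (Nat.lt_succ_self m)) h
      have h2 : ∑ k ∈ Finset.range (m + 1), (((k : ℂ) - ((m : ℂ) - 1)) * (rr k 0 * s ^ k)) =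
          s * ∑ k ∈ Finset.range (m + 1), rr k 0 * (k * s ^ (k - 1)) -
          ((m : ℂ) - 1) * ∑ k ∈ Finset.range (m + 1), rr k 0 * s ^ k := by
        rw [Finset.mul_sum, Finset.mul_sum, ← Finset.sum_sub_distrib]
        refine Finset.sum_congr rfl fun k _ => ?_
        rcases Nat.eq_zero_or_pos k with hk | hk
        · subst hk
          simp
          ring
        · have : s ^ k = s ^ (k - 1) * s := by rw [← pow_succ, Nat.sub_add_cancel hk]
          rw [this]
          ring
      rw [h1, hcon, hs, mul_zero, mul_zero, sub_zero] at h2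
      exact mul_ne_zero hrrm (pow_ne_zero _ hs0) h2
    obtain ⟨δ, X, hδ, hδε, hX, -, hXφ⟩ := hsimple hd
    refine fin_pole (b := b) 1 hr hrR hΦ hNI hw1 htd htn X δ hδ hδε hX fun w hw hwR => ?_
    rw [← hXφ w hw hwR]
    ring

/-- one dominating pole: the next coefficient does not vanish -/
theorem locC {Φ : ℂ → ℂ} {r lam R ε0 C : ℝ} {w1 b : ℂ} {t : ℂ → ℂ} (hr : 1 < r) (hrR : r ≤ R)
    (hlam : 0 < lam) (hΦ : DifferentiableOn ℂ Φ (ball 0 R)) (hBB : BranchesBlowUp Φ r lam)
    (hNI : NoFiniteIsolatedSingularity Φ r) (hw1 : ‖w1‖ = R) (hε0 : 0 < ε0) (hC : 0 < C)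
    (htd : DifferentiableOn ℂ t (ball w1 ε0)) (ht0 : t w1 = 0)
    (htn : ∀ w ∈ ball w1 ε0, w ≠ w1 → t w ≠ 0)
    (hlow : ∀ w ∈ ball w1 ε0, ‖w - w1‖ ≤ C * ‖t w‖) (m e : ℕ) (he1 : 1 ≤ e)
    (q : ℕ → Polynomial ℂ) (g : Polynomial ℂ) (hg : g.eval 0 ≠ 0)
    (hqm : q (m + 1) = Polynomial.X ^ e * g) (hqm1 : (q m).eval 0 ≠ 0)
    (hrel : ∀ w ∈ ball w1 ε0, ‖w‖ < R →
      ∑ k ∈ Finset.range (m + 2), (q k).eval (t w) * (Φ w - b) ^ k = 0) : LocExt Φ R w1 := by
  obtain ⟨rr, hrr⟩ : ∃ rr : ℕ → ℂ → ℂ, rr = fun k Z => if k = m + 1 then g.eval Z else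
      (q k).eval Z * Z ^ (e * (m - k)) := ⟨_, rfl⟩
  have hrrc : ∀ k, ContDiff ℂ 1 (rr k) := by
    intro k
    rw [hrr]
    simp only
    by_cases hk : k = m + 1
    · simp only [if_pos hk]
      exact g.differentiable.contDiff
    · simp only [if_neg hk]
      exact ((q k).differentiable.contDiff).mul (by fun_prop)
  have hrrm : rr (m + 1) 0 ≠ 0 := by
    rw [hrr]
    simp only [if_true]
    exact hg
  have hrrm1 : rr m 0 ≠ 0 := by
    rw [hrr]
    simp only
    rw [if_neg (by omega), Nat.sub_self, mul_zero, pow_zero, mul_one]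
    exact hqm1
  have hxc : ContinuousOn (fun w => t w ^ e * (Φ w - b)) (ball w1 ε0 ∩ ball 0 R) :=
    ((htd.continuousOn.pow e).mono inter_subset_left).mul
      ((hΦ.continuousOn.mono inter_subset_right).sub continuousOn_const)
  have hrelx : ∀ w ∈ ball w1 ε0, ‖w‖ < R →
      ∑ k ∈ Finset.range (m + 1 + 1), rr k (t w) * (t w ^ e * (Φ w - b)) ^ k = 0 := by
    intro w hw hwR
    have hne : w ≠ w1 := by
      rintro rfl
      linarith
    have h1 := hrel w hw hwR
    have h2 : ∑ k ∈ Finset.range (m + 1 + 1), rr k (t w) * (t w ^ e * (Φ w - b)) ^ k =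
        t w ^ (e * m) * ∑ k ∈ Finset.range (m + 2), (q k).eval (t w) * (Φ w - b) ^ k := by
      rw [Finset.mul_sum]
      refine Finset.sum_congr rfl fun k hk => ?_
      have hkm : k ≤ m + 1 := Nat.lt_succ_iff.1 (Finset.mem_range.1 hk)
      rw [hrr]
      simp only
      by_cases hkm' : k = m + 1
      · rw [if_pos hkm', hkm', hqm, Polynomial.eval_mul, Polynomial.eval_pow, Polynomial.eval_X,
          mul_pow, ← pow_mul]
        have : t w ^ (e * (m + 1)) = t w ^ (e * m) * t w ^ e := by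
          rw [← pow_add]
          congr 1
        rw [this]
        ring
      · rw [if_neg hkm', mul_pow, ← pow_mul]
        have h3 : t w ^ (e * m) = t w ^ (e * (m - k)) * t w ^ (e * k) := by
          rw [← pow_add, ← mul_add]
          congr 2
          omega
        rw [h3]
        ring
    rw [h2, h1, mul_zero]
  obtain ⟨s, hs, hlim, hsimple⟩ := core (by linarith) hw1 hε0 (m + 1) rr hrrc hrrm t
    (fun w => t w ^ e * (Φ w - b)) htd ht0 hxc hrelx
  by_cases hs0 : s = 0
  · -- the function is bounded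
    have htc : Tendsto t (𝓝 w1) (𝓝 0) := by
      have := (htd.differentiableAt (ball_mem_nhds w1 hε0)).continuousAt.tendsto
      rwa [ht0] at this
    obtain ⟨A, hA0, hA⟩ : ∃ A : ℝ, 0 < A ∧ ∀ᶠ Z in 𝓝 (0 : ℂ),
        ∀ k ∈ Finset.range (m + 2), ‖(q k).eval Z‖ < A ∧ ‖g.eval Z‖ < A := by
      obtain ⟨A, hAd⟩ : ∃ A : ℝ, A = 1 + ‖g.eval 0‖ +
        ∑ k ∈ Finset.range (m + 2), ‖(q k).eval 0‖ := ⟨_, rfl⟩
      have hsum : 0 ≤ ∑ k ∈ Finset.range (m + 2), ‖(q k).eval 0‖ :=
        Finset.sum_nonneg fun k _ => norm_nonneg _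
      refine ⟨A, by rw [hAd]; positivity, ?_⟩
      rw [Filter.eventually_all_finset]
      intro k hk
      have hk1 : ‖(q k).eval 0‖ ≤ ∑ k ∈ Finset.range (m + 2), ‖(q k).eval 0‖ :=
        Finset.single_le_sum (f := fun k => ‖(q k).eval 0‖) (fun k _ => norm_nonneg _) hk
      exact ((q k).continuous.continuousAt.norm.eventually_lt continuousAt_const
        (by rw [hAd]; linarith [norm_nonneg (g.eval 0)])).and
        (g.continuous.continuousAt.norm.eventually_lt continuousAt_const (by rw [hAd]; linarith))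
    obtain ⟨c, hc⟩ : ∃ c, c = ‖(q m).eval 0‖ := ⟨_, rfl⟩
    have hc0 : 0 < c := by rw [hc]; exact norm_pos_iff.2 hqm1
    have hcm : ∀ᶠ Z in 𝓝 (0 : ℂ), 2 / 3 * c < ‖(q m).eval Z‖ := by
      refine continuousAt_const.eventually_lt (q m).continuous.continuousAt.norm ?_
      rw [← hc]
      linarith
    obtain ⟨ε1, hε1, h1⟩ := Metric.eventually_nhds_iff_ball.1 (htc.eventually (hA.and hcm))
    obtain ⟨ε2, hε2, hε20, h2⟩ := hlim (c / (3 * A)) (by positivity)
    -- the bound
    have hbd : ∀ w ∈ ball w1 (min ε1 ε2), ‖w‖ < R → ‖Φ w - b‖ ≤ 1 + 3 * (m * A) / c := by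
      intro w hw hwR
      have hw1' := ball_subset_ball (min_le_left _ _) hw
      have hw2' := ball_subset_ball (min_le_right _ _) hw
      obtain ⟨hA', hcm'⟩ := h1 w hw1'
      have hx := h2 w hw2' hwR
      rw [hs0, sub_zero] at hx
      by_contra hcon
      push Not at hcon
      obtain ⟨y, hy⟩ : ∃ y, y = Φ w - b := ⟨_, rfl⟩
      have hr1 := hrel w (ball_subset_ball hε20 hw2') hwR
      rw [← hy] at hcon hx hr1
      have hy1 : 1 < ‖y‖ := by
        have : 0 ≤ 3 * (m * A) / c := by positivity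
        linarith
      rw [Finset.sum_range_succ, Finset.sum_range_succ, hqm, Polynomial.eval_mul,
        Polynomial.eval_pow, Polynomial.eval_X] at hr1
      have e1 : ((q m).eval (t w) + (t w ^ e * y) * g.eval (t w)) * y ^ m =
          -∑ k ∈ Finset.range m, (q k).eval (t w) * y ^ k := by
        linear_combination hr1
      have e2 : c / 3 ≤ ‖(q m).eval (t w) + (t w ^ e * y) * g.eval (t w)‖ := by
        have e3 : ‖(t w ^ e * y) * g.eval (t w)‖ ≤ c / 3 := by
          rw [norm_mul]
          have e4 := (hA' m (Finset.mem_range.2 (by omega))).2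
          calc ‖t w ^ e * y‖ * ‖g.eval (t w)‖ ≤ c / (3 * A) * A :=
                mul_le_mul hx.le e4.le (norm_nonneg _) (by positivity)
            _ = c / 3 := by field_simp
        have e5 := norm_sub_le ((q m).eval (t w) + (t w ^ e * y) * g.eval (t w))
          ((t w ^ e * y) * g.eval (t w))
        rw [add_sub_cancel_right] at e5
        linarith
      rcases Nat.eq_zero_or_pos m with h0 | h0
      · subst h0
        simp only [Finset.range_zero, Finset.sum_empty, neg_zero, pow_zero, mul_one] at e1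
        rw [e1, norm_zero] at e2
        linarith
      · have e6 : ‖∑ k ∈ Finset.range m, (q k).eval (t w) * y ^ k‖ ≤ m * A * ‖y‖ ^ (m - 1) := by
          refine (norm_sum_le _ _).trans ?_
          have : ∀ k ∈ Finset.range m, ‖(q k).eval (t w) * y ^ k‖ ≤ A * ‖y‖ ^ (m - 1) := by
            intro k hk
            have hk' := Finset.mem_range.1 hk
            rw [norm_mul, norm_pow]
            refine mul_le_mul (hA' k (Finset.mem_range.2 (by omega))).1.le ?_ (by positivity)
              hA0.le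
            exact pow_le_pow_right₀ hy1.le (by omega)
          refine (Finset.sum_le_sum this).trans (le_of_eq ?_)
          rw [Finset.sum_const, Finset.card_range, nsmul_eq_mul]
          ring
        have e7 : c / 3 * ‖y‖ ^ m ≤ m * A * ‖y‖ ^ (m - 1) := by
          calc c / 3 * ‖y‖ ^ m ≤ ‖(q m).eval (t w) + (t w ^ e * y) * g.eval (t w)‖ * ‖y‖ ^ m :=
                mul_le_mul_of_nonneg_right e2 (by positivity)
            _ = ‖((q m).eval (t w) + (t w ^ e * y) * g.eval (t w)) * y ^ m‖ := by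
                rw [norm_mul, norm_pow]
            _ ≤ _ := by rw [e1, norm_neg]; exact e6
        have e8 : ‖y‖ ^ m = ‖y‖ * ‖y‖ ^ (m - 1) := by
          rw [← pow_succ', Nat.sub_add_cancel h0]
        rw [e8, ← mul_assoc] at e7
        have e9 := le_of_mul_le_mul_right e7 (by positivity)
        have e10 : ‖y‖ ≤ 3 * (m * A) / c := by
          rw [le_div_iff₀ hc0]
          linarith
        linarith
    refine fin_small (b := b) hr hrR hlam hΦ hBB hw1 hε0 hC hlow fun δ hδ => ?_
    obtain ⟨B, hB⟩ : ∃ B : ℝ, B = 1 + 3 * (m * A) / c := ⟨_, rfl⟩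
    have hB0 : 0 < B := by rw [hB]; positivity
    obtain ⟨ε3, hε3, h3⟩ := Metric.eventually_nhds_iff_ball.1
      (htc.eventually (ball_mem_nhds (0 : ℂ) (show 0 < δ / B by positivity)))
    refine ⟨min (min ε1 ε2) ε3, lt_min (lt_min hε1 hε2) hε3,
      ((min_le_left _ _).trans (min_le_right _ _)).trans hε20, fun w hw hwR => ?_⟩
    have h4 := hbd w (ball_subset_ball (min_le_left _ _) hw) hwR
    have h5 := h3 w (ball_subset_ball (min_le_right _ _) hw)
    rw [dist_zero_right] at h5
    rw [← hB] at h4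
    rw [norm_mul]
    calc ‖t w‖ * ‖Φ w - b‖ ≤ ‖t w‖ * B := mul_le_mul_of_nonneg_left h4 (norm_nonneg _)
      _ < δ / B * B := mul_lt_mul_of_pos_right h5 hB0
      _ = δ := by field_simp
  · -- simple root
    have hzero : ∀ k ∈ Finset.range (m + 1 + 1), k ≠ m + 1 → k ≠ m → rr k 0 = 0 := by
      intro k hk hkm hkm1
      have hkm' : k ≤ m + 1 := Nat.lt_succ_iff.1 (Finset.mem_range.1 hk)
      rw [hrr]
      simp only
      have : e * (m - k) ≠ 0 := by
        have h1 : 0 < m - k := by omega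
        positivity
      rw [if_neg hkm, zero_pow this, mul_zero]
    have hd : ∑ k ∈ Finset.range (m + 1 + 1), rr k 0 * (k * s ^ (k - 1)) ≠ 0 := by
      intro hcon
      have h1 : ∑ k ∈ Finset.range (m + 1 + 1), (((k : ℂ) - (m : ℂ)) * (rr k 0 * s ^ k)) =
          rr (m + 1) 0 * s ^ (m + 1) := by
        rw [Finset.sum_eq_single (m + 1)]
        · push_cast
          ring
        · intro k hk hkm
          by_cases hk1 : k = m
          · rw [hk1, sub_self, zero_mul]
          · rw [hzero k hk hkm hk1, zero_mul, mul_zero]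
        · intro h
          exact absurd (Finset.mem_range.2 (Nat.lt_succ_self (m + 1))) h
      have h2 : ∑ k ∈ Finset.range (m + 1 + 1), (((k : ℂ) - (m : ℂ)) * (rr k 0 * s ^ k)) =
          s * ∑ k ∈ Finset.range (m + 1 + 1), rr k 0 * (k * s ^ (k - 1)) -
          (m : ℂ) * ∑ k ∈ Finset.range (m + 1 + 1), rr k 0 * s ^ k := by
        rw [Finset.mul_sum, Finset.mul_sum, ← Finset.sum_sub_distrib]
        refine Finset.sum_congr rfl fun k _ => ?_
        rcases Nat.eq_zero_or_pos k with hk | hk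
        · subst hk
          simp
        · have : s ^ k = s ^ (k - 1) * s := by rw [← pow_succ, Nat.sub_add_cancel hk]
          rw [this]
          ring
      rw [h1, hcon, hs, mul_zero, mul_zero, sub_zero] at h2
      exact mul_ne_zero hrrm (pow_ne_zero _ hs0) h2
    obtain ⟨δ, X, hδ, hδε, hX, -, hXφ⟩ := hsimple hd
    exact fin_pole (b := b) e hr hrR hΦ hNI hw1 htd htn X δ hδ hδε hX fun w hw hwR =>
      hXφ w hw hwR

end Pool.Agent.E8helper4.AB
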