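import Pool.Agent.E8helper4.AB.Low

/-!
# AB: the exceptional relation of degree five, degenerate cases
-/

set_option autoImplicit false

open Complex Metric Set Filter Topology ComplexConjugate
open Pool.Agent.Results.MP_83fd13_an.BranchSingularities
open Pool.Agent.Y245.UC (Rf)

namespace Pool.Agent.E8helper4.AB

/-- at a simple root of the limiting equation `Φ` extends -/
theorem simple_ext {Φ : ℂ → ℂ} {r R ε0 : ℝ} {w1 b : ℂ} {t : ℂ → ℂ} (hr : 1 < r)
    (hrR : r ≤ R) (hΦ : DifferentiableOn ℂ Φ (ball 0 R))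
    (hNI : NoFiniteIsolatedSingularity Φ r) (hw1 : ‖w1‖ = R) (hε0 : 0 < ε0)
    (htd : DifferentiableOn ℂ t (ball w1 ε0)) (ht0 : t w1 = 0)
    (htn : ∀ w ∈ ball w1 ε0, w ≠ w1 → t w ≠ 0) (m : ℕ) (rr : ℕ → ℂ → ℂ)
    (hrr : ∀ k, ContDiff ℂ 1 (rr k)) (hm : rr m 0 ≠ 0) (ϑ : ℂ → ℂ)
    (hϑ : ContinuousOn ϑ (ball w1 ε0 ∩ ball 0 R))
    (hrel : ∀ w ∈ ball w1 ε0, ‖w‖ < R → ∑ k ∈ Finset.range (m + 1), rr k (t w) * ϑ w ^ k = 0)
    (hsimple : ∀ s : ℂ, ∑ k ∈ Finset.range (m + 1), rr k 0 * s ^ k = 0 →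
      ∑ k ∈ Finset.range (m + 1), rr k 0 * (k * s ^ (k - 1)) ≠ 0)
    (V : ℂ → ℂ) (hV : Differentiable ℂ V)
    (hx : ∀ w ∈ ball w1 ε0, ‖w‖ < R → t w * (Φ w - b) = V (ϑ w)) : LocExt Φ R w1 := by
  obtain ⟨s, hs, -, h1⟩ := core (by linarith) hw1 hε0 m rr hrr hm t ϑ htd ht0 hϑ hrel
  obtain ⟨δ, X, hδ, hδε, hX, -, hXφ⟩ := h1 (hsimple s hs)
  refine fin_pole (b := b) 1 hr hrR hΦ hNI hw1 htd htn (fun Z => V (X Z)) δ hδ hδε ?_
    fun w hw hwR => ?_
  · exact hV.comp_differentiableOn hX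
  · rw [← hXφ w hw hwR, ← hx w (ball_subset_ball hδε hw) hwR]
    ring

/-- the degenerate case, `s` real -/
theorem loc_c2r {Φ : ℂ → ℂ} {r R ε0 : ℝ} {w1 b : ℂ} {t : ℂ → ℂ} (hr : 1 < r) (hrR : r ≤ R)
    (hΦ : DifferentiableOn ℂ Φ (ball 0 R))
    (hNI : NoFiniteIsolatedSingularity Φ r) (hw1 : ‖w1‖ = R) (hε0 : 0 < ε0)
    (htd : DifferentiableOn ℂ t (ball w1 ε0)) (ht0 : t w1 = 0)
    (htn : ∀ w ∈ ball w1 ε0, w ≠ w1 → t w ≠ 0) (a a' s l2 l1 : ℂ) (ha : a ≠ 0) (hs : s ≠ 0)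
    (hrel : ∀ w ∈ ball w1 ε0, ‖w‖ < R →
      (t w * (Φ w - b) - s) * (a * (t w * (Φ w - b)) * (t w * (Φ w - b) - s) +
        t w * (l2 * (t w * (Φ w - b)) + l1) + t w ^ 2 * a' * (t w * (Φ w - b) - s)) = 0) :
    LocExt Φ R w1 := by
  have hR : 0 < R := by linarith
  obtain ⟨D, hD⟩ : ∃ D : Set ℂ, D = ball w1 ε0 ∩ ball 0 R := ⟨_, rfl⟩
  have hDo : IsOpen D := by
    rw [hD]
    exact isOpen_ball.inter isOpen_ball
  have hDp : IsPreconnected D := by
    rw [hD]
    exact ((convex_ball w1 ε0).inter (convex_ball _ _)).isPreconnected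
  have hmem : ∀ w ∈ D, w ∈ ball w1 ε0 ∧ ‖w‖ < R := fun w hw => by
    rw [hD] at hw
    exact ⟨hw.1, mem_ball_zero_iff.1 hw.2⟩
  have hmem' : ∀ w ∈ ball w1 ε0, ‖w‖ < R → w ∈ D := fun w hw hwR => by
    rw [hD]
    exact ⟨hw, mem_ball_zero_iff.2 hwR⟩
  have htD : DifferentiableOn ℂ t D := htd.mono (by rw [hD]; exact inter_subset_left)
  have hΦD : DifferentiableOn ℂ Φ D := hΦ.mono (by rw [hD]; exact inter_subset_right)
  have hxD : DifferentiableOn ℂ (fun w => t w * (Φ w - b)) D := htD.mul (hΦD.sub_const b)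
  have h1 : DifferentiableOn ℂ (fun w => t w * (Φ w - b) - s) D := hxD.sub_const s
  have h2 : DifferentiableOn ℂ (fun w => a * (t w * (Φ w - b)) * (t w * (Φ w - b) - s) +
        t w * (l2 * (t w * (Φ w - b)) + l1) + t w ^ 2 * a' * (t w * (Φ w - b) - s)) D :=
    (((hxD.const_mul a).mul h1).add (htD.mul ((hxD.const_mul l2).add_const l1))).add
      (((htD.pow 2).mul_const a').mul h1)
  rcases AnalyticOnNhd.eq_zero_or_eq_zero_of_mul_eq_zero (h1.analyticOnNhd hDo)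
    (h2.analyticOnNhd hDo) (fun w hw => hrel w (hmem w hw).1 (hmem w hw).2) hDp with h3 | h3
  · -- a circle
    refine fin_pole (b := b) 1 hr hrR hΦ hNI hw1 htd htn (fun _ => s) ε0 hε0 le_rfl
      (differentiableOn_const s) fun w hw hwR => ?_
    rw [pow_one]
    exact sub_eq_zero.1 (h3 w (hmem' w hw hwR))
  · obtain ⟨rr, hrr⟩ : ∃ rr : ℕ → ℂ → ℂ, rr = fun k Z => if k = 2 then a else if k = 1 then
        -a * s + Z * l2 + Z ^ 2 * a' else Z * l1 - Z ^ 2 * a' * s := ⟨_, rfl⟩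
    have e0 : ∀ Z, rr 0 Z = Z * l1 - Z ^ 2 * a' * s := fun Z => by rw [hrr]; simp
    have e1 : ∀ Z, rr 1 Z = -a * s + Z * l2 + Z ^ 2 * a' := fun Z => by rw [hrr]; simp
    have e2 : ∀ Z, rr 2 Z = a := fun Z => by rw [hrr]; simp
    refine simple_ext (b := b) hr hrR hΦ hNI hw1 hε0 htd ht0 htn 2 rr ?_ (by rw [e2]; exact ha)
      (fun w => t w * (Φ w - b)) (by rw [← hD]; exact hxD.continuousOn) ?_ ?_ (fun x => x)
      differentiable_id (fun w _ _ => rfl)
    · intro k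
      rw [hrr]
      simp only
      split_ifs <;> fun_prop
    · intro w hw hwR
      rw [Finset.sum_range_succ, Finset.sum_range_succ, Finset.sum_range_one, e0, e1, e2]
      linear_combination h3 w (hmem' w hw hwR)
    · intro x
      rw [Finset.sum_range_succ, Finset.sum_range_succ, Finset.sum_range_one, e0, e1, e2,
        Finset.sum_range_succ, Finset.sum_range_succ, Finset.sum_range_one, e0, e1, e2]
      intro h5 h6
      norm_num at h5 h6
      have h7 : a * s * s = 0 := by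
        have h8 : a * (2 * x - s) = 0 := by linear_combination h6
        have h9 : 2 * x = s := sub_eq_zero.1 ((mul_eq_zero.1 h8).resolve_left ha)
        have h10 : a * (s * s) = 0 := by
          have h11 : a * x * (x - s) = 0 := by linear_combination h5
          have h12 : a * (2 * x) * (2 * x - 2 * s) = 0 := by linear_combination 4 * h11
          rw [h9] at h12
          linear_combination -h12
        linear_combination h10
      exact mul_ne_zero (mul_ne_zero ha hs) hs h7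

/-- the degenerate case, `s` not real -/
theorem loc_c2n {Φ : ℂ → ℂ} {r R ε0 : ℝ} {w1 b : ℂ} {t : ℂ → ℂ} (hr : 1 < r) (hrR : r ≤ R)
    (hΦ : DifferentiableOn ℂ Φ (ball 0 R))
    (hNI : NoFiniteIsolatedSingularity Φ r) (hw1 : ‖w1‖ = R) (hε0 : 0 < ε0)
    (htd : DifferentiableOn ℂ t (ball w1 ε0)) (ht0 : t w1 = 0)
    (htn : ∀ w ∈ ball w1 ε0, w ≠ w1 → t w ≠ 0) (a s : ℂ) (l2 : ℝ) (ha : a ≠ 0) (hs : s ≠ 0)
    (hsr : s ≠ conj s)
    (hrel : ∀ w ∈ ball w1 ε0, ‖w‖ < R →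
      a * (t w * (Φ w - b)) * (t w * (Φ w - b) - s) ^ 2 +
        t w * l2 * (t w * (Φ w - b) - s) * (t w * (Φ w - b) - conj s) +
        t w ^ 2 * conj a * (t w * (Φ w - b) - conj s) ^ 2 = 0) :
    LocExt Φ R w1 := by
  have hR : 0 < R := by linarith
  have hca : conj a ≠ 0 := (map_ne_zero _).2 ha
  obtain ⟨D, hD⟩ : ∃ D : Set ℂ, D = ball w1 ε0 ∩ ball 0 R := ⟨_, rfl⟩
  have hmem : ∀ w ∈ D, w ∈ ball w1 ε0 ∧ ‖w‖ < R := fun w hw => by
    rw [hD] at hw
    exact ⟨hw.1, mem_ball_zero_iff.1 hw.2⟩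
  have hmem' : ∀ w ∈ ball w1 ε0, ‖w‖ < R → w ∈ D := fun w hw hwR => by
    rw [hD]
    exact ⟨hw, mem_ball_zero_iff.2 hwR⟩
  have htD : DifferentiableOn ℂ t D := htd.mono (by rw [hD]; exact inter_subset_left)
  have hΦD : DifferentiableOn ℂ Φ D := hΦ.mono (by rw [hD]; exact inter_subset_right)
  have hxD : DifferentiableOn ℂ (fun w => t w * (Φ w - b)) D := htD.mul (hΦD.sub_const b)
  have hne : ∀ w ∈ D, t w * (Φ w - b) - s ≠ 0 := by
    intro w hw h0
    have h1 := hrel w (hmem w hw).1 (hmem w hw).2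
    have hx : t w * (Φ w - b) = s := sub_eq_zero.1 h0
    rw [hx, sub_self] at h1
    have h2 : t w ^ 2 * (conj a * (s - conj s) ^ 2) = 0 := by linear_combination h1
    have hww1 : w ≠ w1 := by
      rintro rfl
      have := (hmem w hw).2
      linarith
    exact mul_ne_zero (pow_ne_zero 2 (htn w (hmem w hw).1 hww1))
      (mul_ne_zero hca (pow_ne_zero 2 (sub_ne_zero.2 hsr))) h2
  obtain ⟨ϑ, hϑ⟩ : ∃ ϑ : ℂ → ℂ, ϑ = fun w => t w * (t w * (Φ w - b) - conj s) /
    (t w * (Φ w - b) - s) := ⟨_, rfl⟩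
  have hϑc : ContinuousOn ϑ D := by
    rw [hϑ]
    exact ((htD.mul (hxD.sub_const _)).div (hxD.sub_const s) hne).continuousOn
  have hϑ1 : ∀ w ∈ D, ϑ w * (t w * (Φ w - b) - s) = t w * (t w * (Φ w - b) - conj s) := by
    intro w hw
    rw [hϑ]
    exact div_mul_cancel₀ _ (hne w hw)
  have hϑ2 : ∀ w ∈ D, a * (t w * (Φ w - b)) + l2 * ϑ w + conj a * ϑ w ^ 2 = 0 := by
    intro w hw
    have h1 := hrel w (hmem w hw).1 (hmem w hw).2
    have h2 := hϑ1 w hw
    obtain ⟨p, hp⟩ : ∃ p, p = t w * (Φ w - b) - s := ⟨_, rfl⟩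
    have hp0 : p ≠ 0 := by rw [hp]; exact hne w hw
    have h3 : p ^ 2 * (a * (t w * (Φ w - b)) + l2 * ϑ w + conj a * ϑ w ^ 2) = 0 := by
      rw [← hp] at h1 h2
      linear_combination h1 + (l2 * p + conj a * (ϑ w * p + t w *
        (t w * (Φ w - b) - conj s))) * h2
    exact (mul_eq_zero.1 h3).resolve_left (pow_ne_zero 2 hp0)
  obtain ⟨rr, hrr⟩ : ∃ rr : ℕ → ℂ → ℂ, rr = fun k Z => if k = 3 then conj a else if k = 2 then
      l2 - conj a * Z else if k = 1 then a * s - l2 * Z else -a * conj s * Z := ⟨_, rfl⟩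
  have e0 : ∀ Z, rr 0 Z = -a * conj s * Z := fun Z => by rw [hrr]; simp
  have e1 : ∀ Z, rr 1 Z = a * s - l2 * Z := fun Z => by rw [hrr]; simp
  have e2 : ∀ Z, rr 2 Z = l2 - conj a * Z := fun Z => by rw [hrr]; simp
  have e3 : ∀ Z, rr 3 Z = conj a := fun Z => by rw [hrr]; simp
  refine simple_ext (b := b) hr hrR hΦ hNI hw1 hε0 htd ht0 htn 3 rr ?_ (by rw [e3]; exact hca)
    ϑ (by rw [← hD]; exact hϑc) ?_ ?_ (fun x => -(l2 * x + conj a * x ^ 2) / a) ?_ ?_
  · intro k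
    rw [hrr]
    simp only
    split_ifs <;> fun_prop
  · intro w hw hwR
    rw [Finset.sum_range_succ, Finset.sum_range_succ, Finset.sum_range_succ,
      Finset.sum_range_one, e0, e1, e2, e3]
    have h1 := hϑ1 w (hmem' w hw hwR)
    have h2 := hϑ2 w (hmem' w hw hwR)
    linear_combination (ϑ w - t w) * h2 - a * h1
  · intro x
    rw [Finset.sum_range_succ, Finset.sum_range_succ, Finset.sum_range_succ,
      Finset.sum_range_one, e0, e1, e2, e3, Finset.sum_range_succ, Finset.sum_range_succ,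
      Finset.sum_range_succ, Finset.sum_range_one, e0, e1, e2, e3]
    intro h5 h6
    norm_num at h5 h6
    by_cases hx : x = 0
    · rw [hx] at h6
      norm_num at h6
      rcases h6 with h | h
      · exact ha h
      · exact hs h
    · have h7 : conj a * x ^ 2 + l2 * x + a * s = 0 := by
        have h8 : x * (conj a * x ^ 2 + l2 * x + a * s) = 0 := by linear_combination h5
        exact (mul_eq_zero.1 h8).resolve_left hx
      have h9 : 2 * conj a * x + l2 = 0 := by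
        have h10 : x * (2 * conj a * x + l2) = 0 := by linear_combination h6 - h7
        exact (mul_eq_zero.1 h10).resolve_left hx
      have h11 : 4 * (a * conj a) * s = (l2 : ℂ) ^ 2 := by
        linear_combination 4 * conj a * h7 - (2 * conj a * x + l2) * h9
      apply hsr
      have h12 := congrArg (starRingEnd ℂ) h11
      rw [map_mul, map_mul, map_mul, conj_conj, map_pow, conj_ofReal] at h12
      have h13 : (starRingEnd ℂ) 4 = 4 := by
        have := Complex.conj_ofReal 4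
        simpa using this
      rw [h13] at h12
      have h14 : 4 * (a * conj a) * (s - conj s) = 0 := by linear_combination h11 - h12
      have h15 : (4 * (a * conj a) : ℂ) ≠ 0 := by
        refine mul_ne_zero (by norm_num) (mul_ne_zero ha hca)
      exact sub_eq_zero.1 ((mul_eq_zero.1 h14).resolve_left h15)
  · fun_prop
  · intro w hw hwR
    have h2 := hϑ2 w (hmem' w hw hwR)
    rw [eq_div_iff ha]
    linear_combination h2

end Pool.Agent.E8helper4.AB
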