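import Pool.Agent.E8helper4.AB.Cov
import Pool.Agent.E8helper4.AB.LocE

/-!
# AB: ramified branches
-/

set_option autoImplicit false

open Complex Metric Set Filter Topology ComplexConjugate
open Pool.Agent.Results.MP_83fd13_an.BranchSingularities
open Pool.Agent.Y245.UC (Rf)
open Pool.Agent.Y500.UC (rho rho_cont rho_ne rho_rho norm_rho rho_circle Rf_eq Rf_diff annulus)

namespace Pool.Agent.E8helper4.AB

/-- local inverse -/
theorem loc_inv {Φ : ℂ → ℂ} {r : ℝ} {P : ℂ} (hr : 1 < r) (hΦ : DifferentiableOn ℂ Φ (ball 0 r))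
    (hinj : InjOn Φ (ball 0 r)) (hP : P ∈ ball (0 : ℂ) 1) :
    ∃ (δ : ℝ) (Ψ : ℂ → ℂ), 0 < δ ∧ DifferentiableOn ℂ Ψ (ball 0 δ) ∧ Ψ 0 = P ∧
      (∀ Z ∈ ball (0 : ℂ) δ, Ψ Z ∈ ball (0 : ℂ) 1) ∧
      ∀ Z ∈ ball (0 : ℂ) δ, Φ (Ψ Z) = Φ P + Z := by
  have hPr : P ∈ ball (0 : ℂ) r := ball_subset_ball hr.le hP
  have hd : deriv Φ P ≠ 0 := Pool.Agent.Y245.SC.t_NZ Φ r hΦ hinj P hPr
  have han : AnalyticAt ℂ Φ P := hΦ.analyticAt (isOpen_ball.mem_nhds hPr)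
  have hF : ContDiffAt ℂ 1 (fun p : ℂ × ℂ => Φ p.2 - Φ P - p.1) (0, P) := by
    have h1 : ContDiffAt ℂ 1 Φ P := han.contDiffAt
    have h2 : ContDiffAt ℂ 1 (fun p : ℂ × ℂ => Φ p.2) (0, P) :=
      ContDiffAt.comp (g := Φ) (f := fun p : ℂ × ℂ => p.2) (0, P) h1 contDiffAt_snd
    exact (h2.sub contDiffAt_const).sub contDiffAt_fst
  have hder : HasDerivAt (fun x : ℂ => Φ x - Φ P - 0) (deriv Φ P) P := by
    have h1 := (hΦ.differentiableAt (isOpen_ball.mem_nhds hPr)).hasDerivAt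
    simpa using (h1.sub_const (Φ P)).sub_const 0
  obtain ⟨δ, X, hδ, hX, hX0, hX1, -⟩ := ift2 (fun p : ℂ × ℂ => Φ p.2 - Φ P - p.1) P (deriv Φ P)
    hF (by simp) hder hd
  have hc : ContinuousAt X 0 := (hX.differentiableAt (ball_mem_nhds 0 hδ)).continuousAt
  obtain ⟨ε, hε, h2⟩ := Metric.eventually_nhds_iff_ball.1 (hc.eventually
    (isOpen_ball.mem_nhds (by rw [hX0]; exact hP)))
  refine ⟨min δ ε, X, lt_min hδ hε, hX.mono (ball_subset_ball (min_le_left _ _)), hX0,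
    fun Z hZ => h2 Z (ball_subset_ball (min_le_right _ _) hZ), fun Z hZ => ?_⟩
  have h3 := hX1 Z (ball_subset_ball (min_le_left _ _) hZ)
  simp only at h3
  linear_combination h3

/-- the loop integrals at a ramified branch -/
theorem cov_loops (Φ : ℂ → ℂ) (r R lam : ℝ) (hr : 1 < r) (hrR : r ≤ R)
    (hΦ : DifferentiableOn ℂ Φ (ball 0 R)) (hinj : InjOn Φ (ball 0 r)) (hlam : 0 < lam)
    (hS : Solvable (Φ '' ball 0 1) lam) (P : ℂ) (hP : P ∈ ball (0 : ℂ) 1) (q : ℕ) (hq : 1 ≤ q)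
    (G : ℂ → ℂ) (δ1 : ℝ) (hδ1 : 0 < δ1) (hG : DifferentiableOn ℂ G (ball 0 δ1 \ {0}))
    (hex : ∀ δ : ℝ, 0 < δ → ∃ v0 σ0 : ℂ, σ0 ≠ 0 ∧ ‖σ0‖ < δ ∧ R⁻¹ < ‖v0‖ ∧ ‖v0‖ < 1 ∧
      Φ v0 = Φ P + σ0 ^ q ∧ ∀ᶠ p : ℂ × ℂ in 𝓝 (v0, σ0), Φ p.1 = Φ P + p.2 ^ q →
        Rf Φ p.1 = G p.2) :
    ∃ δ : ℝ, 0 < δ ∧ δ ≤ 1 ∧ δ ≤ δ1 ∧ ∀ α β : ℂ, α * β = -((lam / 4 : ℝ) : ℂ) →
      ∮ z in C(0, δ / 2), exp (α * z ^ q + β * G z) * z ^ (q - 1) = 0 := by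
  have hΦr := hΦ.mono (ball_subset_ball hrR)
  have hΦ1 := hΦ.mono (ball_subset_ball (hr.le.trans hrR))
  obtain ⟨δ2, Ψ, hδ2, hΨ, hΨ0, hΨm, hΨφ⟩ := loc_inv hr hΦr hinj hP
  obtain ⟨δ, hδd⟩ : ∃ δ, δ = min (min δ1 δ2) 1 := ⟨_, rfl⟩
  have hδ : 0 < δ := by rw [hδd]; positivity
  have hδ1' : δ ≤ δ1 := by rw [hδd]; exact (min_le_left _ _).trans (min_le_left _ _)
  have hδ2' : δ ≤ δ2 := by rw [hδd]; exact (min_le_left _ _).trans (min_le_right _ _)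
  have hδ3' : δ ≤ 1 := by rw [hδd]; exact min_le_right _ _
  refine ⟨δ, hδ, hδ3', hδ1', ?_⟩
  obtain ⟨v0, σ0, hσ0, hσδ, hv1, hv2, hv3, hev⟩ := hex δ hδ
  have hσm : σ0 ^ q ∈ ball (0 : ℂ) δ := by
    rw [mem_ball_zero_iff, norm_pow]
    have h1 : ‖σ0‖ ^ q ≤ ‖σ0‖ ^ 1 :=
      pow_le_pow_of_le_one (norm_nonneg _) (hσδ.le.trans hδ3') hq
    rw [pow_one] at h1
    linarith
  have hΨv : Ψ (σ0 ^ q) = v0 := by
    refine hinj (ball_subset_ball hr.le (hΨm _ (ball_subset_ball hδ2' hσm)))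
      (ball_subset_ball hr.le (mem_ball_zero_iff.2 hv2)) ?_
    rw [hΨφ _ (ball_subset_ball hδ2' hσm), hv3]
  have hR0 : 0 < R := by linarith
  have hΨc : ContinuousAt Ψ (σ0 ^ q) :=
    (hΨ.differentiableAt (isOpen_ball.mem_nhds (ball_subset_ball hδ2' hσm))).continuousAt
  have hpc : ContinuousAt (fun σ : ℂ => σ ^ q) σ0 := by fun_prop
  have hΨc' : ContinuousAt (fun σ : ℂ => Ψ (σ ^ q)) σ0 :=
    ContinuousAt.comp (f := fun σ : ℂ => σ ^ q) (g := Ψ) hΨc hpc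
  refine loopq (by positivity) (F := Rf Φ) hΦ1 hδ hδ3' (hΨ.mono (ball_subset_ball hδ2'))
    (fun Z hZ => hΨm Z (ball_subset_ball hδ2' hZ)) (fun Z hZ => hΨφ Z (ball_subset_ball hδ2' hZ))
    q hq (hG.mono (sdiff_subset_sdiff_left (ball_subset_ball hδ1')))
    ⟨mem_ball_zero_iff.2 hσδ, hσ0⟩ ?_ ?_ ?_
  · rw [hΨv]
    have h1 : ∀ᶠ v in 𝓝 v0, R⁻¹ < ‖v‖ :=
      (continuous_norm.continuousAt (x := v0)).eventually (lt_mem_nhds hv1)
    filter_upwards [h1] with v hv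
    exact Rf_ann hR0 hΦ hv
  · have h1 : Tendsto (fun σ : ℂ => (Ψ (σ ^ q), σ)) (𝓝 σ0) (𝓝 (v0, σ0)) := by
      have h2 := hΨc'.tendsto.prodMk_nhds (tendsto_id (x := 𝓝 σ0))
      rw [hΨv] at h2
      exact h2
    filter_upwards [h1.eventually hev, hpc.eventually (isOpen_ball.mem_nhds hσm)] with σ h2 h3
    exact h2 (hΨφ _ (ball_subset_ball hδ2' h3))
  · intro b
    rw [hΨv]
    exact vg_ann Φ r R lam hr hrR hΦ hinj hlam hS v0 hv1 hv2 b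

/-- there is no branch `s / T + A T^(-1/2) + ...` with `A ≠ 0` -/
theorem no_dbl (Φ : ℂ → ℂ) (r R lam : ℝ) (hr : 1 < r) (hrR : r ≤ R)
    (hΦ : DifferentiableOn ℂ Φ (ball 0 R)) (hinj : InjOn Φ (ball 0 r)) (hlam : 0 < lam)
    (hS : Solvable (Φ '' ball 0 1) lam) (P : ℂ) (hP : P ∈ ball (0 : ℂ) 1)
    (S c : ℂ) (hS0 : S ≠ 0) (E : ℂ → ℂ) (δ1 : ℝ) (hδ1 : 0 < δ1)
    (hE : DifferentiableOn ℂ E (ball 0 δ1)) (hE0 : E 0 ≠ 0)
    (hex : ∀ δ : ℝ, 0 < δ → ∃ v0 σ0 : ℂ, σ0 ≠ 0 ∧ ‖σ0‖ < δ ∧ R⁻¹ < ‖v0‖ ∧ ‖v0‖ < 1 ∧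
      Φ v0 = Φ P + σ0 ^ 2 ∧ ∀ᶠ p : ℂ × ℂ in 𝓝 (v0, σ0), Φ p.1 = Φ P + p.2 ^ 2 →
        Rf Φ p.1 = c + (S / p.2 ^ 2 + E p.2 / p.2)) : False := by
  obtain ⟨δ, hδ, -, hδδ, hloop⟩ := cov_loops Φ r R lam hr hrR hΦ hinj hlam hS P hP 2 (by norm_num)
    (fun z => c + (S / z ^ 2 + E z / z)) δ1 hδ1 (by
      intro z hz
      have hz0 : z ≠ 0 := hz.2
      have h1 : DifferentiableAt ℂ E z := hE.differentiableAt (isOpen_ball.mem_nhds hz.1)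
      have h2 : z ^ 2 ≠ 0 := pow_ne_zero 2 hz0
      apply DifferentiableAt.differentiableWithinAt
      fun_prop (disch := assumption)) hex
  refine dbl (a := lam / 4) (by positivity) hS0 (E := E) (δ := δ) (ρ := δ / 2)
    (hE.mono (ball_subset_ball hδδ)) hE0 (by positivity) (by linarith) ?_
  intro α β hαβ
  have h1 := hloop α β hαβ
  have h2 : (∮ z in C(0, δ / 2), exp (α * z ^ 2 + β * (c + (S / z ^ 2 + E z / z))) *
      z ^ (2 - 1)) = ∮ z in C(0, δ / 2), exp (β * c) *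
        (exp (α * z ^ 2 + β * (S / z ^ 2 + E z / z)) * z) := by
    refine circleIntegral.integral_congr (by positivity) fun z _ => ?_
    rw [← mul_assoc, ← exp_add, show (2 - 1 : ℕ) = 1 from rfl, pow_one]
    congr 2
    ring
  rw [h2, circleIntegral.integral_const_mul] at h1
  exact (mul_eq_zero.1 h1).resolve_left (exp_ne_zero _)

/-- the nondegenerate case -/
theorem no_c1 (Φ : ℂ → ℂ) (r R lam ε0 : ℝ) (w1 : ℂ) (hr : 1 < r) (hrR : r ≤ R)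
    (hΦ : DifferentiableOn ℂ Φ (ball 0 R)) (hinj : InjOn Φ (ball 0 r)) (hlam : 0 < lam)
    (hS : Solvable (Φ '' ball 0 1) lam) (hw1 : ‖w1‖ = R)
    (hb1 : ∀ w ∈ ball w1 ε0, 1 < ‖w‖) (t x : ℂ → ℂ) (ht : t = fun w => Rf Φ w - Rf Φ w1)
    (hx : x = fun w => t w * (Φ w - Φ (rho w1))) (htc : ContinuousAt t w1)
    (htn : ∀ w ∈ ball w1 ε0, w ≠ w1 → t w ≠ 0) (a s : ℂ) (l2 l1 l0 : ℝ) (ha : a ≠ 0)
    (hs : s ≠ 0) (hL : l2 * s ^ 2 + l1 * s + l0 ≠ 0)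
    (hlim : ∀ δ : ℝ, 0 < δ → ∃ ε : ℝ, 0 < ε ∧ ε ≤ ε0 ∧ ∀ w ∈ ball w1 ε, ‖w‖ < R → ‖x w - s‖ < δ)
    (hrel : ∀ w ∈ ball w1 ε0, ‖w‖ < R →
      a * x w * (x w - s) ^ 2 + t w * (l2 * x w ^ 2 + l1 * x w + l0) +
        t w ^ 2 * conj a * (x w - conj s) ^ 2 = 0) : False := by
  have hR : 1 < R := by linarith
  have hR0 : 0 < R := by linarith
  obtain ⟨P, hPd⟩ : ∃ P, P = rho w1 := ⟨_, rfl⟩
  have hP : P ∈ ball (0 : ℂ) 1 := by
    rw [hPd, mem_ball_zero_iff, norm_rho, hw1, div_lt_one hR0]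
    exact hR
  obtain ⟨S, hSd⟩ : ∃ S, S = conj s := ⟨_, rfl⟩
  have hsS : s = conj S := by rw [hSd, conj_conj]
  have hS0 : S ≠ 0 := by rw [hSd]; exact (map_ne_zero _).2 hs
  obtain ⟨a', ha'⟩ : ∃ a', a' = conj a := ⟨_, rfl⟩
  have ha'0 : a' ≠ 0 := by rw [ha']; exact (map_ne_zero _).2 ha
  obtain ⟨c, hc⟩ : ∃ c, c = conj (Φ P) := ⟨_, rfl⟩
  -- the conjugate relation
  have hLS : (l2 : ℂ) * S ^ 2 + l1 * S + l0 ≠ 0 := by
    intro h
    apply hL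
    have h1 := congrArg (starRingEnd ℂ) h
    rw [hsS]
    simpa using h1
  have htv : ∀ w, conj (t w) = Φ (rho w) - Φ P := by
    intro w
    rw [ht, hPd]
    simp only [Rf_eq, map_sub, conj_conj]
  have hxv : ∀ w, conj (x w) = (Φ (rho w) - Φ P) * (conj (Φ w) - c) := by
    intro w
    rw [hx]
    simp only
    rw [map_mul, htv, map_sub, hc, hPd]
  have hrelv : ∀ w ∈ ball w1 ε0, ‖w‖ < R →
      a' * conj (x w) * (conj (x w) - S) ^ 2 + conj (t w) * (l2 * conj (x w) ^ 2 +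
        l1 * conj (x w) + l0) + conj (t w) ^ 2 * a * (conj (x w) - s) ^ 2 = 0 := by
    intro w hw hwR
    have h1 := congrArg (starRingEnd ℂ) (hrel w hw hwR)
    simp only [map_add, map_mul, map_sub, map_pow, map_zero, conj_conj, conj_ofReal] at h1
    rw [ha', hSd]
    exact h1
  -- the implicit function
  obtain ⟨e0, he0⟩ : ∃ e0 : ℂ, e0 ^ 2 = -(l2 * S ^ 2 + l1 * S + l0) / (a' * S) :=
    IsAlgClosed.exists_pow_nat_eq _ two_pos
  have haS : a' * S ≠ 0 := mul_ne_zero ha'0 hS0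
  have he00 : e0 ≠ 0 := by
    rintro rfl
    rw [zero_pow two_ne_zero, eq_comm, div_eq_zero_iff] at he0
    rcases he0 with h | h
    · exact hLS (neg_eq_zero.1 h)
    · exact haS h
  obtain ⟨F, hF⟩ : ∃ F : ℂ × ℂ → ℂ, F = fun p => a' * (S + p.1 * p.2) * p.2 ^ 2 +
      (l2 * (S + p.1 * p.2) ^ 2 + l1 * (S + p.1 * p.2) + l0) +
      p.1 ^ 2 * a * (S + p.1 * p.2 - s) ^ 2 := ⟨_, rfl⟩
  obtain ⟨δ2, E, hδ2, hE, hE0, hEu⟩ := ift F e0 (2 * a' * S * e0) (by rw [hF]; fun_prop) (by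
      rw [hF]
      simp only
      have h1 : a' * S * e0 ^ 2 = -(l2 * S ^ 2 + l1 * S + l0) := by
        rw [he0]
        field_simp
      linear_combination h1) (by
      rw [hF]
      simp only
      have h1 : HasDerivAt (fun y : ℂ => a' * S * y ^ 2 + (l2 * S ^ 2 + l1 * S + l0))
          (a' * S * (2 * e0)) e0 := by
        have h2 := ((hasDerivAt_pow 2 e0).const_mul (a' * S)).add_const (l2 * S ^ 2 + l1 * S + l0)
        simpa using h2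
      refine (h1.congr_deriv (by ring)).congr_of_eventuallyEq ?_
      refine Filter.Eventually.of_forall fun y => ?_
      simp only
      ring) (by
      refine mul_ne_zero (mul_ne_zero (mul_ne_zero two_ne_zero ha'0) hS0) he00)
  refine no_dbl Φ r R lam hr hrR hΦ hinj hlam hS P hP S c hS0 E δ2 hδ2 hE
    (by rw [hE0]; exact he00) ?_
  intro δ hδ
  -- closeness of the squares
  have hH : ∀ᶠ p : ℂ × ℂ in 𝓝 (0, S), p.2 ≠ 0 ∧ ‖-((l2 * p.2 ^ 2 + l1 * p.2 + l0) +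
      p.1 * a * (p.2 - s) ^ 2) / (a' * p.2) - e0 ^ 2‖ < δ2 ^ 2 := by
    have h1 : ContinuousAt (fun p : ℂ × ℂ => p.2) (0, S) := continuousAt_snd
    have h2 : ∀ᶠ p : ℂ × ℂ in 𝓝 (0, S), p.2 ≠ 0 := h1.eventually_ne hS0
    have h3 : ContinuousAt (fun p : ℂ × ℂ => ‖-((l2 * p.2 ^ 2 + l1 * p.2 + l0) +
        p.1 * a * (p.2 - s) ^ 2) / (a' * p.2) - e0 ^ 2‖) (0, S) := by
      refine ContinuousAt.norm (ContinuousAt.sub (ContinuousAt.div ?_ ?_ haS) continuousAt_const)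
      · fun_prop
      · fun_prop
    have h4 : ‖-((l2 * S ^ 2 + l1 * S + l0) + 0 * a * (S - s) ^ 2) / (a' * S) - e0 ^ 2‖ <
        δ2 ^ 2 := by
      rw [he0, zero_mul, zero_mul, add_zero, sub_self, norm_zero]
      positivity
    exact h2.and (h3.eventually (gt_mem_nhds h4))
  obtain ⟨ρ0, hρ0, hH⟩ := Metric.eventually_nhds_iff_ball.1 hH
  obtain ⟨τ, hτ⟩ : ∃ τ : ℝ, τ = min ρ0 (min δ δ2 ^ 2) := ⟨_, rfl⟩
  have hτ0 : 0 < τ := by rw [hτ]; positivity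
  obtain ⟨ε1, hε1, hε10, hlim1⟩ := hlim τ hτ0
  have ht0 : t w1 = 0 := by rw [ht]; simp
  have htt : Tendsto t (𝓝 w1) (𝓝 0) := by
    have := htc.tendsto
    rwa [ht0] at this
  obtain ⟨ε2, hε2, hlim2⟩ := Metric.eventually_nhds_iff_ball.1
    (htt.eventually (ball_mem_nhds 0 hτ0))
  obtain ⟨w, hw, hwR⟩ := exists_near hR0 hw1.le (lt_min hε1 hε2)
  have hwε1 : w ∈ ball w1 ε1 := ball_subset_ball (min_le_left _ _) hw
  have hwε0 : w ∈ ball w1 ε0 := ball_subset_ball hε10 hwε1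
  have hwt := hlim2 w (ball_subset_ball (min_le_right _ _) hw)
  have hwx := hlim1 w hwε1 hwR
  rw [dist_eq_norm, sub_zero] at hwt
  have hww1 : w ≠ w1 := by
    rintro rfl
    linarith
  obtain ⟨T, hT⟩ : ∃ T, T = conj (t w) := ⟨_, rfl⟩
  obtain ⟨X, hX⟩ : ∃ X, X = conj (x w) := ⟨_, rfl⟩
  have hT0 : T ≠ 0 := by rw [hT]; exact (map_ne_zero _).2 (htn w hwε0 hww1)
  have hTn : ‖T‖ < τ := by rw [hT, norm_conj]; exact hwt
  have hXn : ‖X - S‖ < τ := by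
    rw [hX, hSd, ← map_sub, norm_conj]
    exact hwx
  have hTX : ((T, X) : ℂ × ℂ) ∈ ball ((0 : ℂ), S) ρ0 := by
    have h1 : τ ≤ ρ0 := by rw [hτ]; exact min_le_left _ _
    rw [mem_ball, Prod.dist_eq, max_lt_iff]
    simp only
    rw [dist_eq_norm, dist_eq_norm, sub_zero]
    exact ⟨hTn.trans_le h1, hXn.trans_le h1⟩
  obtain ⟨hX0, hcl⟩ := hH (T, X) hTX
  simp only at hX0 hcl
  have hrelw := hrelv w hwε0 hwR
  rw [← hT, ← hX] at hrelw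
  obtain ⟨σ, hσ⟩ : ∃ σ : ℂ, σ ^ 2 = T := IsAlgClosed.exists_pow_nat_eq _ two_pos
  have hσ0 : σ ≠ 0 := by
    rintro rfl
    apply hT0
    rw [← hσ]
    ring
  have hησ : ∀ η : ℂ, X = S + σ * η ∨ X = S + (-σ) * η →
      η ^ 2 = -((l2 * X ^ 2 + l1 * X + l0) + T * a * (X - s) ^ 2) / (a' * X) := by
    intro η hη
    have h1 : (X - S) ^ 2 = T * η ^ 2 := by
      rcases hη with h | h
      · rw [h, ← hσ]
        ring
      · rw [h, ← hσ]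
        ring
    rw [eq_div_iff (mul_ne_zero ha'0 hX0)]
    have h2 : T * (η ^ 2 * (a' * X) + ((l2 * X ^ 2 + l1 * X + l0) + T * a * (X - s) ^ 2)) = 0 := by
      rw [h1] at hrelw
      linear_combination hrelw
    have h3 := (mul_eq_zero.1 h2).resolve_left hT0
    linear_combination h3
  -- the choice of the root
  obtain ⟨σ0, η0, hσ0T, hXη, hηe⟩ : ∃ σ0 η0 : ℂ, σ0 ^ 2 = T ∧ X = S + σ0 * η0 ∧
      ‖η0 - e0‖ < δ2 := by
    obtain ⟨η, hη⟩ : ∃ η : ℂ, η = (X - S) / σ := ⟨_, rfl⟩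
    have h1 : X = S + σ * η := by
      rw [hη]
      field_simp
      ring
    have h2 := hησ η (Or.inl h1)
    have h3 : ‖η ^ 2 - e0 ^ 2‖ < δ2 ^ 2 := by rw [h2]; exact hcl
    by_cases h4 : ‖η - e0‖ < δ2
    · exact ⟨σ, η, hσ, h1, h4⟩
    · refine ⟨-σ, -η, by rw [neg_sq]; exact hσ, by rw [h1]; ring, ?_⟩
      by_contra h5
      push Not at h4 h5
      have h6 : ‖η ^ 2 - e0 ^ 2‖ = ‖η - e0‖ * ‖-η - e0‖ := by
        have : η ^ 2 - e0 ^ 2 = -((η - e0) * (-η - e0)) := by ring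
        rw [this, norm_neg, norm_mul]
      rw [h6] at h3
      nlinarith
  have hσ00 : σ0 ≠ 0 := by
    rintro rfl
    apply hT0
    rw [← hσ0T]
    ring
  have hσn : ‖σ0‖ < min δ δ2 := by
    have h1 : ‖σ0‖ ^ 2 < min δ δ2 ^ 2 := by
      rw [← norm_pow, hσ0T]
      exact hTn.trans_le (by rw [hτ]; exact min_le_right _ _)
    exact lt_of_pow_lt_pow_left₀ 2 (by positivity) h1
  have hw1n : 1 < ‖w‖ := hb1 w hwε0
  have hw0 : w ≠ 0 := norm_pos_iff.1 (by linarith)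
  have hv1 : R⁻¹ < ‖rho w‖ := by
    rw [norm_rho, one_div]
    exact (inv_lt_inv₀ hR0 (by linarith)).2 hwR
  refine ⟨rho w, σ0, hσ00, hσn.trans_le (min_le_left _ _), hv1, ?_, ?_, ?_⟩
  · rw [norm_rho, div_lt_one (by linarith)]
    exact hw1n
  · rw [hσ0T, hT, htv w]
    ring
  · have hΦc : ContinuousAt Φ (rho w) := by
      refine (hΦ.differentiableAt (isOpen_ball.mem_nhds ?_)).continuousAt
      rw [mem_ball_zero_iff, norm_rho, div_lt_iff₀ (by linarith)]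
      nlinarith
    have hRc : ContinuousAt (Rf Φ) (rho w) := (Rf_ann hR0 hΦ hv1).continuousAt
    have hrc : ContinuousAt rho (rho w) := rho_cont (rho_ne hw0)
    have hfst : ContinuousAt (fun p : ℂ × ℂ => p.1) (rho w, σ0) := continuousAt_fst
    have hsnd : ContinuousAt (fun p : ℂ × ℂ => p.2) (rho w, σ0) := continuousAt_snd
    have h1 : ∀ᶠ p : ℂ × ℂ in 𝓝 (rho w, σ0), rho p.1 ∈ ball w1 ε0 ∧ ‖rho p.1‖ < R := by
      have h2 : ContinuousAt (fun p : ℂ × ℂ => rho p.1) (rho w, σ0) :=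
        ContinuousAt.comp (f := fun p : ℂ × ℂ => p.1) (g := rho) hrc hfst
      have h3 := h2.tendsto
      simp only [rho_rho] at h3
      have h4 : ∀ᶠ y in 𝓝 w, y ∈ ball w1 ε0 ∧ ‖y‖ < R := by
        have h5 : ∀ᶠ y in 𝓝 w, y ∈ ball w1 ε0 := isOpen_ball.mem_nhds hwε0
        exact h5.and ((continuous_norm.continuousAt (x := w)).eventually (gt_mem_nhds hwR))
      exact h3.eventually h4
    have hXc : ContinuousAt (fun p : ℂ × ℂ => ((Φ p.1 - Φ P) * (Rf Φ p.1 - c) - S) / p.2)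
        (rho w, σ0) := by
      have h2 : ContinuousAt (fun p : ℂ × ℂ => Φ p.1) (rho w, σ0) :=
        ContinuousAt.comp (f := fun p : ℂ × ℂ => p.1) (g := Φ) hΦc hfst
      have h3 : ContinuousAt (fun p : ℂ × ℂ => Rf Φ p.1) (rho w, σ0) :=
        ContinuousAt.comp (f := fun p : ℂ × ℂ => p.1) (g := Rf Φ) hRc hfst
      exact (((h2.sub continuousAt_const).mul (h3.sub continuousAt_const)).sub
        continuousAt_const).div hsnd hσ00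
    have hXval : ((Φ (rho w) - Φ P) * (Rf Φ (rho w) - c) - S) / σ0 = η0 := by
      rw [Rf_eq, rho_rho, ← hxv w, ← hX, hXη]
      field_simp
      ring
    have h2 : ∀ᶠ p : ℂ × ℂ in 𝓝 (rho w, σ0),
        ((Φ p.1 - Φ P) * (Rf Φ p.1 - c) - S) / p.2 ∈ ball e0 δ2 := by
      refine hXc.eventually (isOpen_ball.mem_nhds ?_)
      simp only
      rw [hXval, mem_ball_iff_norm]
      exact hηe
    have h3 : ∀ᶠ p : ℂ × ℂ in 𝓝 (rho w, σ0), p.2 ∈ ball (0 : ℂ) δ2 :=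
      hsnd.eventually (isOpen_ball.mem_nhds (mem_ball_zero_iff.2
        (hσn.trans_le (min_le_right _ _))))
    have h4 : ∀ᶠ p : ℂ × ℂ in 𝓝 (rho w, σ0), p.2 ≠ 0 := hsnd.eventually_ne hσ00
    filter_upwards [h1, h2, h3, h4] with p hp1 hp2 hp3 hp4 hpΦ
    obtain ⟨y, hy⟩ : ∃ y, y = ((Φ p.1 - Φ P) * (Rf Φ p.1 - c) - S) / p.2 := ⟨_, rfl⟩
    have hrelp := hrelv (rho p.1) hp1.1 hp1.2
    rw [htv, hxv, rho_rho, ← Rf_eq] at hrelp
    have hT2 : Φ p.1 - Φ P = p.2 ^ 2 := by rw [hpΦ]; ring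
    have hXy : (Φ p.1 - Φ P) * (Rf Φ p.1 - c) = S + p.2 * y := by
      rw [hy]
      field_simp
      ring
    rw [hXy, hT2] at hrelp
    have hFy : F (p.2, y) = 0 := by
      rw [hF]
      simp only
      have h5 : p.2 ^ 2 * (a' * (S + p.2 * y) * y ^ 2 +
          (l2 * (S + p.2 * y) ^ 2 + l1 * (S + p.2 * y) + l0) +
          p.2 ^ 2 * a * (S + p.2 * y - s) ^ 2) = 0 := by
        linear_combination hrelp
      exact (mul_eq_zero.1 h5).resolve_left (pow_ne_zero 2 hp4)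
    have hyE := hEu p.2 hp3 y (by rw [hy]; exact hp2) hFy
    rw [← hyE]
    rw [hT2] at hXy
    have h6 : Rf Φ p.1 = c + (S + p.2 * y) / p.2 ^ 2 := by
      rw [← hXy]
      field_simp
      ring
    rw [h6]
    field_simp

end Pool.Agent.E8helper4.AB
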