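import Pool.Agent.E8helper4.AB.LocB

/-!
# AB: the local problem for hermitian relations of total degree at most five
-/

set_option autoImplicit false

open Complex Metric Set Filter Topology ComplexConjugate
open Pool.Agent.Results.MP_83fd13_an.BranchSingularities
open Pool.Agent.Y245.UC (Rf)

namespace Pool.Agent.E8helper4.AB

/-- a relation for the product `t (Φ - b)` with constant coefficients -/
theorem loc_const {Φ : ℂ → ℂ} {r R ε0 : ℝ} {w1 b : ℂ} {t : ℂ → ℂ} (hr : 1 < r)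
    (hrR : r ≤ R) (hΦ : DifferentiableOn ℂ Φ (ball 0 R))
    (hNI : NoFiniteIsolatedSingularity Φ r) (hw1 : ‖w1‖ = R) (hε0 : 0 < ε0)
    (htd : DifferentiableOn ℂ t (ball w1 ε0)) (ht0 : t w1 = 0)
    (htn : ∀ w ∈ ball w1 ε0, w ≠ w1 → t w ≠ 0) (a2 a1 a0 : ℂ) (ha : a2 ≠ 0)
    (hrel : ∀ w ∈ ball w1 ε0, ‖w‖ < R →
      a2 * (t w * (Φ w - b)) ^ 2 + a1 * (t w * (Φ w - b)) + a0 = 0) : LocExt Φ R w1 := by
  obtain ⟨rr, hrr⟩ : ∃ rr : ℕ → ℂ → ℂ, rr = fun k _ => if k = 2 then a2 else if k = 1 then a1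
      else a0 := ⟨_, rfl⟩
  have h0 : ∀ Z, rr 0 Z = a0 := fun Z => by rw [hrr]; simp
  have h1 : ∀ Z, rr 1 Z = a1 := fun Z => by rw [hrr]; simp
  have h2 : ∀ Z, rr 2 Z = a2 := fun Z => by rw [hrr]; simp
  have hxc : ContinuousOn (fun w => t w * (Φ w - b)) (ball w1 ε0 ∩ ball 0 R) :=
    (htd.continuousOn.mono inter_subset_left).mul
      ((hΦ.continuousOn.mono inter_subset_right).sub continuousOn_const)
  obtain ⟨s, hs, hlim, hsimple⟩ := core (by linarith) hw1 hε0 2 rr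
    (fun k => by rw [hrr]; simp only; exact contDiff_const) (by rw [h2]; exact ha) t
    (fun w => t w * (Φ w - b)) htd ht0 hxc (fun w hw hwR => by
      rw [Finset.sum_range_succ, Finset.sum_range_succ, Finset.sum_range_one, h0, h1, h2]
      linear_combination hrel w hw hwR)
  rw [Finset.sum_range_succ, Finset.sum_range_succ, Finset.sum_range_one, h0, h1, h2] at hs
  by_cases hd : 2 * a2 * s + a1 = 0
  · -- a double root
    refine fin_pole (b := b) 1 hr hrR hΦ hNI hw1 htd htn (fun _ => s) ε0 hε0 le_rfl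
      (differentiableOn_const s) fun w hw hwR => ?_
    have h3 := hrel w hw hwR
    have h4 : a2 * (t w * (Φ w - b) - s) ^ 2 = 0 := by
      linear_combination h3 - hs - (t w * (Φ w - b) - s) * hd
    have h5 := (mul_eq_zero.1 h4).resolve_left ha
    rw [pow_one]
    exact sub_eq_zero.1 (pow_eq_zero_iff two_ne_zero |>.1 h5)
  · obtain ⟨δ, X, hδ, hδε, hX, -, hXφ⟩ := hsimple (by
      rw [Finset.sum_range_succ, Finset.sum_range_succ, Finset.sum_range_one, h0, h1, h2]
      intro h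
      apply hd
      simp only [Nat.cast_ofNat, Nat.cast_one] at h
      norm_num at h
      linear_combination h)
    refine fin_pole (b := b) 1 hr hrR hΦ hNI hw1 htd htn X δ hδ hδε hX fun w hw hwR => ?_
    rw [← hXφ w hw hwR]
    ring

/-- the local problem: everything but one case in degree five -/
theorem loc_low {Φ : ℂ → ℂ} {r lam R ε0 C : ℝ} {w1 b : ℂ} {t : ℂ → ℂ} (hr : 1 < r) (hrR : r ≤ R)
    (hlam : 0 < lam) (hΦ : DifferentiableOn ℂ Φ (ball 0 R)) (hBB : BranchesBlowUp Φ r lam)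
    (hNI : NoFiniteIsolatedSingularity Φ r) (hw1 : ‖w1‖ = R) (hε0 : 0 < ε0) (hC : 0 < C)
    (htd : DifferentiableOn ℂ t (ball w1 ε0)) (ht0 : t w1 = 0)
    (htn : ∀ w ∈ ball w1 ε0, w ≠ w1 → t w ≠ 0)
    (hlow : ∀ w ∈ ball w1 ε0, ‖w - w1‖ ≤ C * ‖t w‖) (n : ℕ) (hn : n ≤ 5)
    (q : ℕ → Polynomial ℂ) (hq0 : ∃ k, q k ≠ 0)
    (hH : ∀ j k, (q j).coeff k = conj ((q k).coeff j))
    (hD : ∀ j k, n < j + k → (q k).coeff j = 0)
    (hrel : ∀ w ∈ ball w1 ε0, ‖w‖ < R →
      ∑ k ∈ Finset.range (n + 1), (q k).eval (t w) * (Φ w - b) ^ k = 0) :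
    LocExt Φ R w1 ∨ (n = 5 ∧ ∃ (a c d : ℂ) (l2 l1 l0 : ℝ), a ≠ 0 ∧
      ∀ w ∈ ball w1 ε0, ‖w‖ < R →
        a * t w ^ 2 * (Φ w - b) ^ 3 + conj a * t w ^ 3 * (Φ w - b) ^ 2 +
        l2 * t w ^ 2 * (Φ w - b) ^ 2 + d * t w * (Φ w - b) ^ 2 + conj d * t w ^ 2 * (Φ w - b) +
        l1 * t w * (Φ w - b) + c * (Φ w - b) + conj c * t w + l0 = 0) := by
  classical
  have hqn : ∀ k, n < k → q k = 0 := fun k hk => by
    ext j
    rw [Polynomial.coeff_zero]
    exact hD j k (by omega)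
  -- the degree in the second variable
  obtain ⟨m, hm, hmax⟩ : ∃ m, q m ≠ 0 ∧ ∀ k, m < k → q k = 0 := by
    obtain ⟨k0, hk0⟩ := hq0
    have hk0n : k0 ≤ n := by
      by_contra h
      exact hk0 (hqn k0 (by omega))
    refine ⟨Nat.findGreatest (fun k => q k ≠ 0) n, Nat.findGreatest_spec (P := fun k => q k ≠ 0)
      hk0n hk0, fun k hk => ?_⟩
    by_cases hkn : k ≤ n
    · by_contra h
      exact Nat.findGreatest_is_greatest hk hkn h
    · exact hqn k (by omega)
  have hmn : m ≤ n := by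
    by_contra h
    exact hm (hqn m (by omega))
  have hrelm : ∀ w ∈ ball w1 ε0, ‖w‖ < R →
      ∑ k ∈ Finset.range (m + 1), (q k).eval (t w) * (Φ w - b) ^ k = 0 := by
    intro w hw hwR
    rw [← hrel w hw hwR]
    refine Finset.sum_subset (fun k hk => ?_) fun k _ hk => ?_
    · rw [Finset.mem_range] at hk ⊢
      omega
    · rw [Finset.mem_range] at hk
      rw [hmax k (by omega), Polynomial.eval_zero, zero_mul]
  -- the order of the leading coefficient
  obtain ⟨e, g, hqm, hg⟩ : ∃ (e : ℕ) (g : Polynomial ℂ), q m = Polynomial.X ^ e * g ∧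
      g.eval 0 ≠ 0 := by
    obtain ⟨g, hg, hgn⟩ := Polynomial.exists_eq_pow_rootMultiplicity_mul_and_not_dvd (q m) hm 0
    rw [Polynomial.C_0, sub_zero] at hg hgn
    refine ⟨_, g, hg, fun h => hgn ?_⟩
    rw [Polynomial.X_dvd_iff, Polynomial.coeff_zero_eq_eval_zero]
    exact h
  rcases Nat.lt_or_ge 1 e with he | he
  swap
  · exact Or.inl (locB hr hrR hlam hΦ hBB hNI hw1 hε0 hC htd ht0 htn hlow m e he q g hg hqm hrelm)
  have hce : (q m).coeff e ≠ 0 := by
    rw [hqm, Polynomial.coeff_X_pow_mul', if_pos le_rfl, Nat.sub_self,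
      Polynomial.coeff_zero_eq_eval_zero]
    exact hg
  have hcl : ∀ j, j < e → (q m).coeff j = 0 := fun j hj => by
    rw [hqm, Polynomial.coeff_X_pow_mul', if_neg (by omega)]
  have hem : e ≤ m := by
    by_contra h
    have h1 := hH m e
    rw [hmax e (by omega), Polynomial.coeff_zero, map_zero] at h1
    exact hce h1
  have hemn : e + m ≤ n := by
    by_contra h
    exact hce (hD e m (by omega))
  obtain ⟨m', rfl⟩ : ∃ m', m = m' + 1 := ⟨m - 1, by omega⟩
  by_cases hq1 : (q m').eval 0 = 0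
  swap
  · exact Or.inl (locC hr hrR hlam hΦ hBB hNI hw1 hε0 hC htd ht0 htn hlow m' e (by omega) q g hg
      hqm hq1 hrelm)
  rw [← Polynomial.coeff_zero_eq_eval_zero] at hq1
  have hreal : ∀ j, (((q j).coeff j).re : ℂ) = (q j).coeff j := fun j => by
    have h1 := hH j j
    rw [eq_comm, conj_eq_iff_real] at h1
    obtain ⟨x, hx⟩ := h1
    rw [hx, ofReal_re]
  have hev : ∀ k (x : ℂ), (q k).eval x = ∑ j ∈ Finset.range (m' + 1 + 1), (q k).coeff j * x ^ j := by
    intro k x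
    refine Polynomial.eval_eq_sum_range' ?_ x
    rw [Nat.lt_succ_iff, Polynomial.natDegree_le_iff_coeff_eq_zero]
    intro j hj
    rw [hH k j, hmax j hj, Polynomial.coeff_zero, map_zero]
  have he2 : e = 2 := by omega
  subst he2
  rcases (by omega : m' = 1 ∨ (m' = 2 ∧ n = 5)) with h | ⟨h, h5⟩
  · -- bidegree (2, 2)
    left
    subst h
    have z0 : (q 2).coeff 0 = 0 := hcl 0 (by omega)
    have z1 : (q 2).coeff 1 = 0 := hcl 1 (by omega)
    have z2 : (q 0).coeff 2 = 0 := by rw [hH 0 2, z0, map_zero]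
    have z3 : (q 1).coeff 2 = 0 := by rw [hH 1 2, z1, map_zero]
    have z4 : (q 0).coeff 1 = 0 := by rw [hH 0 1, hq1, map_zero]
    refine loc_const (b := b) hr hrR hΦ hNI hw1 hε0 htd ht0 htn ((q 2).coeff 2)
      ((q 1).coeff 1) ((q 0).coeff 0) hce fun w hw hwR => ?_
    have h1 := hrelm w hw hwR
    rw [show (1 + 1 + 1 : ℕ) = 3 from rfl, Finset.sum_range_succ, Finset.sum_range_succ,
      Finset.sum_range_one, hev, hev, hev] at h1
    simp only [show (1 + 1 + 1 : ℕ) = 3 from rfl, Finset.sum_range_succ,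
      z0, z1, z2, z3, z4, hq1] at h1
    linear_combination h1
  · -- bidegree (3, 3)
    right
    subst h
    refine ⟨h5, (q 3).coeff 2, (q 1).coeff 0, (q 2).coeff 1, ((q 2).coeff 2).re,
      ((q 1).coeff 1).re, ((q 0).coeff 0).re, hce, fun w hw hwR => ?_⟩
    rw [hreal, hreal, hreal, ← hH 2 3, ← hH 1 2, ← hH 0 1]
    have z0 : (q 3).coeff 0 = 0 := hcl 0 (by omega)
    have z1 : (q 3).coeff 1 = 0 := hcl 1 (by omega)
    have z2 : (q 0).coeff 3 = 0 := by rw [hH 0 3, z0, map_zero]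
    have z3 : (q 1).coeff 3 = 0 := by rw [hH 1 3, z1, map_zero]
    have z4 : (q 3).coeff 3 = 0 := hD 3 3 (by omega)
    have z5 : (q 0).coeff 2 = 0 := by rw [hH 0 2, hq1, map_zero]
    have h1 := hrelm w hw hwR
    rw [show (2 + 1 + 1 : ℕ) = 4 from rfl, Finset.sum_range_succ, Finset.sum_range_succ,
      Finset.sum_range_succ, Finset.sum_range_one, hev, hev, hev, hev] at h1
    simp only [show (2 + 1 + 1 : ℕ) = 4 from rfl, Finset.sum_range_succ,
      z0, z1, z2, z3, z4, z5, hq1] at h1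
    linear_combination h1

end Pool.Agent.E8helper4.AB
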