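import Pool.Agent.Y508.UC.Res

/-!
# AB: the Volterra equation on coverings
-/

set_option autoImplicit false

open Complex MeasureTheory Metric Set Filter Topology ComplexConjugate
open Pool.Agent.Y245.SC Pool.Agent.Y245.UC
open Pool.Agent.Y508.UC (ku ku_diff)

namespace Pool.Agent.E8helper4.AB

/-- the kernel is holomorphic in `v` -/
theorem kerU_diffOn {a : ℝ} {φ F : ℂ → ℂ} {b u0 : ℂ} {V : Set ℂ} (hk : Differentiable ℂ (kap a))
    (hφ : DifferentiableOn ℂ φ (ball 0 1)) (hV : IsOpen V) (hVs : V ⊆ ball 0 1)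
    (hF : DifferentiableOn ℂ F V) :
    DifferentiableOn ℂ (fun v => kerU a φ v u0 (F v - b)) V := by
  intro v hv
  have h1 : DifferentiableAt ℂ (fun q : ℂ × ℂ × ℂ => ku a φ q.1 q.2.1 q.2.2) (v, φ u0, F v - b) :=
    ku_diff hk hφ (p := (v, φ u0, F v - b)) (hVs hv)
  have h2 : DifferentiableAt ℂ (fun v => (v, φ u0, F v - b)) v :=
    differentiableAt_id.prodMk ((differentiableAt_const _).prodMk
      ((hF.differentiableAt (hV.mem_nhds hv)).sub_const b))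
  exact (DifferentiableAt.comp (f := fun v => (v, φ u0, F v - b)) v h1 h2).differentiableWithinAt

/-- pull back of the Volterra equation -/
theorem pull (hK : S_KAP) (hSeg : S_SEG) {φ κ F : ℂ → ℂ} {a : ℝ} (ha : 0 < a) {b ξ0 : ℂ}
    (hφ : DifferentiableOn ℂ φ (ball 0 1)) (hκ : DifferentiableOn ℂ κ (ball 0 1))
    (hκm : ∀ ξ ∈ ball (0 : ℂ) 1, κ ξ ∈ ball (0 : ℂ) 1) (hξ0 : ξ0 ∈ ball (0 : ℂ) 1)
    (hF : ∀ᶠ v in 𝓝 (κ ξ0), DifferentiableAt ℂ F v) (hVG : VG a φ b (κ ξ0) F) :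
    VG a (fun ξ => φ (κ ξ)) b ξ0 (fun ξ => F (κ ξ)) := by
  obtain ⟨H, hH, hev⟩ := hVG
  have hkd := (hK a ha.le).1
  refine ⟨fun ξ => H (κ ξ), hH.comp hκ hκm, ?_⟩
  have hφκ : DifferentiableOn ℂ (fun ξ => φ (κ ξ)) (ball 0 1) := hφ.comp hκ hκm
  obtain ⟨δ, hδ, hV⟩ := Metric.eventually_nhds_iff_ball.1 ((hF.and hev).and
    (isOpen_ball.mem_nhds (hκm ξ0 hξ0)))
  have hVs : ball (κ ξ0) δ ⊆ ball 0 1 := fun v hv => (hV v hv).2
  have hFd : DifferentiableOn ℂ F (ball (κ ξ0) δ) := fun v hv =>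
    (hV v hv).1.1.differentiableWithinAt
  have hκc : ContinuousAt κ ξ0 := (hκ.differentiableAt (isOpen_ball.mem_nhds hξ0)).continuousAt
  obtain ⟨η, hη, hU⟩ := Metric.eventually_nhds_iff_ball.1
    ((hκc.eventually (ball_mem_nhds (κ ξ0) hδ)).and (isOpen_ball.mem_nhds hξ0))
  have hUs : ball ξ0 η ⊆ ball 0 1 := fun ξ hξ => (hU ξ hξ).2
  have hUm : ∀ ξ ∈ ball ξ0 η, κ ξ ∈ ball (κ ξ0) δ := fun ξ hξ => (hU ξ hξ).1
  filter_upwards [ball_mem_nhds ξ0 hη] with ξ hξ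
  rw [(hV (κ ξ) (hUm ξ hξ)).1.2]
  congr 1
  obtain ⟨g, hg⟩ : ∃ g : ℂ → ℂ, g = fun v => kerU a φ v (κ ξ) (F v - b) := ⟨_, rfl⟩
  obtain ⟨h, hh⟩ : ∃ h : ℂ → ℂ, h = fun s => kerU a (fun ξ => φ (κ ξ)) s ξ (F (κ s) - b) :=
    ⟨_, rfl⟩
  rw [← hg, ← hh]
  have hgd : DifferentiableOn ℂ g (ball (κ ξ0) δ) := by
    rw [hg]
    exact kerU_diffOn hkd hφ isOpen_ball hVs hFd
  have hhd : DifferentiableOn ℂ h (ball ξ0 η) := by
    rw [hh]
    exact kerU_diffOn (F := fun s => F (κ s)) hkd hφκ isOpen_ball hUs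
      (hFd.comp (hκ.mono hUs) hUm)
  have hgh : ∀ s ∈ ball ξ0 η, h s = g (κ s) * deriv κ s := by
    intro s hs
    have h1 : DifferentiableAt ℂ φ (κ s) :=
      hφ.differentiableAt (isOpen_ball.mem_nhds (hκm s (hUs hs)))
    have h2 : DifferentiableAt ℂ κ s := hκ.differentiableAt (isOpen_ball.mem_nhds (hUs hs))
    have h3 : deriv (fun ξ => φ (κ ξ)) s = deriv φ (κ s) * deriv κ s :=
      (h1.hasDerivAt.comp s h2.hasDerivAt).deriv
    rw [hh, hg]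
    simp only [kerU]
    rw [h3]
    ring
  have hG : ∀ x ∈ ball ξ0 η, HasDerivAt (fun x => seg g (κ ξ0) (κ x)) (h x) x := by
    intro x hx
    have h1 := (hSeg (ball (κ ξ0) δ) g isOpen_ball (convex_ball _ _) hgd).2 (κ ξ0)
      (mem_ball_self hδ) (κ x) (hUm x hx)
    have h2 : HasDerivAt κ (deriv κ x) x :=
      (hκ.differentiableAt (isOpen_ball.mem_nhds (hUs hx))).hasDerivAt
    rw [hgh x hx]
    exact h1.comp x h2
  have hHd : ∀ x ∈ ball ξ0 η, HasDerivAt (fun x => seg h ξ0 x) (h x) x := fun x hx =>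
    (hSeg (ball ξ0 η) h isOpen_ball (convex_ball _ _) hhd).2 ξ0 (mem_ball_self hη) x hx
  have hD : ∀ x ∈ ball ξ0 η, HasDerivAt (fun x => seg g (κ ξ0) (κ x) - seg h ξ0 x) 0 x := by
    intro x hx
    have := (hG x hx).sub (hHd x hx)
    rwa [sub_self] at this
  have hconst := isOpen_ball.is_const_of_deriv_eq_zero (convex_ball ξ0 η).isPreconnected
    (f := fun x => seg g (κ ξ0) (κ x) - seg h ξ0 x)
    (fun x hx => (hD x hx).differentiableAt.differentiableWithinAt)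
    (fun x hx => (hD x hx).deriv) hξ (mem_ball_self hη)
  have hz1 : seg g (κ ξ0) (κ ξ0) = 0 := by
    unfold seg
    simp
  have hz2 : seg h ξ0 ξ0 = 0 := by
    unfold seg
    simp
  simp only [hz1, hz2, sub_zero] at hconst
  exact sub_eq_zero.1 hconst

end Pool.Agent.E8helper4.AB
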