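import Pool.Agent.Y971.SG.Bes
import Pool.Agent.Y987.SG.Zer

/-!
# AB: the zeros of `Bn 1` are real
-/

set_option autoImplicit false

open Complex MeasureTheory Set Filter Topology ComplexConjugate
open Pool.Agent.Y245.SG (Bn)

namespace Pool.Agent.E8helper4.AB

/-- the zeros of `Bn 1` are real -/
theorem bn1_real (q : ℂ) (hq : Bn 1 q = 0) : q.im = 0 := by
  obtain ⟨hB0d, -, hB0h, hB0r⟩ := Pool.Agent.Y971.SG.bes 0
  obtain ⟨hB1d, -, hB1h, -⟩ := Pool.Agent.Y971.SG.bes 1
  -- `f(t) = t Bn 1 (q t)`, `f' = Bn 0 (q t)`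
  have hf : ∀ t : ℝ, HasDerivAt (fun t : ℝ => (t : ℂ) * Bn 1 (q * t)) (Bn 0 (q * t)) t := by
    intro t
    have h1 : HasDerivAt (fun z : ℂ => Bn 1 (q * z)) (-Bn 2 (q * t) * q) (t : ℂ) := by
      have h2 : HasDerivAt (fun z : ℂ => q * z) q (t : ℂ) := by
        simpa using (hasDerivAt_id (t : ℂ)).const_mul q
      exact (hB1h (q * t)).comp (t : ℂ) h2
    have h3 : HasDerivAt (fun z : ℂ => z * Bn 1 (q * z))
        (1 * Bn 1 (q * t) + t * (-Bn 2 (q * t) * q)) (t : ℂ) :=
      (hasDerivAt_id (t : ℂ)).mul h1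
    have h4 := h3.comp_ofReal
    have h5 : 1 * Bn 1 (q * t) + t * (-Bn 2 (q * t) * q) = Bn 0 (q * t) := by
      have h6 := hB0r (q * t)
      simp only [Nat.cast_zero, zero_add, one_mul] at h6
      linear_combination -h6
    rw [h5] at h4
    exact h4
  have hf' : ∀ t : ℝ, HasDerivAt (fun t : ℝ => Bn 0 (q * t)) (-q * Bn 1 (q * t)) t := by
    intro t
    have h2 : HasDerivAt (fun z : ℂ => q * z) q (t : ℂ) := by
      simpa using (hasDerivAt_id (t : ℂ)).const_mul q
    have h4 := ((hB0h (q * t)).comp (t : ℂ) h2).comp_ofReal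
    have h5 : -Bn (0 + 1) (q * t) * q = -q * Bn 1 (q * t) := by
      rw [zero_add]
      ring
    rw [h5] at h4
    exact h4
  have hg : ∀ t : ℝ, HasDerivAt (fun t : ℝ => Bn 0 (q * t) * conj ((t : ℂ) * Bn 1 (q * t)))
      (-q * Bn 1 (q * t) * conj ((t : ℂ) * Bn 1 (q * t)) + Bn 0 (q * t) * conj (Bn 0 (q * t)))
      t := by
    intro t
    have h1 : HasDerivAt (fun t : ℝ => conj ((t : ℂ) * Bn 1 (q * t))) (conj (Bn 0 (q * t))) t := by
      have h2 := (hf t).star
      exact h2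
    exact (hf' t).mul h1
  have hc0 : Continuous (fun t : ℝ => Bn 0 (q * t)) := hB0d.continuous.comp (by fun_prop)
  have hc1 : Continuous (fun t : ℝ => Bn 1 (q * t)) := hB1d.continuous.comp (by fun_prop)
  have hint : ∫ t in (0 : ℝ)..1, (-q * Bn 1 (q * t) * conj ((t : ℂ) * Bn 1 (q * t)) +
      Bn 0 (q * t) * conj (Bn 0 (q * t))) = 0 := by
    rw [intervalIntegral.integral_eq_sub_of_hasDerivAt (fun t _ => hg t)]
    · simp [hq]
    · apply Continuous.intervalIntegrable
      exact ((continuous_const.mul hc1).mul (continuous_conj.comp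
        (continuous_ofReal.mul hc1))).add (hc0.mul (continuous_conj.comp hc0))
  have e1 : ∀ t : ℝ, -q * Bn 1 (q * t) * conj ((t : ℂ) * Bn 1 (q * t)) +
      Bn 0 (q * t) * conj (Bn 0 (q * t)) =
      -q * ((t * ‖Bn 1 (q * t)‖ ^ 2 : ℝ) : ℂ) + ((‖Bn 0 (q * t)‖ ^ 2 : ℝ) : ℂ) := by
    intro t
    have h1 : Bn 1 (q * t) * conj (Bn 1 (q * t)) = ((‖Bn 1 (q * t)‖ ^ 2 : ℝ) : ℂ) := by
      rw [mul_conj, normSq_eq_norm_sq]
    have h2 : Bn 0 (q * t) * conj (Bn 0 (q * t)) = ((‖Bn 0 (q * t)‖ ^ 2 : ℝ) : ℂ) := by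
      rw [mul_conj, normSq_eq_norm_sq]
    rw [map_mul, conj_ofReal, h2]
    push_cast at h1 ⊢
    linear_combination (-q * t) * h1
  simp only [e1] at hint
  rw [intervalIntegral.integral_add, intervalIntegral.integral_const_mul,
    intervalIntegral.integral_ofReal, intervalIntegral.integral_ofReal] at hint
  · obtain ⟨A, hA⟩ : ∃ A : ℝ, A = ∫ t in (0 : ℝ)..1, t * ‖Bn 1 (q * t)‖ ^ 2 := ⟨_, rfl⟩
    obtain ⟨B, hB⟩ : ∃ B : ℝ, B = ∫ t in (0 : ℝ)..1, ‖Bn 0 (q * t)‖ ^ 2 := ⟨_, rfl⟩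
    rw [← hA, ← hB] at hint
    have hBpos : 0 < B := by
      rw [hB]
      have hcont : Continuous (fun t : ℝ => ‖Bn 0 (q * t)‖ ^ 2) := hc0.norm.pow 2
      refine intervalIntegral.integral_pos one_pos hcont.continuousOn (fun t _ => by positivity)
        ⟨0, ⟨le_rfl, zero_le_one⟩, ?_⟩
      have h7 : Bn 0 (q * ((0 : ℝ) : ℂ)) = 1 := by
        rw [ofReal_zero, mul_zero]
        unfold Pool.Agent.Y245.SG.Bn
        rw [tsum_eq_single 0]
        · simp
        · intro k hk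
          simp [hk]
      rw [h7]
      norm_num
    have h8 := congrArg Complex.im hint
    have h9 := congrArg Complex.re hint
    simp only [add_re, add_im, neg_mul, neg_re, neg_im, mul_re, mul_im, ofReal_re, ofReal_im,
      mul_zero, sub_zero, zero_im, zero_re, add_zero, zero_add] at h8 h9
    have hA0 : A ≠ 0 := by
      rintro h0
      rw [h0] at h9
      simp at h9
      linarith
    have h10 : q.im * A = 0 := by linarith
    exact (mul_eq_zero.1 h10).resolve_right hA0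
  · apply Continuous.intervalIntegrable
    exact continuous_const.mul (continuous_ofReal.comp (continuous_id.mul (hc1.norm.pow 2)))
  · apply Continuous.intervalIntegrable
    exact continuous_ofReal.comp (hc0.norm.pow 2)

end Pool.Agent.E8helper4.AB
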