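import Pool.Agent.E8helper4.AB.Ext
import Pool.Agent.E8helper4.AB.Loc

/-!
# AB: reduction to a local problem at a boundary point of the disc of convergence
-/

set_option autoImplicit false

open Complex Metric Set Filter Topology ComplexConjugate
open Pool.Agent.Results.MP_83fd13_an.BranchSingularities
open Pool.Agent.Y245.UC (Rf)
open Pool.Agent.Y500.UC (rho rho_cont rho_ne rho_rho norm_rho rho_circle Rf_eq Rf_diff annulus)

namespace Pool.Agent.E8helper4.AB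

/-- the image is a disc -/
def IsDisc (φ : ℂ → ℂ) : Prop := ∃ (p : ℂ) (r0 : ℝ), 0 < r0 ∧ φ '' ball 0 1 = ball p r0

/-- reduction to local extensions -/
theorem reduce (φ : ℂ → ℂ) (r lam : ℝ) (hr : 1 < r) (hφ : DifferentiableOn ℂ φ (ball 0 r))
    (hinj : InjOn φ (ball 0 r)) (hlam : 0 < lam) (hS : Solvable (φ '' ball 0 1) lam)
    (hnd : ¬ IsDisc φ)
    (hloc : ∀ (R : ℝ) (Φ : ℂ → ℂ), r ≤ R → DifferentiableOn ℂ Φ (ball 0 R) →
      EqOn Φ φ (ball 0 r) → InjOn Φ (ball 0 r) → Solvable (Φ '' ball 0 1) lam →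
      BranchesBlowUp Φ r lam → NoFiniteIsolatedSingularity Φ r →
      ∀ w1 : ℂ, ‖w1‖ = R → LocExt Φ R w1) : False := by
  have himg : ∀ Φ : ℂ → ℂ, EqOn Φ φ (ball 0 r) → Φ '' ball 0 1 = φ '' ball 0 1 := fun Φ h =>
    image_congr fun w hw => h (ball_subset_ball hr.le hw)
  obtain ⟨Φ, hΦ, hΦφ⟩ := glob φ r (by linarith) hφ (by
    intro R Φ hrR hΦ hΦφ w1 hw1
    have hinjΦ : InjOn Φ (ball 0 r) := hinj.congr hΦφ.symm
    have hSΦ : Solvable (Φ '' ball 0 1) lam := by rw [himg Φ hΦφ]; exact hS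
    obtain ⟨h1, -, h3⟩ := result Φ r hr (hΦ.mono (ball_subset_ball hrR)) hinjΦ lam hlam hSΦ
    obtain ⟨h4, -, -⟩ := h3 (by rw [himg Φ hΦφ]; exact hnd)
    exact hloc R Φ hrR hΦ hΦφ hinjΦ hSΦ h1 h4 w1 (mem_sphere_zero_iff_norm.1 hw1))
  have hinjΦ : InjOn Φ (ball 0 r) := hinj.congr hΦφ.symm
  have hSΦ : Solvable (Φ '' ball 0 1) lam := by rw [himg Φ hΦφ]; exact hS
  obtain ⟨-, -, h3⟩ := result Φ r hr hΦ.differentiableOn hinjΦ lam hlam hSΦ
  obtain ⟨-, -, h5⟩ := h3 (by rw [himg Φ hΦφ]; exact hnd)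
  apply h5
  intro z
  exact (hΦ.analyticAt z).meromorphicAt

/-- an analytic function in an annulus which vanishes on the unit circle is zero -/
theorem circle_zero {f : ℂ → ℂ} {R : ℝ} (hR : 1 < R)
    (hf : DifferentiableOn ℂ f {v : ℂ | R⁻¹ < ‖v‖ ∧ ‖v‖ < R})
    (h0 : ∀ w : ℂ, ‖w‖ = 1 → f w = 0) : ∀ w : ℂ, R⁻¹ < ‖w‖ → ‖w‖ < R → f w = 0 := by
  have hRi : R⁻¹ < 1 := inv_lt_one_of_one_lt₀ hR
  have hA : IsOpen {v : ℂ | R⁻¹ < ‖v‖ ∧ ‖v‖ < R} :=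
    (isOpen_lt continuous_const continuous_norm).inter (isOpen_lt continuous_norm continuous_const)
  have hmem : ∀ x : ℝ, exp ((x : ℂ) * I) ∈ {v : ℂ | R⁻¹ < ‖v‖ ∧ ‖v‖ < R} := fun x => by
    rw [mem_ofPred_eq, norm_exp_ofReal_mul_I]
    exact ⟨hRi, hR⟩
  have h1 : EqOn f 0 {v : ℂ | R⁻¹ < ‖v‖ ∧ ‖v‖ < R} := by
    refine (hf.analyticOnNhd hA).eqOn_zero_of_preconnected_of_frequently_eq_zero
      (annulus hR) (hmem 0) ?_
    have hne : ∀ᶠ x : ℝ in 𝓝[≠] 0, exp ((x : ℂ) * I) ≠ exp (((0 : ℝ) : ℂ) * I) := by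
      have h2 : ∀ᶠ x : ℝ in 𝓝[≠] 0, |x| < 1 := by
        apply Filter.Eventually.filter_mono nhdsWithin_le_nhds
        have h3 : Tendsto (fun x : ℝ => |x|) (𝓝 0) (𝓝 0) := by
          have := continuous_abs.tendsto (0 : ℝ)
          rwa [abs_zero] at this
        exact h3.eventually (gt_mem_nhds one_pos)
      filter_upwards [h2, self_mem_nhdsWithin] with x hx1 hx0 heq
      have h10 : exp ((x : ℂ) * I) = 1 := by
        rw [heq, ofReal_zero, zero_mul, exp_zero]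
      rw [exp_eq_one_iff] at h10
      obtain ⟨m, hm⟩ := h10
      have h13 : x = m * (2 * Real.pi) := by
        have h14 : (x : ℂ) = m * (2 * Real.pi) := by
          have hI : (I : ℂ) ≠ 0 := I_ne_zero
          apply mul_right_cancel₀ hI
          rw [hm]
          ring
        exact_mod_cast h14
      have hm0 : m = 0 := by
        by_contra hm0
        have h8 : (1 : ℝ) ≤ |(m : ℝ)| := by
          have : 1 ≤ |m| := Int.one_le_abs hm0
          exact_mod_cast this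
        have h9 := Real.pi_gt_three
        rw [h13, abs_mul, abs_of_pos (by positivity : (0 : ℝ) < 2 * Real.pi)] at hx1
        nlinarith
      rw [hm0] at h13
      exact hx0 (by simpa using h13)
    have hc : ContinuousAt (fun x : ℝ => exp ((x : ℂ) * I)) 0 := by fun_prop
    have h3 : Tendsto (fun x : ℝ => exp ((x : ℂ) * I)) (𝓝[≠] 0)
        (𝓝[≠] (exp (((0 : ℝ) : ℂ) * I))) := by
      rw [tendsto_nhdsWithin_iff]
      exact ⟨hc.tendsto.mono_left nhdsWithin_le_nhds, hne⟩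
    refine h3.frequently ?_
    apply Filter.Eventually.frequently
    exact Filter.Eventually.of_forall fun x => h0 _ (norm_exp_ofReal_mul_I x)
  exact fun w h1' h2' => h1 ⟨h1', h2'⟩

/-- the reflected function is holomorphic outside the circle `|w| = 1 / R` -/
theorem Rf_ann {φ : ℂ → ℂ} {R : ℝ} (hR : 0 < R) (hφ : DifferentiableOn ℂ φ (ball 0 R)) {w : ℂ}
    (hw : R⁻¹ < ‖w‖) : DifferentiableAt ℂ (Rf φ) w := by
  have hw0 : 0 < ‖w‖ := lt_trans (by positivity) hw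
  refine Rf_diff (norm_pos_iff.1 hw0) (hφ.differentiableAt (isOpen_ball.mem_nhds ?_))
  rw [mem_ball_zero_iff, norm_rho, div_lt_iff₀ hw0]
  rw [inv_lt_iff_one_lt_mul₀ hR] at hw
  rwa [mul_comm]

/-- values on the unit circle -/
theorem Rf_circle (φ : ℂ → ℂ) {w : ℂ} (hw : ‖w‖ = 1) : Rf φ w = conj (φ w) := by
  rw [Rf_eq, rho_circle hw]

/-- the local data at a point of the circle `|w| = R` -/
theorem local_data {φ : ℂ → ℂ} {r R : ℝ} {w1 : ℂ} (hr : 1 < r) (hrR : r ≤ R)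
    (hφ : DifferentiableOn ℂ φ (ball 0 R)) (hinj : InjOn φ (ball 0 r)) (hw1 : ‖w1‖ = R) :
    ∃ (ε0 C : ℝ), 0 < ε0 ∧ 0 < C ∧ (∀ w ∈ ball w1 ε0, 1 < ‖w‖) ∧
      (∀ w ∈ ball w1 ε0, rho w ∈ ball (0 : ℂ) 1) ∧
      DifferentiableOn ℂ (fun w => Rf φ w - Rf φ w1) (ball w1 ε0) ∧
      (∀ w ∈ ball w1 ε0, w ≠ w1 → Rf φ w - Rf φ w1 ≠ 0) ∧
      ∀ w ∈ ball w1 ε0, ‖w - w1‖ ≤ C * ‖Rf φ w - Rf φ w1‖ := by
  have hR : 1 < R := by linarith
  have hR0 : 0 < R := by linarith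
  have hw10 : w1 ≠ 0 := by
    rintro rfl
    rw [norm_zero] at hw1
    linarith
  have hb : ∀ w ∈ ball w1 (R - 1), 1 < ‖w‖ := by
    intro w hw
    rw [mem_ball_iff_norm] at hw
    have h1 : ‖w1‖ ≤ ‖w‖ + ‖w - w1‖ := by
      have : w1 = w - (w - w1) := by ring
      calc ‖w1‖ = ‖w - (w - w1)‖ := by rw [← this]
        _ ≤ _ := norm_sub_le _ _
    linarith
  have hrb : ∀ w : ℂ, 1 < ‖w‖ → rho w ∈ ball (0 : ℂ) 1 := by
    intro w hw
    rw [mem_ball_zero_iff, norm_rho, div_lt_one (by linarith)]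
    exact hw
  have hRi : R⁻¹ < 1 := inv_lt_one_of_one_lt₀ hR
  -- the derivative at `w1`
  have hnz : deriv φ (rho w1) ≠ 0 := by
    refine Pool.Agent.Y245.SC.t_NZ φ r (hφ.mono (ball_subset_ball hrR)) hinj _ ?_
    exact ball_subset_ball hr.le (hrb w1 (by rw [hw1]; exact hR))
  have hder : ∃ d : ℂ, d ≠ 0 ∧ HasDerivAt (fun w => Rf φ w - Rf φ w1) d w1 := by
    have h1 : Rf φ = (conj ∘ φ ∘ conj) ∘ fun v => v⁻¹ := by
      funext v
      show conj (φ (1 / conj v)) = conj (φ (conj (v⁻¹)))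
      rw [one_div, map_inv₀]
    have hrw : rho w1 = conj (w1⁻¹) := by
      unfold rho
      rw [one_div, map_inv₀]
    have hd1 : DifferentiableAt ℂ φ (rho w1) := by
      refine hφ.differentiableAt (isOpen_ball.mem_nhds (ball_subset_ball hR.le (hrb w1 ?_)))
      rw [hw1]
      exact hR
    have h2 : HasDerivAt (conj ∘ φ ∘ conj) (conj (deriv φ (rho w1))) (w1⁻¹) := by
      have h3 := (hd1.hasDerivAt).conj_conj
      rw [hrw, conj_conj] at h3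
      rw [hrw]
      exact h3
    have h3 := h2.comp w1 (hasDerivAt_inv hw10)
    rw [← h1] at h3
    refine ⟨_, ?_, h3.sub_const _⟩
    refine mul_ne_zero ((map_ne_zero _).2 hnz) ?_
    exact neg_ne_zero.2 (inv_ne_zero (pow_ne_zero 2 hw10))
  obtain ⟨d, hd, hder⟩ := hder
  have hd' : 0 < ‖d‖ := norm_pos_iff.2 hd
  have hlow : ∀ᶠ w in 𝓝 w1, ‖w - w1‖ ≤ 2 / ‖d‖ * ‖Rf φ w - Rf φ w1‖ := by
    have h1 := hder.isLittleO.def (c := ‖d‖ / 2) (by positivity)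
    filter_upwards [h1] with w hw
    simp only [sub_self, sub_zero, smul_eq_mul] at hw
    have h2 : ‖(w - w1) * d‖ ≤ ‖Rf φ w - Rf φ w1‖ + ‖Rf φ w - Rf φ w1 - (w - w1) * d‖ := by
      have : (w - w1) * d = (Rf φ w - Rf φ w1) - (Rf φ w - Rf φ w1 - (w - w1) * d) := by ring
      calc ‖(w - w1) * d‖ = ‖(Rf φ w - Rf φ w1) - (Rf φ w - Rf φ w1 - (w - w1) * d)‖ := by
            rw [← this]
        _ ≤ _ := norm_sub_le _ _
    rw [norm_mul] at h2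
    have h3 : ‖w - w1‖ * (‖d‖ / 2) ≤ ‖Rf φ w - Rf φ w1‖ := by linarith
    have h4 : ‖w - w1‖ ≤ ‖Rf φ w - Rf φ w1‖ / (‖d‖ / 2) := (le_div_iff₀ (by positivity)).2 h3
    refine h4.trans (le_of_eq ?_)
    field_simp
  obtain ⟨ε, hε, hlow⟩ := Metric.eventually_nhds_iff_ball.1 hlow
  have hs1 : ∀ w ∈ ball w1 (min ε (R - 1)), 1 < ‖w‖ := fun w hw =>
    hb w (ball_subset_ball (min_le_right _ _) hw)
  refine ⟨min ε (R - 1), 2 / ‖d‖, lt_min hε (by linarith), by positivity, hs1,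
    fun w hw => hrb w (hs1 w hw), ?_, ?_, fun w hw => hlow w
      (ball_subset_ball (min_le_left _ _) hw)⟩
  · intro w hw
    exact ((Rf_ann hR0 hφ (hRi.trans (hs1 w hw))).sub_const _).differentiableWithinAt
  · intro w hw hne h0
    apply hne
    have h1 := hlow w (ball_subset_ball (min_le_left _ _) hw)
    rw [h0, norm_zero, mul_zero] at h1
    have h2 : ‖w - w1‖ = 0 := le_antisymm h1 (norm_nonneg _)
    exact sub_eq_zero.1 (norm_eq_zero.1 h2)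

/-- the small case -/
theorem fin_small {φ : ℂ → ℂ} {r lam R ε0 C : ℝ} {w1 : ℂ} {t : ℂ → ℂ} {b : ℂ} (hr : 1 < r)
    (hrR : r ≤ R) (hlam : 0 < lam) (hφ : DifferentiableOn ℂ φ (ball 0 R))
    (hBB : BranchesBlowUp φ r lam) (hw1 : ‖w1‖ = R) (hε0 : 0 < ε0) (hC : 0 < C)
    (hlow : ∀ w ∈ ball w1 ε0, ‖w - w1‖ ≤ C * ‖t w‖)
    (hlim : ∀ δ : ℝ, 0 < δ → ∃ ε : ℝ, 0 < ε ∧ ε ≤ ε0 ∧ ∀ w ∈ ball w1 ε, ‖w‖ < R →
      ‖t w * (φ w - b)‖ < δ) : LocExt φ R w1 := by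
  refine ext_small hr hrR hlam hφ hBB hw1 fun η hη => ?_
  obtain ⟨ε, hε, hεε, h1⟩ := hlim (η / (2 * C)) (by positivity)
  obtain ⟨ε', hε'⟩ : ∃ ε' : ℝ, ε' = η / (2 * (‖b‖ + 1)) := ⟨_, rfl⟩
  have hε'0 : 0 < ε' := by rw [hε']; positivity
  refine ⟨min ε ε', lt_min hε hε'0, fun w hwR hw => ?_⟩
  have hwb : w ∈ ball w1 ε := mem_ball_iff_norm.2 (hw.trans_le (min_le_left _ _))
  have h2 := h1 w hwb hwR
  have h3 := hlow w (ball_subset_ball hεε hwb)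
  have h4 : ‖φ w‖ ≤ ‖φ w - b‖ + ‖b‖ := by
    have := norm_add_le (φ w - b) b
    rwa [sub_add_cancel] at this
  have h5 : ‖w - w1‖ * ‖φ w - b‖ ≤ η / 2 := by
    calc ‖w - w1‖ * ‖φ w - b‖ ≤ C * ‖t w‖ * ‖φ w - b‖ :=
          mul_le_mul_of_nonneg_right h3 (norm_nonneg _)
      _ = C * ‖t w * (φ w - b)‖ := by rw [norm_mul]; ring
      _ ≤ C * (η / (2 * C)) := mul_le_mul_of_nonneg_left h2.le hC.le
      _ = η / 2 := by field_simp
  have h6 : ‖w - w1‖ * ‖b‖ ≤ η / 2 := by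
    have h7 : ‖w - w1‖ ≤ ε' := (hw.trans_le (min_le_right _ _)).le
    calc ‖w - w1‖ * ‖b‖ ≤ ε' * (‖b‖ + 1) :=
          mul_le_mul h7 (by linarith) (norm_nonneg _) hε'0.le
      _ = η / 2 := by
          rw [hε']
          field_simp
  calc ‖w - w1‖ * ‖φ w‖ ≤ ‖w - w1‖ * (‖φ w - b‖ + ‖b‖) :=
        mul_le_mul_of_nonneg_left h4 (norm_nonneg _)
    _ = ‖w - w1‖ * ‖φ w - b‖ + ‖w - w1‖ * ‖b‖ := by ring
    _ ≤ η := by linarith

/-- the unramified case -/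
theorem fin_pole {φ : ℂ → ℂ} {r R ε0 : ℝ} {w1 : ℂ} {t : ℂ → ℂ} {b : ℂ} (e : ℕ) (hr : 1 < r)
    (hrR : r ≤ R) (hφ : DifferentiableOn ℂ φ (ball 0 R))
    (hNI : NoFiniteIsolatedSingularity φ r) (hw1 : ‖w1‖ = R)
    (ht : DifferentiableOn ℂ t (ball w1 ε0)) (htn : ∀ w ∈ ball w1 ε0, w ≠ w1 → t w ≠ 0)
    (X : ℂ → ℂ) (δ : ℝ) (hδ : 0 < δ) (hδε : δ ≤ ε0)
    (hX : DifferentiableOn ℂ (fun w => X (t w)) (ball w1 δ))
    (hXφ : ∀ w ∈ ball w1 δ, ‖w‖ < R → t w ^ e * (φ w - b) = X (t w)) : LocExt φ R w1 := by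
  refine ext_iso hr hrR hφ hNI hw1 δ hδ (fun w => b + X (t w) / t w ^ e) ?_ ?_
  · intro w hw
    have h1 : DifferentiableAt ℂ (fun w => X (t w)) w :=
      hX.differentiableAt (isOpen_ball.mem_nhds hw.1)
    have h2 : DifferentiableAt ℂ t w :=
      ht.differentiableAt (isOpen_ball.mem_nhds (ball_subset_ball hδε hw.1))
    have h3 : t w ^ e ≠ 0 := pow_ne_zero _ (htn w (ball_subset_ball hδε hw.1) hw.2)
    exact ((h1.div (h2.pow e) h3).const_add b).differentiableWithinAt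
  · intro w hw hwR
    have hne : w ≠ w1 := by
      rintro rfl
      linarith
    have h3 : t w ^ e ≠ 0 := pow_ne_zero _ (htn w (ball_subset_ball hδε hw) hne)
    rw [← hXφ w hw hwR, mul_div_cancel_left₀ _ h3]
    ring

end Pool.Agent.E8helper4.AB
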